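import Pool.Agent.P.MP_26a8c3_nt.ED.Defs
import Pool.Agent.P.MP_26a8c3_nt.EC.Bias
import Pool.Agent.P.MP_26a8c3_nt.EC.List

/-! Cancellation in bilinear sums of reciprocals, on average over moduli with a large prime
factor. No divisor bound is used. -/

namespace Pool.Agent.P.MP_26a8c3_nt.ED

open Finset EC EC.Bias
open scoped Classical
open Hyb (ee)

namespace BiasD

lemma ee_one (n : ℤ) : ee (n : ℝ) = 1 := by
  rw [Hyb.ee_eq, ← Complex.exp_int_mul_two_pi_mul_I n]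
  congr 1
  push_cast
  ring

lemma pc_nonneg (C : Finset ℕ) (p : ℕ) : 0 ≤ pc C p := Hyb.pairs_nonneg _ _

/-- One pair of classes modulo the cofactor. -/
lemma two {C1 C2 : Finset ℕ} {p m c1 c2 : ℕ} {h D : ℤ} (hp : p.Prime) (hm : 0 < m)
    (hpm : Nat.Coprime m p) (hD : ∀ e1 ∈ C1, ∀ e2 ∈ C2, ((e1 * e2 : ℕ) : ℤ) ∣ D)
    (hc : ∀ e ∈ C1 ∪ C2, Nat.Coprime e (p * m)) (hn : ¬ (p : ℤ) ∣ h * D)
    (h1 : ∀ e ∈ C1, e % m = c1) (h2 : ∀ e ∈ C2, e % m = c2) :
    ‖∑ e1 ∈ C1, ∑ e2 ∈ C2, ee (((h * (D / ((e1 * e2 : ℕ) : ℤ)) : ℤ) : ℝ) / (p * m : ℕ))‖ ≤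
      √p * (√(pc C1 p) * √(pc C2 p)) := by
  rcases C1.eq_empty_or_nonempty with rfl | ⟨x0, hx0⟩
  · simp only [sum_empty, norm_zero]; positivity
  rcases C2.eq_empty_or_nonempty with rfl | ⟨y0, hy0⟩
  · simp only [sum_empty, sum_const_zero, norm_zero]; positivity
  obtain ⟨a, b, hab⟩ := Nat.isCoprime_iff_coprime.2 hpm
  have p0 : (p : ℝ) ≠ 0 := by exact_mod_cast hp.ne_zero
  have m0 : (m : ℝ) ≠ 0 := by exact_mod_cast hm.ne'
  have key : ∀ x ∈ C1, ∀ y ∈ C2, ee (((h * (D / ((x * y : ℕ) : ℤ)) : ℤ) : ℝ) / (p * m : ℕ)) =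
      ee (((b * (h * (D / ((x0 * y0 : ℕ) : ℤ))) : ℤ) : ℝ) / m) *
        ee (((a * h * (D / ((x * y : ℕ) : ℤ)) : ℤ) : ℝ) / p) := by
    intro x hx y hy
    have e1 := Int.ediv_mul_cancel (hD x hx y hy)
    have e2 := Int.ediv_mul_cancel (hD x0 hx0 y0 hy0)
    have e3 : x * y ≡ x0 * y0 [MOD m] := Nat.ModEq.mul ((h1 x hx).trans (h1 x0 hx0).symm)
      ((h2 y hy).trans (h2 y0 hy0).symm)
    have e4 : IsCoprime (m : ℤ) ((x * y : ℕ) : ℤ) := Nat.isCoprime_iff_coprime.2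
      (Nat.Coprime.mul_left (hc x (mem_union_left _ hx)).coprime_mul_left_right
        (hc y (mem_union_right _ hy)).coprime_mul_left_right).symm
    generalize D / ((x * y : ℕ) : ℤ) = z at *
    generalize D / ((x0 * y0 : ℕ) : ℤ) = z0 at *
    obtain ⟨j, hj⟩ := e3.dvd
    obtain ⟨k, hk⟩ : (m : ℤ) ∣ z - z0 := e4.dvd_of_dvd_mul_right
      ⟨z0 * j, by linear_combination e1 - e2 + z0 * hj⟩
    rw [← mul_one (ee _ * ee _), ← ee_one (b * h * k), ← Hyb.ee_add, ← Hyb.ee_add]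
    congr 1
    have f1 : (a : ℝ) * m + b * p = 1 := by exact_mod_cast hab
    have f2 : (z : ℝ) = z0 + m * k := by exact_mod_cast eq_add_of_sub_eq' hk
    push_cast
    field_simp
    linear_combination (-(h * z : ℝ)) * f1 + (b * h * p : ℝ) * f2
  rw [sum_congr rfl fun x hx => sum_congr rfl fun y hy => key x hx y hy]
  simp only [← mul_sum]
  rw [norm_mul, Hyb.norm_ee, one_mul, ← Real.sqrt_mul (pc_nonneg _ _),
    ← Real.sqrt_mul (Nat.cast_nonneg _), ← mul_assoc]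
  refine Real.le_sqrt_of_sq_le ?_
  have g1 : Int.gcd (p : ℤ) (a * h * D) = 1 := by
    rw [← Int.isCoprime_iff_gcd_eq_one, mul_assoc]
    exact IsCoprime.mul_right ⟨b, m, by linear_combination hab⟩
      ((Nat.prime_iff_prime_int.1 hp).coprime_iff_not_dvd.2 hn)
  have := bil C1 C2 p (a * h) D hp.pos hD fun e he => (hc e he).coprime_mul_right_right
  rwa [g1, Nat.div_one] at this

/-- The number of congruent pairs off the diagonal. -/
noncomputable def xc (C : Finset ℕ) (p : ℕ) : ℝ :=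
  ∑ e ∈ C, ∑ e' ∈ C, if e ≠ e' ∧ (p : ℤ) ∣ (e : ℤ) - e' then 1 else 0

lemma xc_nonneg (C : Finset ℕ) (p : ℕ) : 0 ≤ xc C p :=
  sum_nonneg fun _ _ => sum_nonneg fun _ _ => by positivity

lemma pc_le (C : Finset ℕ) (p : ℕ) : pc C p ≤ C.card + xc C p := by
  rw [pc, Hyb.pairs_eq_sum, xc, card_eq_sum_ones, Nat.cast_sum, ← sum_add_distrib]
  refine sum_le_sum fun e he => ?_
  have : ((1 : ℕ) : ℝ) = ∑ e' ∈ C, if e = e' then (1 : ℝ) else 0 := by simp [he]
  rw [this, ← sum_add_distrib]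
  refine sum_le_sum fun e' _ => ?_
  by_cases a : e = e' <;> by_cases b : (p : ℤ) ∣ (e : ℤ) - e' <;> simp [a, b]

lemma xc_sum {C P : Finset ℕ} {Λ : ℝ} (hΛ : 0 ≤ Λ) (hP : ∀ p ∈ P, p.Prime)
    (hC : ∀ e ∈ C, (e : ℝ) ≤ Real.exp Λ) : ∑ p ∈ P, xc C p ≤ C.card * (C.card * (2 * Λ)) := by
  unfold xc
  rw [sum_comm, ← nsmul_eq_mul]
  refine sum_le_card_nsmul _ _ _ fun e he => ?_
  rw [sum_comm, ← nsmul_eq_mul]
  refine sum_le_card_nsmul _ _ _ fun e' he' => ?_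
  by_cases a : e = e'
  · simp [a, hΛ]
  have h0 : (e : ℤ) - e' ≠ 0 := by omega
  rw [sum_boole]
  refine (Col.omega_le h0 _ fun p hp => ⟨hP p (mem_filter.1 hp).1, (mem_filter.1 hp).2.2⟩).trans
    (mul_le_mul_of_nonneg_left ?_ zero_le_two)
  rw [Real.log_le_iff_le_exp (abs_pos.2 (by exact_mod_cast h0)), abs_le]
  push_cast
  constructor <;> linarith [hC e he, hC e' he', Nat.cast_nonneg (α := ℝ) e,
    Nat.cast_nonneg (α := ℝ) e']

lemma card_cls (E : Finset ℕ) {m : ℕ} (hm : 0 < m) :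
    ∑ c ∈ range m, ((E.filter fun e => e % m = c).card : ℝ) = E.card := by
  exact_mod_cast (card_eq_sum_card_fiberwise (f := fun e => e % m) (s := E) (t := range m)
    fun e _ => mem_coe.2 (mem_range.2 (Nat.mod_lt _ hm))).symm

/-- The sum over the classes. -/
noncomputable def ph (E : Finset ℕ) (m p : ℕ) : ℝ :=
  ∑ c ∈ range m, √(pc (E.filter fun e => e % m = c) p)

/-- The weighted collisions. -/
noncomputable def yc (E : Finset ℕ) (m p : ℕ) : ℝ :=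
  ∑ c ∈ range m, xc (E.filter fun e => e % m = c) p / (E.filter fun e => e % m = c).card

lemma yc_nonneg (E : Finset ℕ) (m p : ℕ) : 0 ≤ yc E m p :=
  sum_nonneg fun _ _ => div_nonneg (xc_nonneg _ _) (Nat.cast_nonneg _)

lemma ph_le {E : Finset ℕ} {m : ℕ} (p : ℕ) (hm : 0 < m) (hE : (0 : ℝ) < E.card) :
    ph E m p ^ 2 ≤ 2 * E.card * (m + yc E m p) := by
  have m0 : (0 : ℝ) < m := by exact_mod_cast hm
  refine (sum_sq_le_sum_mul_sum_of_sq_le_mul (range m)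
    (f := fun c => ((E.filter fun e => e % m = c).card : ℝ) + E.card / m)
    (g := fun c => ((E.filter fun e => e % m = c).card : ℝ) * (m / E.card) +
      xc (E.filter fun e => e % m = c) p / (E.filter fun e => e % m = c).card)
    (fun _ _ => by positivity)
    (fun _ _ => add_nonneg (by positivity) (div_nonneg (xc_nonneg _ _) (Nat.cast_nonneg _)))
    fun c _ => ?_).trans (le_of_eq ?_)
  · rw [Real.sq_sqrt (pc_nonneg _ _)]
    refine (pc_le _ _).trans ?_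
    generalize (E.filter fun e => e % m = c) = C
    rcases C.eq_empty_or_nonempty with rfl | hC
    · simp [xc]
    have c0 : (0 : ℝ) < C.card := by exact_mod_cast hC.card_pos
    have x0 := xc_nonneg C p
    have e : (C.card + E.card / m : ℝ) * (C.card * (m / E.card) + xc C p / C.card) =
        C.card + xc C p + (C.card * (C.card * (m / E.card)) + E.card / m * (xc C p / C.card)) := by
      field_simp
      ring
    rw [e]
    exact le_add_of_nonneg_right (by positivity)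
  · rw [sum_add_distrib, sum_add_distrib, ← sum_mul, card_cls E hm, sum_const, card_range,
      nsmul_eq_mul, yc]
    congr 1
    · field_simp
      ring
    · congr 1
      field_simp

lemma yc_sum {E P : Finset ℕ} {Λ : ℝ} {m : ℕ} (hm : 0 < m) (hΛ : 0 ≤ Λ) (hP : ∀ p ∈ P, p.Prime)
    (hE : ∀ e ∈ E, (e : ℝ) ≤ Real.exp Λ) : ∑ p ∈ P, yc E m p ≤ E.card * (2 * Λ) := by
  unfold yc
  rw [sum_comm, ← card_cls E hm, sum_mul]
  refine sum_le_sum fun c _ => ?_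
  rw [← sum_div]
  exact div_le_of_le_mul₀ (Nat.cast_nonneg _) (by positivity)
    ((xc_sum hΛ hP fun e he => hE e (mem_filter.1 he).1).trans_eq (mul_comm _ _))

lemma tot {Q E : Finset ℕ} {f : ℕ → ℕ} {M W Λ : ℝ} (hM : 1 ≤ M) (hW : 0 < W) (hΛ : 0 ≤ Λ)
    (h : ∀ q ∈ Q, 0 < q ∧ (q : ℝ) ≤ M ∧ (f q).Prime ∧ f q ∣ q ∧ W ≤ f q)
    (hE0 : (0 : ℝ) < E.card) (hE : ∀ e ∈ E, (e : ℝ) ≤ Real.exp Λ) :
    ∑ q ∈ Q, √(f q : ℝ) * ph E (q / f q) (f q) ^ 2 ≤
      E.card * (2 * (M / √W * (M + (1 + Real.log M) * (E.card * (2 * Λ))))) := by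
  have M0 : 0 ≤ M := by linarith
  have hs : Q ⊆ Icc 1 ⌊M⌋₊ := fun q hq => mem_Icc.2 ⟨(h q hq).1, Nat.le_floor (h q hq).2.1⟩
  have hQ : (Q.card : ℝ) ≤ M := by
    have h2 := card_le_card hs
    rw [Nat.card_Icc, Nat.add_sub_cancel] at h2
    exact (Nat.cast_le.2 h2).trans (Nat.floor_le M0)
  have hm : ∀ q ∈ Q, 0 < q / f q := fun q hq =>
    Nat.div_pos (Nat.le_of_dvd (h q hq).1 (h q hq).2.2.2.1) (h q hq).2.2.1.pos
  have k1 : ∀ q ∈ Q, √(f q : ℝ) * ph E (q / f q) (f q) ^ 2 ≤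
      E.card * (2 * (M / √W * (1 + ((q / f q : ℕ) : ℝ)⁻¹ * yc E (q / f q) (f q)))) := by
    intro q hq
    obtain ⟨-, a2, a3, a4, a5⟩ := h q hq
    have m0 : (0 : ℝ) < (q / f q : ℕ) := by exact_mod_cast hm q hq
    have e1 : (f q : ℝ) * (q / f q : ℕ) = q := by exact_mod_cast Nat.mul_div_cancel' a4
    have s0 := Real.sqrt_pos.2 hW
    have s1 := Real.sqrt_le_sqrt a5
    have s2 := Real.mul_self_sqrt (Nat.cast_nonneg (α := ℝ) (f q))
    have s3 : √(f q : ℝ) * (q / f q : ℕ) ≤ M / √W := by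
      rw [le_div_iff₀ s0]
      calc _ ≤ √(f q : ℝ) * (q / f q : ℕ) * √(f q : ℝ) := by gcongr
        _ = q := by rw [mul_right_comm, s2, e1]
        _ ≤ M := a2
    have y0 := yc_nonneg E (q / f q) (f q)
    refine (mul_le_mul_of_nonneg_left (ph_le (f q) (hm q hq) hE0) (Real.sqrt_nonneg _)).trans ?_
    calc _ = E.card * (2 * (√(f q : ℝ) * (q / f q : ℕ) *
          (1 + ((q / f q : ℕ) : ℝ)⁻¹ * yc E (q / f q) (f q)))) := by field_simp
      _ ≤ _ := by gcongr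
  refine (sum_le_sum k1).trans ?_
  rw [← mul_sum, ← mul_sum, ← mul_sum, sum_add_distrib, sum_const, nsmul_eq_mul, mul_one]
  gcongr
  have inj : Set.InjOn (fun q => (q / f q, f q)) (Q : Set ℕ) := fun q hq q' hq' e => by
    obtain ⟨e1, e2⟩ := Prod.mk.inj e
    rw [← Nat.mul_div_cancel' (h q hq).2.2.2.1, e1, e2, Nat.mul_div_cancel' (h q' hq').2.2.2.1]
  calc _ = ∑ x ∈ Q.image fun q => (q / f q, f q), (x.1 : ℝ)⁻¹ * yc E x.1 x.2 := by
        rw [sum_image inj]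
    _ ≤ ∑ x ∈ Icc 1 ⌊M⌋₊ ×ˢ Q.image f, (x.1 : ℝ)⁻¹ * yc E x.1 x.2 := by
        refine sum_le_sum_of_subset_of_nonneg (fun x hx => ?_) fun x _ _ =>
          mul_nonneg (by positivity) (yc_nonneg _ _ _)
        obtain ⟨q, hq, rfl⟩ := mem_image.1 hx
        exact mem_product.2 ⟨mem_Icc.2 ⟨hm q hq, (Nat.div_le_self _ _).trans (mem_Icc.1 (hs hq)).2⟩,
          mem_image_of_mem _ hq⟩
    _ ≤ ∑ m ∈ Icc 1 ⌊M⌋₊, (m : ℝ)⁻¹ * (E.card * (2 * Λ)) := by
        rw [sum_product]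
        refine sum_le_sum fun m hm => ?_
        dsimp only
        rw [← mul_sum]
        refine mul_le_mul_of_nonneg_left (yc_sum (mem_Icc.1 hm).1 hΛ (fun p hp => ?_) hE)
          (by positivity)
        obtain ⟨q, hq, rfl⟩ := mem_image.1 hp
        exact (h q hq).2.2.1
    _ ≤ _ := by
        rw [← sum_mul]
        refine mul_le_mul_of_nonneg_right ((Lst.rc_le Subset.rfl).trans ?_) (by positivity)
        exact add_le_add le_rfl (Real.log_le_log (by exact_mod_cast Nat.floor_pos.2 hM)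
          (Nat.floor_le M0))

lemma numD {Λ L th n : ℝ} (hth : 0 < th) (hth' : th ≤ 1 / 1000) (hΛ : 1 / th ≤ Λ)
    (hL : 1 ≤ L) (h : Λ ^ 40 ≤ L ^ th) (hn : L ≤ n) :
    2 * (L ^ (1 + th) / √(L ^ (20 * th)) * (L ^ (1 + th) +
      (1 + Real.log (L ^ (1 + th))) * (n * (2 * Λ)))) ≤ n * L ^ (1 - 6 * th) := by
  have hL0 : 0 < L := by linarith
  rw [div_le_iff₀ hth] at hΛ
  have l1 : 14 ≤ Λ := by nlinarith
  have h1 : Λ ^ 2 ≤ L ^ th := (pow_le_pow_right₀ (by linarith) (by norm_num)).trans h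
  have e1 : L ^ (1 - 6 * th) = L ^ (1 + th) / √(L ^ (20 * th)) * (L ^ th) ^ 3 := by
    rw [Real.sqrt_eq_rpow, ← Real.rpow_mul hL0.le, ← Real.rpow_sub hL0, ← Real.rpow_natCast,
      ← Real.rpow_mul hL0.le, ← Real.rpow_add hL0]
    congr 1
    push_cast
    ring
  have e2 : L ^ (1 + th) ≤ n * L ^ th := by
    rw [Real.rpow_add hL0, Real.rpow_one]
    gcongr
  have e3 : Real.log (L ^ (1 + th)) ≤ 2 * (Λ * L ^ th) := by
    have a1 := Real.log_le_self (Real.rpow_nonneg hL0.le th)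
    have a2 := Real.log_nonneg hL
    rw [Real.log_rpow hL0] at a1 ⊢
    have a3 := mul_le_mul_of_nonneg_left a1 (show 0 ≤ Λ by linarith)
    nlinarith
  rw [e1]
  have p1 : 0 ≤ L ^ (1 + th) / √(L ^ (20 * th)) := by positivity
  generalize L ^ (1 + th) / √(L ^ (20 * th)) = a at *
  generalize Real.log (L ^ (1 + th)) = l at *
  generalize L ^ (1 + th) = b at *
  generalize L ^ th = w at *
  have n0 : 0 < n := by linarith
  have w1 : 14 ≤ w := by nlinarith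
  have b1 : (1 + l) * (2 * Λ) ≤ 6 * (w * w) := by
    have c1 : 1 + l ≤ 3 * (Λ * w) := by nlinarith
    have c2 := mul_le_mul_of_nonneg_right c1 (show 0 ≤ 2 * Λ by linarith)
    nlinarith
  have b2 : 2 * (w + 6 * (w * w)) ≤ w ^ 3 := by nlinarith
  have b3 : b + (1 + l) * (n * (2 * Λ)) ≤ n * (w + 6 * (w * w)) := by
    nlinarith [mul_le_mul_of_nonneg_left b1 n0.le]
  calc _ ≤ 2 * (a * (n * (w + 6 * (w * w)))) := by gcongr
    _ = n * (a * (2 * (w + 6 * (w * w)))) := by ring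
    _ ≤ _ := by gcongr

end BiasD

open BiasD

theorem qBias : T_Bias := by
  intro th hth hth'
  refine ⟨1 / th, fun Λ L E1 E2 Q D hh hΛ hL h40 hE n1 n2 hD hQ => ?_⟩
  have Λ0 : 0 ≤ Λ := le_trans (by positivity) hΛ
  choose! f f1 f2 f3 f4 using fun q hq => (hQ q hq).2.2.2
  have hr : ∀ q ∈ Q, 0 < q ∧ (q : ℝ) ≤ L ^ (1 + th) ∧ (f q).Prime ∧ f q ∣ q ∧
      L ^ (20 * th) ≤ f q := fun q hq =>
    ⟨(hQ q hq).1.ne_zero.bot_lt, (hQ q hq).2.1, f1 q hq, f2 q hq, f3 q hq⟩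
  have p1 : (0 : ℝ) < E1.card := by linarith
  have p2 : (0 : ℝ) < E2.card := by linarith
  have M1 : 1 ≤ L ^ (1 + th) := Real.one_le_rpow hL (by linarith)
  have c1 := (tot M1 (by positivity) Λ0 hr p1 fun e he => (hE e (mem_union_left _ he)).2).trans
    (mul_le_mul_of_nonneg_left (numD hth hth' hΛ hL h40 n1) p1.le)
  have c2 := (tot M1 (by positivity) Λ0 hr p2 fun e he => (hE e (mem_union_right _ he)).2).trans
    (mul_le_mul_of_nonneg_left (numD hth hth' hΛ hL h40 n2) p2.le)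
  have key : ∀ q ∈ Q, ‖∑ e1 ∈ E1, ∑ e2 ∈ E2,
      ee (((hh q * (D / ((e1 * e2 : ℕ) : ℤ)) : ℤ) : ℝ) / q)‖ ^ 2 ≤
      f q * ph E1 (q / f q) (f q) ^ 2 * ph E2 (q / f q) (f q) ^ 2 := by
    intro q hq
    obtain ⟨a1, -, a3, -⟩ := hQ q hq
    have a4 := f4 q hq
    have a5 := f1 q hq
    obtain ⟨m, hm⟩ := f2 q hq
    generalize f q = p at *
    generalize hh q = h at *
    subst hm
    have m0 : 0 < m := Nat.pos_of_mul_pos_left a1.ne_zero.bot_lt
    rw [Nat.mul_div_cancel_left _ a5.pos, ← Real.sq_sqrt (Nat.cast_nonneg p), ← mul_pow, ← mul_pow]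
    refine pow_le_pow_left₀ (norm_nonneg _) ?_ 2
    have fib : ∀ (E : Finset ℕ) (g : ℕ → ℂ), ∑ e ∈ E, g e =
        ∑ c ∈ range m, ∑ e ∈ E.filter fun e => e % m = c, g e := fun E g =>
      (sum_fiberwise_of_maps_to (fun e _ => mem_range.2 (Nat.mod_lt _ m0)) g).symm
    rw [fib E1, mul_assoc, ph, ph, sum_mul_sum, mul_sum]
    refine norm_sum_le_of_le _ fun c1 _ => ?_
    rw [sum_congr rfl fun e1 _ => fib E2 _, sum_comm, mul_sum]
    refine norm_sum_le_of_le _ fun c2 _ => two a5 m0 (Nat.coprime_of_squarefree_mul a1).symm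
      (fun e1 h1 e2 h2 => hD e1 (mem_filter.1 h1).1 e2 (mem_filter.1 h2).1)
      (fun e he => a3 e (union_subset_union (filter_subset _ _) (filter_subset _ _) he)) a4
      (fun e he => (mem_filter.1 he).2) fun e he => (mem_filter.1 he).2
  refine (sum_le_sum fun q hq => amgm (Nat.cast_nonneg _) (sq_nonneg _) (sq_nonneg _)
    p1 p2 (key q hq)).trans ?_
  rw [sum_add_distrib, ← mul_sum, ← mul_sum]
  refine (add_le_add (mul_le_mul_of_nonneg_left c1 (by positivity))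
    (mul_le_mul_of_nonneg_left c2 (by positivity))).trans (le_of_eq ?_)
  field_simp
  ring

end Pool.Agent.P.MP_26a8c3_nt.ED
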