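import Pool.Agent.P.MP_26a8c3_nt.ED.Defs
import Pool.Agent.P.MP_26a8c3_nt.EC.Bil

/-! The bilinear estimate in the two large primes. -/

namespace Pool.Agent.P.MP_26a8c3_nt.ED

open Finset Filter EC EC.Bil
open scoped Classical
open Hyb (ee norm_ee)

lemma largeB (K : ℝ) : ∃ Λ0 : ℝ, ∀ Λ : ℝ, Λ0 ≤ Λ → K ≤ Λ ∧ ∃ Z : ℝ, Λ ≤ Z ∧
    (∀ B, Sm B Λ → Λ ^ B ≤ Z) ∧
    Xi Λ ≤ Z ∧ Z ^ 30 ≤ Real.exp (Λ ^ (3 / 5 : ℝ) - 2) ∧ Real.log Z ≤ Λ := by
  obtain ⟨Λ0, h⟩ := large 0 (max K 1)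
  refine ⟨Λ0, fun Λ hΛ => ?_⟩
  obtain ⟨a1, Z, a2, -, a3, a4⟩ := h Λ hΛ
  exact ⟨(le_max_left _ _).trans a1, Z, a2, fun B hB =>
    (hB.pow_le ((le_max_right _ _).trans a1) (by norm_num)).trans a3, a3, a4⟩

theorem qBil (hKS : S_KS) : T_Bil := by
  obtain ⟨C, hC, ks⟩ := hKS
  obtain ⟨C', hC', dv⟩ := Hyb.div_bound (show (0 : ℝ) < 1 / 2 by norm_num)
  intro th
  obtain ⟨Λ0, h0⟩ := largeB (96 * C * C' + 19)
  refine ⟨Λ0, fun t1 q B Λ L P T W2 W1 a v E h z hΛ hB hx hlen hE hv1 hv2 ha hcase hh0 hh hq1 hq2 hW hz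
    => ?_⟩
  obtain ⟨k1, Z, z1, z2, z3, z4, z5⟩ := h0 Λ hΛ
  replace z2 := z2 B hB
  have hL1 := hx.L0
  have hL0 : 0 < L := by linarith
  have hCC : C ≤ C * C' := le_mul_of_one_le_right hC.le hC'
  have k2 : 19 ≤ Λ := by linarith
  have hZ : 19 ≤ Z := k2.trans z1
  have hP : Z ^ 30 ≤ P := z4.trans hx.P2a
  have hP0 : 0 < P := lt_of_lt_of_le (by positivity) hP
  have hX : Z ^ 30 ≤ Real.exp t1 := z4.trans (Real.exp_le_exp.2 (by linarith [hx.t1a]))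
  rcases W1.eq_empty_or_nonempty with rfl | ⟨p0, hp0⟩
  · simp only [sum_empty, norm_zero]; positivity
  rcases W2.eq_empty_or_nonempty with rfl | ⟨n0, hn0⟩
  · simp only [sum_empty, sum_const_zero, norm_zero]; positivity
  obtain ⟨w, hw⟩ : ∃ w, w = L ^ th := ⟨_, rfl⟩
  have hw0 : 0 < w := by rw [hw]; positivity
  have pw : ∀ n : ℕ, L ^ ((n : ℝ) * th) = w ^ n := fun n => by
    rw [hw, mul_comm, Real.rpow_mul hL0.le, Real.rpow_natCast]
  have p20 := pw 20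
  have p4 := pw 4
  have p3 := pw 3
  push_cast at p20 p4 p3
  rw [Real.rpow_neg hL0.le, p3]
  rw [p20] at hcase
  rw [p4] at hh
  rw [Real.rpow_sub hL0, Real.rpow_one, ← hw, div_le_iff₀ hw0] at hq1
  rw [Real.rpow_add hL0, Real.rpow_one, ← hw] at hq2
  have hLZ : L ≤ Z := hx.L2.trans z2
  have hwZ : w ≤ Z := hw ▸ (Real.rpow_le_self_of_one_le hL1 (by linarith [hx.th1])).trans hLZ
  have hΛw : Λ ^ 40 ≤ w := hw ▸ hx.L1
  lift v to ℕ using by omega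
  have hv0 : 0 < v := by omega
  have hv0' : (0 : ℝ) < v := by exact_mod_cast hv0
  have hq0' : (0 : ℝ) < q := (mul_pos_iff_of_pos_right hw0).1 (hL0.trans_le hq1)
  have hq0 : 0 < q := by exact_mod_cast hq0'
  have hXi : Xi Λ ^ 3 ≤ Z ^ 3 := pow_le_pow_left₀ (Real.exp_pos _).le z3 3
  push_cast at hv2 ha hcase
  have hm0 : 0 < v * q := Nat.mul_pos hv0 hq0
  have hm : ((v * q : ℕ) : ℝ) ≤ Z ^ 5 := by
    push_cast
    exact (mul_le_mul (hv2.trans hXi) (hq2.trans (mul_le_mul hLZ hwZ hw0.le (by linarith)))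
      hq0'.le (by positivity)).trans (le_of_eq (by ring))
  have hmP : ((v * q : ℕ) : ℝ) < Z ^ 29 := hm.trans_lt (pow_lt_pow_right₀ (by linarith) (by norm_num))
  have z29 : 19 * Z ^ 29 ≤ Z ^ 30 := by
    rw [pow_succ' Z 29]; exact mul_le_mul_of_nonneg_right hZ (by positivity)
  have cop' : ∀ p : ℕ, p.Prime → Z ^ 29 ≤ p → Nat.Coprime p (v * q) := fun p hp h1 =>
    hp.coprime_iff_not_dvd.2 fun hd => absurd (Nat.le_of_dvd hm0 hd)
      (not_le.2 (by exact_mod_cast hmP.trans_le h1))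
  obtain ⟨X, hXd⟩ : ∃ X, X = Real.exp t1 := ⟨_, rfl⟩
  have hX0 : 0 < X := hXd ▸ Real.exp_pos _
  have w1 : ∀ p ∈ W1, p.Prime ∧ X ≤ 3 * p ∧ (p : ℝ) ≤ X := fun p hp => by
    obtain ⟨b1, b2, b3⟩ := mem_PR.1 (hW hp)
    have b4 := exp_tau_lt b1.pos
    have b5 := le_exp_tau p
    rw [le_antisymm b3 b2, ← hXd] at b5
    rw [le_antisymm b3 b2, Real.exp_sub, ← hXd, div_lt_iff₀ (Real.exp_pos _)] at b4
    refine ⟨b1, ?_, b5⟩
    linarith [mul_le_mul_of_nonneg_left (show Real.exp 1 ≤ 3 by linarith [Real.exp_one_lt_d9])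
      (Nat.cast_nonneg p)]
  rw [← hXd] at hX ⊢
  have z30 : 0 < Z ^ 29 := by positivity
  have c1 : ∀ p ∈ W1, Nat.Coprime p (v * q) := fun p hp =>
    cop' p (w1 p hp).1 (by linarith [(w1 p hp).2.1])
  have c2 : ∀ p ∈ W2, Nat.Coprime p (v * q) := fun p hp =>
    cop' p (hx.W2a p hp).1 (by linarith [(hx.W2a p hp).2.1])
  have hWM : W1 ⊆ Icc 1 ⌊X⌋₊ := fun p hp => mem_Icc.2 ⟨(w1 p hp).1.pos, Nat.le_floor (w1 p hp).2.2⟩
  have l3 : 2 ≤ Λ ^ 3 := le_trans (by linarith) (le_self_pow₀ (by linarith) (by norm_num))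
  have l4 : (Λ ^ 3)⁻¹ ≤ 1 := inv_le_one_of_one_le₀ (by linarith)
  have l5 : Λ ^ 3 ≤ P := ((pow_le_pow_left₀ (by linarith) z1 3).trans
    (pow_le_pow_right₀ (by linarith) (by norm_num))).trans hP
  set a0 := ⌈P⌉₊ - 1 with ha0
  set b0 := ⌊P * (1 + (Λ ^ 3)⁻¹)⌋₊ with hb0
  have ca : 1 ≤ ⌈P⌉₊ := Nat.ceil_pos.2 hP0
  have a01 : P ≤ (a0 : ℝ) + 1 := by
    rw [ha0, Nat.cast_sub ca, Nat.cast_one, sub_add_cancel]; exact Nat.le_ceil P
  have b01 : (b0 : ℝ) ≤ P * (1 + (Λ ^ 3)⁻¹) := Nat.floor_le (by positivity)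
  have hI0 : W2 ⊆ Ioc a0 b0 := fun p hp => by
    have := Nat.ceil_le.2 (hx.W2a p hp).2.1
    exact mem_Ioc.2 ⟨by omega, Nat.le_floor (hx.W2a p hp).2.2.1⟩
  have hab : a0 ≤ b0 := by have := mem_Ioc.1 (hI0 hn0); omega
  obtain ⟨N, hN⟩ : ∃ N : ℝ, N = (b0 : ℝ) - a0 := ⟨_, rfl⟩
  have hN0 : 0 ≤ N := hN ▸ sub_nonneg.2 (Nat.cast_le.2 hab)
  have hN1 : N * Λ ^ 3 ≤ 2 * P := by
    have : N ≤ P * (Λ ^ 3)⁻¹ + 1 := by linarith
    have := mul_le_mul_of_nonneg_right this (show 0 ≤ Λ ^ 3 by linarith)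
    rw [add_mul, mul_assoc, inv_mul_cancel₀ (by linarith)] at this
    linarith
  have hN2 : N ≤ P := by linarith [mul_le_mul_of_nonneg_left l3 hN0]
  have l6 := mul_le_mul_of_nonneg_left l4 hP0.le
  have cI : ((Ioc a0 b0).card : ℝ) = N := by rw [Nat.card_Ioc, Nat.cast_sub hab, hN]
  have hI : W2 ⊆ (Ioc a0 b0).filter fun n => Nat.Coprime n (v * q) := fun p hp =>
    mem_filter.2 ⟨hI0 hp, c2 p hp⟩
  have r := red hm0 hI E h (h * a / (v * q)) z c1 c2 (by exact_mod_cast hz)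
  obtain ⟨t1', t2'⟩ := hlen p0 (hW hp0) n0 hn0
  have d0 : (0 : ℝ) < (p0 * n0 : ℕ) := by
    exact_mod_cast Nat.mul_pos (w1 p0 hp0).1.pos (hx.W2a n0 hn0).1.pos
  rw [le_div_iff₀ d0] at t1'
  rw [div_le_iff₀ d0] at t2'
  have hT0 : 0 < T := lt_of_lt_of_le (by positivity) t1'
  push_cast at t1' t2'
  have T1 : T ≤ 6 * L * X * P := by
    have := mul_le_mul (w1 p0 hp0).2.2 (show (n0 : ℝ) ≤ 2 * P by linarith [(hx.W2a n0 hn0).2.2.1])
      (Nat.cast_nonneg _) hX0.le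
    linarith [mul_le_mul_of_nonneg_left this hL0.le]
  have T2 : L * X * P ≤ 3 * T := by
    have := mul_le_mul (w1 p0 hp0).2.1 (hx.W2a n0 hn0).2.1 hP0.le (by positivity)
    linarith [mul_le_mul_of_nonneg_left this hL0.le]
  have K := fun p p' : ℕ => ks (v * q) a0 b0 (h * E * (Nat.gcdA p (v * q) - Nat.gcdA p' (v * q)))
    (h * a / (v * q) * ((p : ℝ)⁻¹ - (p' : ℝ)⁻¹)) P
    (fun n => h * E * (Nat.gcdA p (v * q) - Nat.gcdA p' (v * q)) * Nat.gcdA n (v * q)) hm0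
    (by linarith) a01 hab (by linarith) fun n hn => by
      obtain ⟨k, hk⟩ := (iv_spec hn).mul_left (h * E * (Nat.gcdA p (v * q) - Nat.gcdA p' (v * q)))
      exact ⟨k, by linear_combination hk⟩
  have R : ∀ p ∈ W1, ∀ p' ∈ W1, C * (((v * q : ℕ) : ℝ) + N * (v * q : ℕ) *
      |h * a / (v * q) * ((p : ℝ)⁻¹ - (p' : ℝ)⁻¹)| / P ^ 2) ≤ Z ^ 15 := fun p hp p' hp' => by
    have e1 := th_up hh (ha.trans (mul_le_mul_of_nonneg_left hXi (by positivity))) hv0' hq1 hL0 hw0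
      T1 hX0 hP0 (by linarith) (w1 p hp).2.1 (w1 p' hp').2.1
    have e2 : N * (v * q : ℕ) * |h * a / (v * q) * ((p : ℝ)⁻¹ - (p' : ℝ)⁻¹)| / P ^ 2 ≤
        P * Z ^ 5 * (18 * Z ^ 5 * P * Z ^ 3) / P ^ 2 := by
      gcongr
      exact e1.trans (by gcongr)
    rw [show P * Z ^ 5 * (18 * Z ^ 5 * P * Z ^ 3) / P ^ 2 = 18 * Z ^ 13 by field_simp] at e2
    have e3 : Z ^ 5 ≤ Z ^ 13 := pow_le_pow_right₀ (by linarith) (by norm_num)
    have e4 : 19 * Z ^ 13 ≤ Z ^ 14 := by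
      rw [pow_succ' Z 13]; exact mul_le_mul_of_nonneg_right hZ (by positivity)
    exact (mul_le_mul (show C ≤ Z by linarith) (show _ ≤ Z ^ 14 by linarith) (by positivity)
      (by linarith)).trans (le_of_eq (by ring))
  have e0 : ∑ p1 ∈ W1, ∑ p2 ∈ W2, ee ((h : ℝ) * z p1 p2 / (((v : ℤ) : ℝ) * q) +
      (h : ℝ) * a / (((v : ℤ) : ℝ) * q * (p1 * p2))) = ∑ p1 ∈ W1, ∑ p2 ∈ W2,
      ee ((h : ℝ) * z p1 p2 / (v * q : ℕ) + h * a / (v * q) / (p1 * p2)) := by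
    simp only [div_div, Int.cast_natCast, Nat.cast_mul]
  rw [e0]
  refine (pow_le_pow_iff_left₀ (norm_nonneg _) (by positivity) two_ne_zero).1 ?_
  have main := fun (f : ℕ → ℝ) hf h2 (hF : 4 * N * (∑ r ∈ Icc 1 ⌊X⌋₊, f r) * w ^ 6 ≤ X * P ^ 2) =>
    fin (r.trans (mul_le_mul_of_nonneg_left (sum_pairs hWM _ f hf hN0 (show 0 ≤ Z ^ 15 by positivity)
      (Nat.floor_le hX0.le) (fun p _ => (norm_sum_le _ _).trans (by
        simp only [norm_ee, sum_const, nsmul_eq_mul, mul_one, ← cI]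
        exact Nat.cast_le.2 (card_filter_le _ _))) h2) (Nat.cast_nonneg _)))
      (cI ▸ Nat.cast_le.2 (card_le_card hI0)) (Nat.cast_nonneg _) hN2 hw0 hwZ (by linarith) hP hX
      (sum_nonneg fun r _ => hf r) hF
  rcases hcase with hc | hc
  · have lm : 1 + Real.log (v * q : ℕ) ≤ 6 * Λ := by
      have := Real.log_le_log (by exact_mod_cast hm0) hm
      rw [Real.log_pow] at this
      push_cast at this ⊢
      linarith
    have lm0 : 0 ≤ 1 + Real.log (v * q : ℕ) := by linarith [Real.log_natCast_nonneg (v * q)]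
    refine main (fun r => C * (w ^ 4 * (6 * Λ) * N / v) * Nat.gcd r v) (fun r => by positivity)
      (fun p hp p' hp' _ => (K p p').1.trans ?_) ?_
    · have e1 := gcd_le hq0 hv0 hE hh0 (c1 p hp) (c1 p' hp')
      have e2 := mul_le_mul (mul_le_mul (e1.trans (div_le_div_of_nonneg_right
        (mul_le_mul_of_nonneg_right hh (Nat.cast_nonneg _)) hv0'.le)) lm lm0 (by positivity))
        (le_refl N) hN0 (by positivity)
      have e3 := mul_le_mul_of_nonneg_left e2 hC.le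
      rw [← hN, add_assoc, mul_add]
      exact add_le_add (e3.trans (le_of_eq (by ring))) (R p hp p' hp')
    · rw [← mul_sum]
      have e1 := (gcd_sum ⌊X⌋₊ hv0.ne').trans (mul_le_mul (Nat.floor_le hX0.le) (dv v hv0.ne')
        (Nat.cast_nonneg _) hX0.le)
      rw [← Real.sqrt_eq_rpow] at e1
      have e2 : w ^ 10 ≤ √v := Real.le_sqrt_of_sq_le (by rw [← pow_mul]; exact hc)
      have e3 := Real.mul_self_sqrt hv0'.le
      have e4 : 0 < √v := Real.sqrt_pos.2 hv0'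
      generalize √v = s at e1 e2 e3 e4
      have e5 : 96 * C * C' ≤ Λ ^ 5 := le_trans (by linarith) (le_self_pow₀ (by linarith) (by norm_num))
      have e6 : (N * Λ ^ 3) ^ 2 ≤ (2 * P) ^ 2 := pow_le_pow_left₀ (by positivity) hN1 2
      calc 4 * N * (C * (w ^ 4 * (6 * Λ) * N / v) * ∑ r ∈ Icc 1 ⌊X⌋₊, (Nat.gcd r v : ℝ)) * w ^ 6
          ≤ 4 * N * (C * (w ^ 4 * (6 * Λ) * N / v) * (X * (C' * s))) * w ^ 6 := by gcongr
        _ = X * (96 * C * C' * Λ * N ^ 2 / 4) * (w ^ 10 / s) := by rw [← e3]; field_simp; ring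
        _ ≤ X * (Λ ^ 5 * Λ * N ^ 2 / 4) * 1 := by gcongr; exact (div_le_one e4).2 e2
        _ ≤ X * P ^ 2 := by linarith [mul_le_mul_of_nonneg_left e6 hX0.le]
  · refine main (fun r => C * (3 * P * X / w ^ 19) * (r : ℝ)⁻¹) (fun r => by positivity)
      (fun p hp p' hp' hne => ?_) ?_
    · have e1 := th_low (show 1 ≤ |(h : ℝ)| by exact_mod_cast Int.one_le_abs hh0) hc hv0' hq0' hq2
        hw0 T2 hX0 hP0 (by exact_mod_cast (w1 p hp).1.pos) (by exact_mod_cast (w1 p' hp').1.pos)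
        (w1 p hp).2.2 (w1 p' hp').2.2
      have e2 : 0 < |(p : ℝ) - p'| := abs_pos.2 (sub_ne_zero.2 (by exact_mod_cast hne.symm))
      have e3 := lt_of_lt_of_le (by positivity) e1
      refine ((K p p').2 (abs_pos.1 e3)).trans ?_
      rw [← hN, add_assoc, mul_add]
      refine add_le_add ?_ (R p hp p' hp')
      refine (mul_le_mul_of_nonneg_left (div_le_div_of_nonneg_left (sq_nonneg P) (by positivity) e1)
        hC.le).trans (le_of_eq ?_)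
      rw [Nat.cast_natAbs]
      push_cast
      field_simp
    · rw [← mul_sum]
      have e1 : ∑ r ∈ Icc 1 ⌊X⌋₊, (r : ℝ)⁻¹ ≤ 2 * Λ := by
        have f1 := Real.log_le_log (by exact_mod_cast (mem_Icc.1 (hWM hp0)).1.trans (mem_Icc.1
          (hWM hp0)).2) (Nat.floor_le hX0.le)
        rw [hXd, Real.log_exp, ← hXd] at f1
        linarith [inv_sum ⌊X⌋₊, hx.t1b]
      have e2 : Λ ^ 2 ≤ w := (pow_le_pow_right₀ (by linarith) (by norm_num)).trans hΛw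
      have e3 : w ≤ w ^ 13 := le_self_pow₀ ((one_le_pow₀ (by linarith)).trans e2) (by norm_num)
      calc 4 * N * (C * (3 * P * X / w ^ 19) * ∑ r ∈ Icc 1 ⌊X⌋₊, (r : ℝ)⁻¹) * w ^ 6
          ≤ 4 * P * (C * (3 * P * X / w ^ 19) * (2 * Λ)) * w ^ 6 := by gcongr
        _ = X * P ^ 2 * (24 * C * Λ / w ^ 13) := by field_simp; ring
        _ ≤ X * P ^ 2 * 1 := by
          gcongr
          rw [div_le_one (by positivity)]
          linarith [mul_le_mul_of_nonneg_right (show 24 * C ≤ Λ by linarith) (show 0 ≤ Λ by linarith)]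
        _ = _ := mul_one _

end Pool.Agent.P.MP_26a8c3_nt.ED
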