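import Pool.Agent.P.MP_26a8c3_nt.ED.Defs
import Pool.Agent.P.MP_26a8c3_nt.EC.Box

/-! The saving over the good stopping nodes. -/

namespace Pool.Agent.P.MP_26a8c3_nt.ED

open Finset EC EC.Box
open scoped Classical

lemma numK : ∃ Λ0 : ℝ, ∀ (Λ : ℝ) (μ : ℕ), Λ0 ≤ Λ → (μ : ℝ) ≤ Real.log Λ ^ 2 / 44000 →
    ∃ k : ℕ, 88 * (μ : ℝ) ≤ k * Real.log Λ ∧ (3 : ℝ) ^ k ≤ Λ ^ (1 / 200 : ℝ) ∧
      (3 : ℝ) ^ k * (43 * μ) ≤ Λ / 2 := by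
  obtain ⟨Λ0, h⟩ := Filter.eventually_atTop.1 ((evl 1 2 (show (0 : ℝ) < 199 / 200 by norm_num)).and
    ((Real.tendsto_log_atTop.eventually_ge_atTop 500).and (Filter.eventually_gt_atTop 0)))
  refine ⟨Λ0, fun Λ μ hΛ h1 => ?_⟩
  obtain ⟨a1, a2, a3⟩ := h Λ hΛ
  have b1 := Nat.lt_floor_add_one (Real.log Λ / 250)
  have b2 : (⌊Real.log Λ / 250⌋₊ : ℝ) ≤ Real.log Λ / 250 := Nat.floor_le (by linarith)
  generalize ⌊Real.log Λ / 250⌋₊ = k at b1 b2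
  have b3 : (3 : ℝ) ^ k ≤ Λ ^ (1 / 200 : ℝ) := by
    have c1 : (3 : ℝ) ≤ Real.exp (5 / 4) := by
      have := Real.add_one_le_exp (1 / 4 : ℝ)
      rw [show (5 / 4 : ℝ) = 1 + 1 / 4 by norm_num, Real.exp_add]
      nlinarith [Real.exp_one_gt_d9]
    refine (pow_le_pow_left₀ (by norm_num) c1 k).trans ?_
    rw [← Real.exp_nat_mul, Real.rpow_def_of_pos a3]
    exact Real.exp_le_exp.2 (by linarith)
  refine ⟨k, by nlinarith, b3, ?_⟩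
  have e : Λ = Λ ^ (1 / 200 : ℝ) * Λ ^ (199 / 200 : ℝ) := by
    rw [← Real.rpow_add a3]; norm_num
  calc (3 : ℝ) ^ k * (43 * μ) ≤ Λ ^ (1 / 200 : ℝ) * (Λ ^ (199 / 200 : ℝ) / 2) := by
        gcongr
        nlinarith [sq_nonneg (Real.log Λ)]
    _ = Λ / 2 := by rw [← mul_div_assoc, ← e]

theorem qBox (hSel : S_Sel) (hInv : S_Inv) (hFib : S_Fib) (hDec : S_Dec) (hBox1 : T_Box1) :
    T_Box := by
  obtain ⟨u1, h⟩ := hBox1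
  refine ⟨u1, fun u hu => ?_⟩
  obtain ⟨δ, B0, hδ0, hδ1, Λ0, h⟩ := h u hu
  obtain ⟨Λ1, hk⟩ := numK
  obtain ⟨N0, hN0⟩ := thr 16 (max Λ0 Λ1)
  refine ⟨δ, max B0 17, hδ0, hδ1, N0, fun N μ A hN hμ1 hμ2 => ?_⟩
  obtain ⟨n1, n2, n3, n4, n5⟩ := hN0 N hN
  obtain ⟨n2, n6⟩ := max_le_iff.1 n2
  obtain ⟨k, k1, k2, m4⟩ := hk _ μ n6 hμ2
  have l0 : 0 ≤ Real.log (Real.log N) := by linarith
  have m1 : B0 * Real.log (Real.log N) ≤ μ :=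
    (mul_le_mul_of_nonneg_right (le_max_left _ _) l0).trans hμ1
  have m2 : 17 * Real.log (Real.log N) ≤ μ :=
    (mul_le_mul_of_nonneg_right (le_max_right _ _) l0).trans hμ1
  have m6 : 6 * Real.log (Real.log N) ≤ Real.log N := by linarith
  have b3 : (DL N : ℝ) ≤ Real.log N - 6 * Real.log (Real.log N) := Nat.floor_le (by linarith)
  have b4 : Real.log N - 6 * Real.log (Real.log N) < (DL N : ℝ) + 1 := Nat.lt_floor_add_one _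
  have m7 : 3 ^ k * (43 * μ) < DL N := by
    have : ((3 ^ k * (43 * μ) : ℕ) : ℝ) < DL N := by
      push_cast
      linarith
    exact_mod_cast this
  have hlen := fun s => len (u := u) (Z := ZZ N) (s := s) n1 n4 m6 m2
  generalize Real.log (N : ℝ) = Λ at *
  generalize DL N = Δ at *
  generalize ZZ N = Z at *
  have hF := one_le_FF n3
  have hw := fw_disjoint (FF Λ)
  refine hFib Λ u Z Δ μ _ n3 fun s hs => ?_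
  obtain ⟨a1, a2, a3, a4, -, a6, a7, ⟨-, g2, g3, g4⟩, a9⟩ := mem_SG hs
  obtain ⟨e, e1, e2, e3, e4, e5, e6⟩ := hDec k Δ (43 * μ) s a2 a3 a4 m7
  have e7 : e ⊆ rest s := fun p hp => mem_erase.2 ⟨fun a => e3 (a ▸ hp), e1 hp⟩
  obtain ⟨ω0, ω1, ω2, o1, o2, o3, o4, o5, o6, o7⟩ := split g3 e7 e2 e5 e4
  have hI := hInv Λ u Z Δ μ n3 s hs
  obtain ⟨s1, s2, -⟩ := hSel _ hw
  rw [o1] at hI ⊢
  have t1 : (tau (top s) : ℝ) ≤ Λ := by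
    have h1 : ((3 * tau (top s) : ℕ) : ℝ) ≤ Δ := by exact_mod_cast tree_top a2 (top_mem a7)
    push_cast at h1
    have h2 : (0 : ℝ) ≤ tau (top s) := Nat.cast_nonneg _
    linarith
  have a10 : tau (top (rest s)) < tau (top s) := a9
  generalize tau (top s) = t at hI t1 a10 ⊢
  have E : ∀ g : Finset ℕ → ℝ,
      ∑ ρ ∈ Sel (fw (FF Λ)) (ω0 ∪ ({fi (FF Λ) (top (rest s))} ∪ (ω1 ∪ ω2))), g ρ =
      ∑ ρ0 ∈ Sel (fw (FF Λ)) ω0, ∑ p2 ∈ fw (FF Λ) (fi (FF Λ) (top (rest s))),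
        ∑ ρ1 ∈ Sel (fw (FF Λ)) ω1, ∑ ρ2 ∈ Sel (fw (FF Λ)) ω2, g (ρ0 ∪ ({p2} ∪ (ρ1 ∪ ρ2))) := by
    intro g
    rw [s1 _ _ _ o7]
    refine sum_congr rfl fun ρ0 _ => ?_
    rw [s1 _ _ _ o6, s2]
    exact sum_congr rfl fun p2 _ => s1 _ _ _ o5
  rw [sum_congr rfl fun p1 _ => E _, sum_comm]
  refine sum_nonpos fun ρ0 h0 => ?_
  have key : ∀ p1 ∈ PR t t, ∀ p2 ∈ fw (FF Λ) (fi (FF Λ) (top (rest s))),
      ∀ ρ1 ∈ Sel (fw (FF Λ)) ω1, ∀ ρ2 ∈ Sel (fw (FF Λ)) ω2,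
      insert p1 (ρ0 ∪ ({p2} ∪ (ρ1 ∪ ρ2))) ∈ SG Λ u Z Δ μ ∧
        pv (insert p1 (ρ0 ∪ ({p2} ∪ (ρ1 ∪ ρ2)))) = pv ρ0 * (p1 * p2 * (pv ρ1 * pv ρ2)) := by
    intro p1 h1 p2 h2 ρ1 h3 ρ2 h4
    obtain ⟨c1, d1⟩ := sel_union hw o5 h3 h4
    obtain ⟨c2, d2⟩ := sel_union hw o6 (sel_single h2) c1
    obtain ⟨c3, d3⟩ := sel_union hw o7 h0 c2
    obtain ⟨i1, i2, i3, -⟩ := hI p1 h1 _ c3
    have i4 : p1 ∉ ρ0 ∪ ({p2} ∪ (ρ1 ∪ ρ2)) := by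
      rw [← i3, rest, i2]
      exact notMem_erase _ _
    refine ⟨i1, ?_⟩
    rw [pv_insert i4, pv_union d3, pv_union d2, pv_union d1, show pv {p2} = p2 from prod_singleton _ _]
    ring
  have kd : ∀ p1 ∈ PR t t, ∀ p2 ∈ fw (FF Λ) (fi (FF Λ) (top (rest s))),
      ∀ ρ1 ∈ Sel (fw (FF Λ)) ω1, ∀ ρ2 ∈ Sel (fw (FF Λ)) ω2,
      (N : ℝ) / pv ρ0 / ((p1 * p2 * (pv ρ1 * pv ρ2) : ℕ) : ℝ) =
        (N : ℝ) / pv (insert p1 (ρ0 ∪ ({p2} ∪ (ρ1 ∪ ρ2)))) := by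
    intro p1 h1 p2 h2 ρ1 h3 ρ2 h4
    rw [(key p1 h1 p2 h2 ρ1 h3 ρ2 h4).2, div_div, Nat.cast_mul (pv ρ0)]
  refine le_trans ?_ (h Λ (N / pv ρ0) k μ t (fi (FF Λ) (top (rest s))) (A / pv ρ0) ω1 ω2 n2 m1 k1 k2
    o5 o3 o4 t1 ?_ (g4 _ e5) ?_ ?_)
  · refine sum_le_sum fun p1 h1 => sum_le_sum fun p2 h2 => sum_le_sum fun ρ1 h3 =>
      sum_le_sum fun ρ2 h4 => ?_
    obtain ⟨k1, k2⟩ := key p1 h1 p2 h2 ρ1 h3 ρ2 h4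
    obtain ⟨c1, -, -, -, -, c6, c7, -⟩ := mem_SG k1
    rw [kd p1 h1 p2 h2 ρ1 h3 ρ2 h4, Nat.div_div_eq_div_mul, ← k2, Nat.floor_div_eq_div]
    exact sub_le_sub_right (Nat.cast_le.2 (Sf_le c1 c7 c6)) _
  · intro j hj
    rw [o2] at hj
    obtain ⟨p, hp, rfl⟩ := mem_image.1 hj
    refine ⟨g4 p (e7 hp), fun q hq => ?_⟩
    rw [tau_eq_of_fi hF ((mem_fw hF).1 hq).2]
    exact ⟨a6 p (e1 hp), e6 p hp⟩
  · intro q hq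
    rw [tau_eq_of_fi hF ((mem_fw hF).1 hq).2]
    exact ⟨g2, a10⟩
  · intro p1 h1 p2 h2 ρ1 h3 ρ2 h4
    rw [kd p1 h1 p2 h2 ρ1 h3 ρ2 h4]
    exact hlen _ (key p1 h1 p2 h2 ρ1 h3 ρ2 h4).1

end Pool.Agent.P.MP_26a8c3_nt.ED
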