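import Pool.Agent.P.MP_26a8c3_nt.ED.Defs
import Pool.Agent.P.MP_26a8c3_nt.EC.Box1

/-! One box: sampling the fine windows. -/

namespace Pool.Agent.P.MP_26a8c3_nt.ED

open Finset EC EC.Box1
open scoped Classical

lemma numX : ∃ Λ0 : ℝ, ∀ (Λ : ℝ) (k μ : ℕ), Λ0 ≤ Λ → 88 * (μ : ℝ) ≤ k * Real.log Λ →
    (3 : ℝ) ^ k ≤ Λ ^ (1 / 200 : ℝ) → 4 * (k : ℝ) ≤ Λ ∧
    (44 + k * (3 ^ k * 43)) * (μ : ℝ) ≤ Λ ^ (1 / 50 : ℝ) ∧
    2 * (k : ℝ) * (√Λ + 1) * (3 ^ k * (43 * μ)) ≤ Λ ^ (51 / 100 : ℝ) := by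
  obtain ⟨Λ0, h⟩ := Filter.eventually_atTop.1 ((evl 2 3 (show (0 : ℝ) < 1 / 200 by norm_num)).and
    ((evp 4 (show (1 / 200 : ℝ) < 1 by norm_num)).and (Filter.eventually_ge_atTop 3)))
  refine ⟨Λ0, fun Λ k μ hΛ h1 h2 => ?_⟩
  obtain ⟨a1, a2, a3⟩ := h Λ hΛ
  rw [Real.rpow_one] at a2
  have h0 : 0 < Λ := by linarith
  have hl : 1 ≤ Real.log Λ := by
    rw [Real.le_log_iff_exp_le h0]
    linarith [Real.exp_one_lt_d9]
  have k1 : (k : ℝ) ≤ Real.log Λ := by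
    rw [Real.le_log_iff_exp_le h0, ← mul_one (k : ℝ), Real.exp_nat_mul]
    refine (pow_le_pow_left₀ (Real.exp_pos _).le (show _ ≤ (3 : ℝ) by
      linarith [Real.exp_one_lt_d9]) k).trans (h2.trans ?_)
    exact Real.rpow_le_self_of_one_le (by linarith) (by norm_num)
  have e1 : Λ ^ (1 / 50 : ℝ) = (Λ ^ (1 / 200 : ℝ)) ^ 4 := by
    rw [← Real.rpow_natCast, ← Real.rpow_mul h0.le]; norm_num
  have e2 : Λ ^ (51 / 100 : ℝ) = √Λ * (Λ ^ (1 / 200 : ℝ)) ^ 2 := by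
    rw [Real.sqrt_eq_rpow, ← Real.rpow_natCast, ← Real.rpow_mul h0.le, ← Real.rpow_add h0]
    norm_num
  have s1 : 1 ≤ √Λ := Real.one_le_sqrt.2 (by linarith)
  rw [e1, e2]
  generalize Λ ^ (1 / 200 : ℝ) = X at *
  generalize Real.log Λ = l at *
  generalize √Λ = s at *
  have k0 : (0 : ℝ) ≤ k := Nat.cast_nonneg k
  have m0 : (0 : ℝ) ≤ μ := Nat.cast_nonneg μ
  have l3 : l ≤ l ^ 3 := le_self_pow₀ hl (by norm_num)
  have lX : l ≤ X := by linarith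
  have X1 : 1 ≤ X := hl.trans lX
  have m1 : 88 * (μ : ℝ) ≤ l * l := h1.trans (by gcongr)
  refine ⟨by linarith, ?_, ?_⟩
  · have b1 : (k : ℝ) * (3 ^ k * 43) ≤ X * (X * 43) := by gcongr; linarith
    have b2 : 88 * (μ : ℝ) ≤ X * X := m1.trans (by gcongr)
    have b3 : 1 ≤ X * X := one_le_mul_of_one_le_of_one_le X1 X1
    calc (44 + k * (3 ^ k * 43)) * (μ : ℝ) ≤ (88 * (X * X)) * (X * X / 88) := by
          gcongr <;> linarith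
      _ = _ := by ring
  · calc 2 * (k : ℝ) * (s + 1) * (3 ^ k * (43 * μ)) ≤ 2 * l * (2 * s) * (X * (l * l / 2)) := by
          gcongr <;> linarith
      _ = s * X * (2 * l ^ 3) := by ring
      _ ≤ s * X * X := by gcongr
      _ = _ := by ring

theorem qBox1 (hSel : S_Sel) (hKP : T_KP) : T_Box1 := by
  obtain ⟨u1, hKP⟩ := hKP
  refine ⟨u1, fun u hu => ?_⟩
  obtain ⟨δ, th, hδ0, hδ1, hth0, hth1, Λ1, hKP⟩ := hKP u hu
  obtain ⟨Λ2, hnum⟩ := numX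
  refine ⟨δ, 2 / th, hδ0, hδ1, max (max Λ1 Λ2) 4,
    fun Λ T k μ t1 j2 A ω1 ω2 hΛ hμ0 hμ1 hk hd hc1 hc2 ht1 hω hj2 hj2' hlen => ?_⟩
  have hΛ1 : Λ1 ≤ Λ := le_trans (le_trans (le_max_left _ _) (le_max_left _ _)) hΛ
  have hΛ2 : Λ2 ≤ Λ := le_trans (le_trans (le_max_right _ _) (le_max_left _ _)) hΛ
  have hΛ4 : 4 ≤ Λ := le_trans (le_max_right _ _) hΛ
  obtain ⟨hΛk, hn2, hn3⟩ := hnum Λ k μ hΛ2 hμ1 hk
  have h0 : 0 < Λ := by linarith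
  have hl : 1 ≤ Real.log Λ := by
    rw [Real.le_log_iff_exp_le h0]
    linarith [Real.exp_one_lt_d9]
  have hB0 : 2000 ≤ 2 / th := by
    rw [le_div_iff₀ hth0]
    linarith
  have hμ2 : 2000 * Real.log Λ ≤ μ := le_trans (by gcongr) hμ0
  have hμ3 : (1 : ℝ) ≤ μ := by linarith
  have hμ4 : 1 ≤ μ := by exact_mod_cast hμ3
  obtain ⟨B, hB⟩ : ∃ B : ℝ, B * Real.log Λ = μ := ⟨μ / Real.log Λ, by field_simp⟩
  have hSm : Sm ((44 + k * (3 ^ k * 43)) * B) Λ := by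
    rw [Sm, mul_assoc, hB]
    exact hn2
  have hF := one_le_FF (Λ := Λ) (by linarith)
  have hw := fw_disjoint (FF Λ)
  by_contra hpos
  rw [not_le] at hpos
  set g : ℕ → ℕ → ℕ → ℝ := fun p1 p2 e =>
    ((cop (pv (PR u (28 * μ - 1))) (A / (p1 * p2 * e))
      (A / (p1 * p2 * e) + ⌊T / ((p1 * p2 * e : ℕ) : ℝ)⌋₊ + 1) : ℝ) -
      (2 - δ) * (T / ((p1 * p2 * e : ℕ) : ℝ)) /
        (V0 u * (Real.log (T / ((p1 * p2 * e : ℕ) : ℝ)) - 2))) with hg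
  have hpos1 : 0 < ∑ ρ ∈ Sel (fw (FF Λ)) (ω1 ∪ ω2), ∑ p1 ∈ PR t1 t1, ∑ p2 ∈ fw (FF Λ) j2,
      g p1 p2 (pv ρ) := by
    rw [split hSel hw hd]
    exact hpos
  have hn1 : 1 ≤ ⌈√Λ⌉₊ := Nat.ceil_pos.2 (Real.sqrt_pos.2 h0)
  obtain ⟨w', hs, hcard, hpos2⟩ := (hSel _ hw).2.2.2.2 (ω1 ∪ ω2) ⌈√Λ⌉₊ _ hn1
    (fun j hj => card_win hΛ4 (by linarith) (hω j hj).1 fun p hp =>
      ⟨((mem_fw hF).1 hp).1, ((hω j hj).2 p hp).1⟩) hpos1
  have hw' : ∀ i j, i ≠ j → Disjoint (w' i) (w' j) := fun i j hij =>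
    (hw i j hij).mono (hs i) (hs j)
  rw [split hSel hw' hd] at hpos2
  have hm : ∀ {ω ρ : Finset ℕ}, ρ ∈ Sel w' ω → ρ ∈ Sel (fw (FF Λ)) ω := fun h => Sel_mono hw hs h
  have hpr : ∀ {ω ρ : Finset ℕ}, ρ ∈ Sel w' ω → ∀ p ∈ ρ, p.Prime := fun h => Sel_prime hF (hm h)
  have hinj : ∀ ω : Finset ℕ, Set.InjOn pv (Sel w' ω : Set (Finset ℕ)) := fun ω a ha b hb e =>
    pv_inj (hpr ha) (hpr hb) e
  have hck : ∀ ω ⊆ ω1 ∪ ω2, ω.card = k → ((Sel w' ω).image pv).card = ⌈√Λ⌉₊ ^ k := fun ω a b => by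
    rw [card_image_of_injOn (hinj ω), (hSel w' hw').2.2.1 ω,
      prod_congr rfl fun j hj => hcard j (a hj), prod_const, b]
  obtain ⟨P2, hP0, hP1, hP2, hP3, hP4⟩ := win2 (by linarith) hj2 hj2'
  set R : ℝ := Real.exp (∑ j ∈ ω1, ((j : ℝ) - 1) / FF Λ + ∑ j ∈ ω2, ((j : ℝ) - 1) / FF Λ) with hR
  have hR0 : 0 < R := Real.exp_pos _
  have hRb : ∀ ρ1 ∈ Sel w' ω1, ∀ ρ2 ∈ Sel w' ω2, R ≤ ((pv ρ1 * pv ρ2 : ℕ) : ℝ) ∧
      ((pv ρ1 * pv ρ2 : ℕ) : ℝ) ≤ R * (1 + (Λ ^ 3)⁻¹) := fun ρ1 h1 ρ2 h2 => by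
    have a1 : (0 : ℝ) < pv ρ1 := by exact_mod_cast pv_pos (hpr h1)
    have a2 : (0 : ℝ) < pv ρ2 := by exact_mod_cast pv_pos (hpr h2)
    have b1 := log_sel hSel hF (hm h1)
    have b2 := log_sel hSel hF (hm h2)
    rw [hc1] at b1
    rw [hc2] at b2
    rw [Nat.cast_mul, ← Real.exp_log (mul_pos a1 a2), Real.log_mul a1.ne' a2.ne']
    refine ⟨Real.exp_le_exp.2 (by linarith [b1.1, b2.1]), le_trans ?_ (mul_le_mul_of_nonneg_left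
      (fine (m := 2 * k) (by linarith) (by positivity) (by linarith)) hR0.le)⟩
    rw [hR, ← Real.exp_add, mul_div_assoc]
    exact Real.exp_le_exp.2 (by linarith [b1.2, b2.2])
  obtain ⟨q1, hq1⟩ := ne_of_pos hpos2
  obtain ⟨q2, hq2⟩ : (fw (FF Λ) j2).Nonempty := card_pos.1 (by
    have : (0 : ℝ) < (fw (FF Λ) j2).card := lt_of_lt_of_le (by positivity) hP4
    exact_mod_cast this)
  have hne : ∀ ω ⊆ ω1 ∪ ω2, ω.card = k → (Sel w' ω).Nonempty := fun ω a b =>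
    (card_pos.1 (by rw [hck ω a b]; positivity)).of_image
  obtain ⟨σ1, hσ1⟩ := hne ω1 subset_union_left hc1
  obtain ⟨σ2, hσ2⟩ := hne ω2 subset_union_right hc2
  have hq := hlen q1 hq1 q2 hq2 σ1 (hm hσ1) σ2 (hm hσ2)
  have hT : 0 < T := by
    have := (Real.exp_pos _).trans_le hq.1
    exact (div_pos_iff_of_pos_right (by
      have := (mem_PR.1 hq1).1.pos
      have := (hP3 q2 hq2).1.pos
      have := pv_pos (hpr hσ1)
      have := pv_pos (hpr hσ2)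
      positivity)).1 this
  set L : ℝ := T / (Real.exp t1 * (P2 * (1 + (Λ ^ 3)⁻¹)) * (R * (1 + (Λ ^ 3)⁻¹))) with hL
  have hL0 : 0 < L := by positivity
  have hLb : ∀ p1 ∈ PR t1 t1, ∀ p2 ∈ fw (FF Λ) j2, ∀ ρ1 ∈ Sel w' ω1, ∀ ρ2 ∈ Sel w' ω2,
      L ≤ T / ((p1 * p2 * (pv ρ1 * pv ρ2) : ℕ) : ℝ) ∧
        T / ((p1 * p2 * (pv ρ1 * pv ρ2) : ℕ) : ℝ) ≤ 3 * L := fun p1 a1 p2 a2 ρ1 h1 ρ2 h2 => by
    obtain ⟨b1, b2, b3⟩ := mem_PR.1 a1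
    have c1 := exp_tau_lt b1.pos
    have c2 := le_exp_tau p1
    rw [le_antisymm b3 b2] at c1 c2
    rw [Nat.cast_mul, Nat.cast_mul p1 p2]
    exact len_aux hΛ4 hT hP0 hR0 c1.le c2 (hP3 p2 a2).2.1 (hP3 p2 a2).2.2.1
      (hRb ρ1 h1 ρ2 h2).1 (hRb ρ1 h1 ρ2 h2).2
  have hq' := hLb q1 hq1 q2 hq2 σ1 hσ1 σ2 hσ2
  have hL1 : L ≤ Real.exp (44 * μ) := hq'.1.trans hq.2
  have hL2 : Real.exp (36 * μ) ≤ L := by
    have a : Real.exp (37 * μ) = Real.exp (36 * μ) * Real.exp μ := by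
      rw [← Real.exp_add]
      congr 1
      ring
    have b : 3 ≤ Real.exp μ := by linarith [Real.add_one_le_exp (μ : ℝ)]
    have c := hq.1.trans hq'.2
    have d := Real.exp_pos (36 * (μ : ℝ))
    rw [a] at c
    nlinarith
  have hk0 : (0 : ℝ) ≤ k * (3 ^ k * 43) := by positivity
  have hCx : Cx th ((44 + k * (3 ^ k * 43)) * B) Λ L P2 t1 (fw (FF Λ) j2) := by
    refine ⟨hth0, hth1, le_trans (Real.one_le_exp (by positivity)) hL2, ?_,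
      hL1.trans (exp_le_rpow h0 (by rw [hB]; nlinarith)), hP1, ht1, hP2, hP3, hP4⟩
    have e : Λ ^ 40 = Real.exp (40 * Real.log Λ) := by
      rw [show (40 : ℝ) = (40 : ℕ) by norm_num, Real.exp_nat_mul, Real.exp_log h0]
    have a : 36 * (μ : ℝ) ≤ Real.log L := (Real.le_log_iff_exp_le hL0).2 hL2
    have b : 2 * Real.log Λ ≤ μ * th := by
      have := mul_le_mul_of_nonneg_right hμ0 hth0.le
      rwa [mul_right_comm, div_mul_cancel₀ _ hth0.ne'] at this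
    rw [e, Real.rpow_def_of_pos hL0]
    refine Real.exp_le_exp.2 ?_
    nlinarith
  have hEa : ∀ ω ⊆ ω1 ∪ ω2, ω.card = k → ∀ e ∈ (Sel w' ω).image pv,
      0 < e ∧ (e : ℝ) ≤ Λ ^ ((44 + k * (3 ^ k * 43)) * B) ∧ Nat.Coprime e (PP u L) := by
    intro ω a b e he
    obtain ⟨ρ, hρ, rfl⟩ := mem_image.1 he
    have c0 := pv_pos (hpr hρ)
    refine ⟨c0, ?_, (coprime_pv PPs_prime _).2 fun p hp hdv => ?_⟩
    · have c1 := log_sel' hSel hF (hm hρ) fun j hj p hp => ((hω j (a hj)).2 p hp).2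
      rw [b, Real.log_le_iff_le_exp (by exact_mod_cast c0)] at c1
      refine c1.trans (exp_le_rpow h0 ?_)
      rw [hB]
      push_cast
      nlinarith
    · have c1 := (prime_dvd_pv (hpr hρ) (PPs_prime p hp)).1 hdv
      obtain ⟨j, hj, hpj⟩ := ex_win (hm hρ) c1
      have c2 := ((hω j (a hj)).2 p hpj).1
      have c3 := (mem_PR.1 (PPs_sub hμ4 hL0 hL1 hp)).2.2
      omega
  have hEc : ∀ ω ⊆ ω1 ∪ ω2, ω.card = k → L ≤ (((Sel w' ω).image pv).card : ℝ) := fun ω a b => by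
    rw [hck ω a b, Nat.cast_pow]
    refine hL1.trans (le_trans ?_ (pow_le_pow_left₀ (Real.sqrt_nonneg Λ) (Nat.le_ceil _) k))
    rw [Real.sqrt_eq_rpow, ← Real.rpow_natCast, ← Real.rpow_mul h0.le, Real.rpow_def_of_pos h0]
    refine Real.exp_le_exp.2 ?_
    linarith
  have hMp : ∀ p ∈ (ω1 ∪ ω2).biUnion w', p.Prime ∧ tau p ≤ 3 ^ k * (43 * μ) := fun p hp => by
    obtain ⟨j, hj, hpj⟩ := mem_biUnion.1 hp
    exact ⟨((mem_fw hF).1 (hs j hpj)).1, ((hω j hj).2 p (hs j hpj)).2⟩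
  have hM0 := pv_pos fun p hp => (hMp p hp).1
  have hSx : Sx u ((44 + k * (3 ^ k * 43)) * B) Λ L T R t1 (pv ((ω1 ∪ ω2).biUnion w'))
      (fw (FF Λ) j2) ((Sel w' ω1).image pv) ((Sel w' ω2).image pv) := by
    refine ⟨fun e he => ?_, hEc ω1 subset_union_left hc1, hEc ω2 subset_union_right hc2,
      fun e1 i1 e2 i2 => ?_, hM0, ?_, fun p1 a1 p2 a2 e1 i1 e2 i2 => ?_⟩
    · rcases mem_union.1 he with he | he
      · exact hEa ω1 subset_union_left hc1 e he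
      · exact hEa ω2 subset_union_right hc2 e he
    · obtain ⟨ρ1, h1, rfl⟩ := mem_image.1 i1
      obtain ⟨ρ2, h2, rfl⟩ := mem_image.1 i2
      refine ⟨?_, hRb ρ1 h1 ρ2 h2⟩
      rw [← pv_union (Sel_disj hw' hd h1 h2)]
      refine prod_dvd_prod_of_subset _ _ _ (union_subset ?_ ?_)
      · exact (mem_Sel.1 h1).1.trans (biUnion_subset_biUnion_of_subset_left _ subset_union_left)
      · exact (mem_Sel.1 h2).1.trans (biUnion_subset_biUnion_of_subset_left _ subset_union_right)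
    · rw [← Real.log_le_iff_le_exp (by exact_mod_cast hM0)]
      refine (log_pv_le fun p hp => (hMp p hp).1).trans (le_trans ?_ hn3)
      have a : ts ((ω1 ∪ ω2).biUnion w') ≤ ((ω1 ∪ ω2).biUnion w').card * (3 ^ k * (43 * μ)) :=
        sum_le_card_nsmul _ _ _ fun p hp => (hMp p hp).2
      have b : ((ω1 ∪ ω2).biUnion w').card ≤ 2 * k * ⌈√Λ⌉₊ := by
        refine card_biUnion_le.trans (le_of_eq ?_)
        rw [sum_congr rfl hcard, sum_const, card_union_of_disjoint hd, hc1, hc2, smul_eq_mul, two_mul]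
      have c : (ts ((ω1 ∪ ω2).biUnion w') : ℝ) ≤ 2 * k * ⌈√Λ⌉₊ * (3 ^ k * (43 * μ)) := by
        exact_mod_cast a.trans (Nat.mul_le_mul_right _ b)
      have d : (⌈√Λ⌉₊ : ℝ) ≤ √Λ + 1 := (Nat.ceil_lt_add_one (Real.sqrt_nonneg Λ)).le
      exact c.trans (by gcongr)
    · obtain ⟨ρ1, h1, rfl⟩ := mem_image.1 i1
      obtain ⟨ρ2, h2, rfl⟩ := mem_image.1 i2
      exact hLb p1 a1 p2 a2 ρ1 h1 ρ2 h2
  have hfin := hKP t1 _ A _ Λ L P2 T R _ _ _ hΛ1 hSm hCx hSx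
  simp only [sum_image (hinj ω1), sum_image (hinj ω2)] at hfin
  rw [← sub_nonpos] at hfin
  simp only [mul_sum, ← sum_sub_distrib] at hfin
  refine absurd (lt_of_lt_of_le hpos2 (le_trans ?_ hfin)) (lt_irrefl _)
  refine sum_le_sum fun p1 a1 => sum_le_sum fun p2 a2 => sum_le_sum fun ρ1 h1 =>
    sum_le_sum fun ρ2 h2 => ?_
  exact term_le hμ4 hL0 hL1 hδ1 (hlen p1 a1 p2 a2 ρ1 (hm h1) ρ2 (hm h2)).1
    (hLb p1 a1 p2 a2 ρ1 h1 ρ2 h2).2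

end Pool.Agent.P.MP_26a8c3_nt.ED
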