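import Pool.Agent.P.MP_26a8c3_nt.ED.Defs
import Pool.Agent.P.MP_26a8c3_nt.EC.CaseA

/-! The case of a point of large height. -/

namespace Pool.Agent.P.MP_26a8c3_nt.ED

open Finset EC
open scoped Classical

theorem qCaseA (hPi : S_Pi) (hBil : T_Bil) : T_CaseA := by
  intro u th _ hSv
  obtain ⟨L0, hL0⟩ := hSv
  obtain ⟨C, hC1, -, -, -, hC⟩ := pi_facts hPi
  obtain ⟨Λb, hb⟩ := hBil th
  obtain ⟨Λ0, hl⟩ := CaseA.large 0 (max (max (2 * C) L0) (max Λb (200 / th)))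
  refine ⟨Λ0, fun t1 A B Λ L P2 T W2 a v hΛ hB hx hlen hav hv1 hv2 ha hcase => ?_⟩
  obtain ⟨n1, n2, -, n4⟩ := hl Λ hΛ
  simp only [max_le_iff] at n1 n2
  have h0 := hx.th0
  have h1 := hx.th1
  have hL1 := hx.L0
  have hL : 0 < L := by linarith
  have hth : 200 ≤ th * Λ := by
    have := n1.2.2
    rw [div_le_iff₀ h0] at this
    linarith
  have l1 : 1 ≤ Λ := by nlinarith
  have l2 : 2 ≤ Λ := by nlinarith
  have l0 : 0 < Λ := by linarith
  have hLL : Λ ≤ L := (le_self_pow₀ l1 (by norm_num)).trans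
    (hx.L1.trans (Real.rpow_le_self_of_one_le hL1 (by linarith)))
  have n3 : B * Real.log Λ < Λ ^ (3 / 5 : ℝ) - 2 := by
    linarith [hB.le (r := 13 / 25) l1 (by norm_num), Real.rpow_nonneg l0.le (13 / 25)]
  have hlog : Real.log L < Λ ^ (3 / 5 : ℝ) - 2 := by
    refine lt_of_le_of_lt ?_ n3
    rw [← Real.log_rpow l0]
    exact Real.log_le_log hL hx.L2
  have hLP : L < P2 := ((Real.log_lt_iff_lt_exp hL).1 hlog).trans_le hx.P2a
  have hP : 0 < P2 := by linarith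
  have hvP : (v : ℝ) < P2 := by
    refine hv2.trans_lt (lt_of_lt_of_le ?_ hx.P2a)
    rw [Xi, ← Real.exp_nat_mul]
    exact Real.exp_lt_exp.2 (by exact_mod_cast n4)
  have hcs : Λ⁻¹ ≤ cs u L := by
    have k1 : 0 < Real.log L := Real.log_pos (by linarith)
    have k2 : Λ ^ (3 / 5 : ℝ) ≤ Λ := Real.rpow_le_self_of_one_le l1 (by norm_num)
    refine inv_anti₀ (mul_pos (V0_pos u) k1) ?_
    exact (mul_le_of_le_one_left k1.le (V0_le_one u)).trans (by linarith)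
  have hcs0 : 0 ≤ cs u L := CaseA.cs_nonneg u hL1
  have ht : 2 * C ≤ (t1 : ℝ) := n2.1.1.trans hx.t1a
  have ht1 : 1 ≤ t1 := by exact_mod_cast (by linarith : (1 : ℝ) ≤ t1)
  have hF := one_le_FF l1
  have hE : IsCoprime (v * A - a) v := by
    have := hav.neg_left.add_mul_left_left (A : ℤ)
    rwa [neg_add_eq_sub] at this
  have hmap : ∀ p ∈ PR t1 t1, fi (FF Λ) p ∈ Ioc (FF Λ * (t1 - 1)) (FF Λ * t1) := fun p hp => by
    obtain ⟨-, b2, b3⟩ := mem_PR.1 hp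
    refine mem_Ioc.2 ⟨lt_of_not_ge fun h => ?_, (tau_le_iff_fi hF).1 b3⟩
    have := (tau_le_iff_fi hF).2 h
    omega
  have hsum := sum_le_sum fun j (_ : j ∈ Ioc (FF Λ * (t1 - 1)) (FF Λ * t1)) =>
    CaseA.group (u := u) (A := A) (a := a) (j := j)
      (W1 := (PR t1 t1).filter fun p => fi (FF Λ) p = j) hx hlen hth hLP hv1 hvP
      (fun Y => hL0 L Y (n1.1.2.trans hLL)) (filter_subset _ _) (fun p hp => (mem_filter.1 hp).2)
      fun q h z g1 g2 g3 g4 g5 => hb t1 q B Λ L P2 T W2 _ a v _ h z n1.2.1 hB hx hlen hE hv1 hv2 ha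
        hcase g1 g2 g3 g4 (filter_subset _ _) g5
  rw [sum_add_distrib, sum_fiberwise_of_maps_to hmap, sum_fiberwise_of_maps_to hmap, sum_const,
    Nat.card_Ioc, ← Nat.mul_sub, Nat.sub_sub_self ht1, mul_one, nsmul_eq_mul] at hsum
  refine hsum.trans ?_
  have hLi : L ^ (1 - th) ≤ L / Λ ^ 40 := by
    rw [Real.rpow_sub hL, Real.rpow_one]
    exact div_le_div_of_nonneg_left hL.le (by positivity) hx.L1
  have hA : ∑ p1 ∈ PR t1 t1, ∑ p2 ∈ W2, ((2 - 3 * th / 8) * cs u L * (T / ((p1 * p2 : ℕ) : ℝ)) +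
      2 * Real.pi * L ^ (7 * th)) ≤
      (2 - 5 * th / 16) * cs u L * ∑ p1 ∈ PR t1 t1, ∑ p2 ∈ W2, T / ((p1 * p2 : ℕ) : ℝ) := by
    simp only [mul_sum]
    refine sum_le_sum fun p1 hp1 => sum_le_sum fun p2 hp2 => ?_
    have k1 : L ^ (7 * th) ≤ L / Λ ^ 2 :=
      (Real.rpow_le_rpow_of_exponent_le hL1 (by linarith)).trans (hLi.trans
        (div_le_div_of_nonneg_left hL.le (by positivity) (pow_le_pow_right₀ l1 (by norm_num))))
    have k2 : Λ⁻¹ * L ≤ cs u L * (T / ((p1 * p2 : ℕ) : ℝ)) :=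
      mul_le_mul hcs (hlen p1 hp1 p2 hp2).1 hL.le hcs0
    have k3 : 2 * Real.pi * (L / Λ ^ 2) ≤ th / 16 * (Λ⁻¹ * L) := by
      have e : th / 16 * (Λ⁻¹ * L) = th * Λ / 16 * (L / Λ ^ 2) := by field_simp
      rw [e]
      exact mul_le_mul_of_nonneg_right (by linarith [Real.pi_le_four]) (by positivity)
    have k4 := mul_le_mul_of_nonneg_left k1 (by positivity : 0 ≤ 2 * Real.pi)
    have k5 := mul_le_mul_of_nonneg_left k2 (by positivity : 0 ≤ th / 16)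
    linarith
  have hS : Real.exp t1 / (6 * Λ) * (P2 * (Λ ^ 9)⁻¹ * L) ≤
      ∑ p1 ∈ PR t1 t1, ∑ p2 ∈ W2, T / ((p1 * p2 : ℕ) : ℝ) := by
    have k1 : Real.exp t1 / (6 * Λ) ≤ (PR t1 t1).card := by
      refine le_trans ?_ (hC t1 ht).2
      have k : Real.exp t1 = Real.exp (t1 - 1) * Real.exp 1 := by
        rw [← Real.exp_add, sub_add_cancel]
      have k0 : (0 : ℝ) < t1 := by linarith
      rw [k, div_le_div_iff₀ (by positivity) (by positivity), mul_assoc]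
      refine mul_le_mul_of_nonneg_left ?_ (Real.exp_pos _).le
      nlinarith [Real.exp_one_lt_d9, hx.t1b]
    refine (mul_le_mul_of_nonneg_right k1 (by positivity)).trans ?_
    rw [← nsmul_eq_mul]
    refine card_nsmul_le_sum _ _ _ fun p1 hp1 => ?_
    refine (mul_le_mul_of_nonneg_right hx.W2b hL.le).trans ?_
    rw [← nsmul_eq_mul]
    exact card_nsmul_le_sum _ _ _ fun p2 hp2 => (hlen p1 hp1 p2 hp2).1
  have hG : (FF Λ : ℝ) * (L ^ (1 - th) * (Real.exp t1 * P2)) ≤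
      th / 16 * (Λ⁻¹ * (Real.exp t1 / (6 * Λ) * (P2 * (Λ ^ 9)⁻¹ * L))) := by
    have k1 : (FF Λ : ℝ) ≤ 2 * Λ ^ 4 := by
      have := Nat.ceil_lt_add_one (by positivity : 0 ≤ Λ ^ 4)
      have k : 1 ≤ Λ ^ 4 := one_le_pow₀ l1
      rw [FF]
      linarith
    have k2 : L ^ (1 - th) ≤ L / Λ ^ 16 := hLi.trans
      (div_le_div_of_nonneg_left hL.le (by positivity) (pow_le_pow_right₀ l1 (by norm_num)))
    calc (FF Λ : ℝ) * (L ^ (1 - th) * (Real.exp t1 * P2))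
        ≤ 2 * Λ ^ 4 * (L / Λ ^ 16 * (Real.exp t1 * P2)) := by gcongr
      _ = 2 * (L * Real.exp t1 * P2 / Λ ^ 12) := by field_simp
      _ ≤ th * Λ / 96 * (L * Real.exp t1 * P2 / Λ ^ 12) :=
          mul_le_mul_of_nonneg_right (by linarith) (by positivity)
      _ = _ := by field_simp; norm_num
  have hH := mul_le_mul_of_nonneg_left (mul_le_mul hcs hS (by positivity) hcs0)
    (by positivity : 0 ≤ th / 16)
  linarith

end Pool.Agent.P.MP_26a8c3_nt.ED
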