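import Pool.Agent.P.MP_26a8c3_nt.ED.Defs
import Pool.Agent.P.MP_26a8c3_nt.EC.CaseA
import Pool.Agent.P.MP_26a8c3_nt.EC.CaseB

/-! The case of a point of small height. -/

namespace Pool.Agent.P.MP_26a8c3_nt.ED

open Finset EC EC.CaseB
open scoped Classical

lemma numErr2 (t L l n1 Mp : ℝ) (ht : 200 ≤ t) (hL : 1 ≤ L) (hl : 0 < l) (hlL : l ≤ L)
    (hMp : Mp ≤ L ^ 2) (hn : Real.exp (t - 1) / (2 * t) ≤ n1) :
    2 * (Mp * (Real.exp t / (t ^ 2 * L ^ 2))) ≤ 1 / 10 * l⁻¹ * (n1 * L) := by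
  have t0 : 0 < t := by linarith
  have n0 : 0 ≤ n1 := le_trans (by positivity) hn
  have h := numErr t 1 1 n1 1 0 ht le_rfl one_pos le_rfl (by norm_num) (by norm_num) hn
  have a1 : Mp * (Real.exp t / (t ^ 2 * L ^ 2)) ≤ 1 * (Real.exp t / t ^ (4 * 0 + 2)) :=
    (mul_le_mul_of_nonneg_right hMp (by positivity)).trans_eq (by field_simp)
  have a7 : 1 ≤ l⁻¹ * L := by
    rw [inv_mul_eq_div, le_div_iff₀ hl]
    linarith
  have a8 : n1 * 1 ≤ n1 * (l⁻¹ * L) := mul_le_mul_of_nonneg_left a7 n0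
  have a9 : 1 / 10 * l⁻¹ * (n1 * L) = 1 / 10 * (n1 * (l⁻¹ * L)) := by ring
  rw [a9]
  rw [inv_one] at h
  linarith

theorem qCaseB (hPi : S_Pi) (hFix : T_Fix) (hHall : S_Hall) (hEul : S_Eul) : T_CaseB := by
  obtain ⟨u1, hEul⟩ := hEul
  obtain ⟨C, hC, -, hlo, -, hcard⟩ := pi_facts hPi
  obtain ⟨M0, hHall⟩ := hHall (1 / 100) (by norm_num)
  refine ⟨max u1 2, fun u hu th => ?_⟩
  obtain ⟨hG, L0, hEul⟩ := hEul u (le_of_max_le_left hu)
  obtain ⟨Λ1, hFix⟩ := hFix (1 / 100) (by norm_num)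
  obtain ⟨Λ0, hΛ0⟩ := CaseA.large 0 (200 + 100 * C + |M0| + |L0| + |Λ1|)
  refine ⟨Λ0, fun t A B Λ L P2 T W2 a v hΛ hB hx hlen hav hv hvL haL => ?_⟩
  obtain ⟨k1, k2, -, k3⟩ := hΛ0 Λ hΛ
  lift v to ℕ using (by omega)
  have hv1 : 1 ≤ v := by exact_mod_cast hv
  have hvr : (1 : ℝ) ≤ v := by exact_mod_cast hv1
  rw [Int.cast_natCast] at hvL haL
  have p1 := abs_nonneg M0
  have p2 := abs_nonneg L0
  have p3 := abs_nonneg Λ1
  have hL1 := hx.L0
  have hth := hx.th0
  have hth1 := hx.th1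
  have L0' : 0 < L := by linarith
  have Λ1' : 1 ≤ Λ := by linarith
  have ht : 200 + 100 * C ≤ (t : ℝ) := by linarith [hx.t1a]
  have t0 : (0 : ℝ) < t := by linarith
  have mono : ∀ x y : ℝ, x ≤ y → L ^ x ≤ L ^ y := fun x y h =>
    Real.rpow_le_rpow_of_exponent_le hL1 h
  have q1 : Λ ^ 2 ≤ L ^ th := (pow_le_pow_right₀ Λ1' (by norm_num)).trans hx.L1
  have q2 : Λ ≤ L ^ th := (le_self_pow₀ Λ1' (by norm_num)).trans q1
  have q3 : Λ ≤ L := q2.trans ((mono th 1 (by linarith)).trans_eq (Real.rpow_one L))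
  have k4 : L < Real.exp (Λ ^ (3 / 5 : ℝ) - 2) :=
    (hx.L2.trans (hB.pow_le (r := 13 / 25) Λ1' (by norm_num))).trans_lt (Real.exp_lt_exp.2
      (by linarith [Real.rpow_nonneg (show 0 ≤ Λ by linarith) (13 / 25)]))
  have l0 : 0 < Real.log L := Real.log_pos (by linarith)
  have l1 : Real.log L ≤ L := (Real.log_le_sub_one_of_pos L0').trans (by linarith)
  have l2 : 30 * Real.log L ≤ L ^ th := by
    have b1 : Real.log L ≤ Λ := by
      rw [Real.log_le_iff_le_exp L0']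
      exact hx.L2.trans ((hB.pow_le (r := 1) Λ1' (by norm_num)).trans_eq (by rw [Real.rpow_one]))
    have b2 : 30 * Λ ≤ Λ * Λ := mul_le_mul_of_nonneg_right (by linarith) (by linarith)
    linarith [sq Λ]
  set M1 : ℝ := L ^ (1 - th) with hM1
  set Mp : ℝ := L ^ (21 / 20 : ℝ) with hMp
  have m1 : Λ ≤ M1 := q2.trans (mono _ _ (by linarith))
  have m2 : M1 * L ^ th = L := by
    rw [hM1, ← Real.rpow_add L0', sub_add_cancel, Real.rpow_one]
  have m3 : Real.log M1 = (1 - th) * Real.log L := Real.log_rpow L0' _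
  have m4 : Mp ≤ L ^ 2 := (mono _ 2 (by norm_num)).trans_eq (Real.rpow_two L)
  have m5 : 0 ≤ Mp := Real.rpow_nonneg L0'.le _
  have m6 : 6 * L * (L ^ (20 * th) * L ^ (20 * th)) ≤ Mp := by
    have b1 : 6 ≤ L ^ th := by linarith
    have b2 : L ^ th * L * (L ^ (20 * th) * L ^ (20 * th)) = L ^ (1 + 41 * th) := by
      rw [show 1 + 41 * th = th + 1 + (20 * th + 20 * th) by ring, Real.rpow_add L0',
        Real.rpow_add L0', Real.rpow_add L0', Real.rpow_one]
    refine le_trans ?_ (b2.le.trans (mono _ _ (by linarith)))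
    exact mul_le_mul_of_nonneg_right (mul_le_mul_of_nonneg_right b1 L0'.le) (by positivity)
  have y1 : 1 ≤ L ^ (20 * th) := Real.one_le_rpow hL1 (by linarith)
  have hE : IsCoprime ((v : ℤ) * A - a) (v : ℤ) := by
    have := (hav.neg_left).add_mul_left_left (A : ℤ)
    rwa [neg_add_eq_sub] at this
  have hc := (hcard t (by linarith)).2
  have hV := V0_pos u
  have cs1 : (Real.log L)⁻¹ ≤ cs u L :=
    inv_anti₀ (by positivity) (mul_le_of_le_one_left l0.le (V0_le_one u))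
  have cs0 : 0 ≤ cs u L := le_trans (by positivity) cs1
  obtain ⟨p0, hp0⟩ : (PR t t).Nonempty :=
    card_pos.1 (Nat.cast_pos.1 (lt_of_lt_of_le (by positivity) hc))
  rw [sum_comm, sum_comm (s := PR t t) (t := W2), mul_sum]
  refine sum_le_sum fun q hq => ?_
  obtain ⟨w1, w2, -, -⟩ := hx.W2a q hq
  have q0 : (0 : ℝ) < q := by exact_mod_cast w1.pos
  have hLq : L < q := by linarith [hx.P2a]
  have hT : 100 ≤ T := by
    have b1 := (hlen p0 hp0 q hq).1
    have b2 : (1 : ℝ) ≤ ((p0 * q : ℕ) : ℝ) := by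
      exact_mod_cast Nat.mul_pos (mem_PR.1 hp0).1.pos w1.pos
    rw [le_div_iff₀ (by linarith)] at b1
    have := mul_le_mul_of_nonneg_left b2 L0'.le
    linarith
  have hvT : 0 ≤ (v : ℝ) * T := by positivity
  have side' : ∀ (α β : ℝ) (s : ℕ → ℤ), (∀ m, (s m).natAbs = m) → 0 ≤ α → α ≤ β → _ :=
    fun α β s hs h0 hab => side u t v q L α β M1 Mp (Real.exp t / ((t : ℝ) ^ 2 * L ^ 2))
      (v * A - a) s hs t0 (by linarith) m5 hab (by positivity)
      (fun m hm => by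
        have := hFix u t v q B Λ L α β (v * A - a) m (le_of_max_le_right hu)
          (by linarith [le_abs_self Λ1]) hB hL1 hx.L2 hx.t1a hv1
          (hvL.trans ((mono _ 1 (by linarith)).trans_eq (Real.rpow_one L))) hE hm w1 hLq hab
        refine le_trans (Nat.cast_le.2 (card_le_card fun p hp => ?_)) this
        exact mem_filter.2 (mem_filter.1 hp))
      (hHall _ (1 / 100) _ α β M1 Mp (by norm_num) (by norm_num) (GM_nonneg u L v _) (hG L v _)
        (Real.exp_pos _) h0 hab (by linarith [le_abs_self M0]))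
      (hEul L Mp v _ (by linarith [le_abs_self L0]) hv1 (hvL.trans (mono _ _ (by linarith))) hE
        le_rfl)
  have s1 := side' (max (a : ℝ) 0 / q) (max ((a : ℝ) + v * T) 0 / q) (fun m => (m : ℤ))
    (fun m => by simp) (by positivity)
    (div_le_div_of_nonneg_right (max_le_max_right _ (by linarith)) q0.le)
  have s2 := side' (max (-(a : ℝ) - v * T - 1) 0 / q) (max (-(a : ℝ)) 0 / q) (fun m => -(m : ℤ))
    (fun m => by simp) (by positivity)
    (div_le_div_of_nonneg_right (max_le_max_right _ (by linarith)) q0.le)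
  have s3 := sum_le_sum (s := PR t t) fun p hp => comb u A p q v ⌊M1⌋₊ L T Mp a hv1
    (mem_PR.1 hp).1.pos w1.pos (by
      have b1 := (hlen p hp q hq).2
      have b2 : (0 : ℝ) < p * q := mul_pos (by exact_mod_cast (mem_PR.1 hp).1.pos) q0
      rw [Nat.cast_mul, div_le_iff₀ b2] at b1
      have b3 : (v : ℝ) * T ≤ L ^ (20 * th) * (3 * L * (p * q)) :=
        mul_le_mul hvL b1 (by linarith) (by linarith)
      have b4 := mul_le_mul_of_nonneg_left y1 hvT
      have b5 := mul_le_mul_of_nonneg_right b3 (zero_le_one.trans y1)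
      have b6 := mul_le_mul_of_nonneg_right m6 b2.le
      linarith)
  rw [sum_add_distrib, sum_add_distrib, sum_const, nsmul_eq_mul] at s3
  set S := ∑ p ∈ PR t t, T / ((p * q : ℕ) : ℝ) with hS
  have S1 : ((PR t t).card : ℝ) * L ≤ S := by
    rw [← nsmul_eq_mul]
    exact card_nsmul_le_sum _ _ _ fun p hp => (hlen p hp q hq).1
  have S2 : T / q * (99 / 100 / t) ≤ S := by
    have e : S = T / q * rc (PR t t) := by
      rw [hS, rc, mul_sum]
      refine sum_congr rfl fun p _ => ?_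
      push_cast
      ring
    rw [e]
    refine mul_le_mul_of_nonneg_left (le_trans ?_ (hlo t (by exact_mod_cast (by linarith : (1 : ℝ) ≤ t))))
      (by positivity)
    refine div_le_div_of_nonneg_right ?_ t0.le
    have : C / t ≤ 1 / 100 := by
      rw [div_le_iff₀ t0]
      linarith
    linarith
  have c0 : (0 : ℝ) ≤ (PR t t).card := Nat.cast_nonneg _
  have S0 : (Real.log L)⁻¹ * (((PR t t).card : ℝ) * L) ≤ cs u L * S :=
    mul_le_mul cs1 S1 (by positivity) cs0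
  have e1 : ((PR t t).card : ℝ) * (2 * (⌊M1⌋₊ : ℝ) + 1) ≤
      1 / 10 * ((Real.log L)⁻¹ * (((PR t t).card : ℝ) * L)) := by
    have b1 : (⌊M1⌋₊ : ℝ) ≤ M1 := Nat.floor_le (by linarith)
    have b2 : 2 * (⌊M1⌋₊ : ℝ) + 1 ≤ 1 / 10 * ((Real.log L)⁻¹ * L) := by
      rw [inv_mul_eq_div, ← mul_div_assoc, le_div_iff₀ l0]
      have b3 := mul_le_mul_of_nonneg_left l2 (by linarith : 0 ≤ M1)
      have b4 : (2 * (⌊M1⌋₊ : ℝ) + 1) * Real.log L ≤ 3 * M1 * Real.log L :=
        mul_le_mul_of_nonneg_right (by linarith) l0.le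
      linarith
    have := mul_le_mul_of_nonneg_left b2 c0
    linarith
  have e2 := numErr2 t L (Real.log L) _ Mp (by linarith) hL1 l0 l1 m4 hc
  have e3 := numMain t (Real.log L) (V0 u) v T q th t0 l0 hV hvr hT q0 hth1
  have e4 : 17 / 10 * (V0 u * Real.log L)⁻¹ * (T / q * (99 / 100 / t)) ≤ 17 / 10 * cs u L * S :=
    mul_le_mul_of_nonneg_left S2 (by positivity)
  rw [m3] at s1 s2
  set K : ℝ := (101 / 100) ^ 3 * (8 / 5) / (t * ((1 - th) * Real.log L) * (v * V0 u)) with hK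
  have K0 : 0 ≤ K := by
    have : 0 < 1 - th := by linarith
    positivity
  have e5 := mul_le_mul_of_nonneg_left (div_le_div_of_nonneg_right (lens a (v * T)) q0.le) K0
  rw [add_div, sub_div, sub_div, mul_add] at e5
  linarith

end Pool.Agent.P.MP_26a8c3_nt.ED
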