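import Pool.Agent.P.MP_26a8c3_nt.ED.Defs
import Pool.Agent.P.MP_26a8c3_nt.EC.Col

/-! The colouring step. -/

namespace Pool.Agent.P.MP_26a8c3_nt.ED

open Finset Filter EC EC.Col
open scoped Classical

lemma numC (ε C : ℝ) (hε : 0 < ε) : ∀ᶠ Λ : ℝ in atTop, 2 ≤ Λ ∧ C ≤ Λ ^ (3 / 5 : ℝ) ∧
    1 ≤ Real.exp (Λ ^ (3 / 5 : ℝ) - 2) * (Λ ^ 9)⁻¹ ∧ ∀ B, Sm B Λ →
    81 * Xi Λ * Λ * Λ ^ B ≤ ε * (Real.exp (Λ ^ (3 / 5 : ℝ) - 2) * (Λ ^ 9)⁻¹) := by
  filter_upwards [num 0 ε C hε, evp 4 (show (13 / 25 : ℝ) < 3 / 5 by norm_num),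
    evl 40 1 (show (0 : ℝ) < 3 / 5 by norm_num),
    (tendsto_rpow_atTop (y := 3 / 5) (by norm_num)).eventually_ge_atTop
      (4 * (2 + Real.log (81 / ε)))] with Λ a1 a2 a3 a4
  refine ⟨a1.1, a1.2.1, a1.2.2.1, fun B hB => ?_⟩
  have h0 : 0 < Λ := by linarith [a1.1]
  have a5 := hB.le (r := 13 / 25) (by linarith [a1.1]) (by norm_num)
  have e9 : Λ ^ 9 = Real.exp (9 * Real.log Λ) := by
    rw [show (9 : ℝ) = (9 : ℕ) by norm_num, Real.exp_nat_mul, Real.exp_log h0]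
  have e1 : 81 * Xi Λ * Λ * Λ ^ B = ε * Real.exp (Real.log (81 / ε) + Λ ^ (13 / 25 : ℝ) +
      Real.log Λ + Real.log Λ * B) := by
    rw [Real.exp_add, Real.exp_add, Real.exp_add, Real.exp_log (by positivity), Real.exp_log h0,
      ← Real.rpow_def_of_pos h0, Xi]
    field_simp
  rw [e1, e9, ← Real.exp_neg, ← Real.exp_add]
  rw [pow_one] at a3
  exact mul_le_mul_of_nonneg_left (Real.exp_le_exp.2 (by linarith)) hε.le

theorem qCol (hPi : S_Pi) (hPair : S_Pair) (hList : T_List) : T_Col := by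
  intro th ε hε hε'
  by_cases h0 : 0 < th
  swap
  · exact ⟨0, fun _ _ _ _ _ _ _ _ _ _ _ _ c => absurd c.th0 h0⟩
  obtain ⟨C, hC, -, -, -, hn⟩ := pi_facts hPi
  obtain ⟨Λ1, hP⟩ := hPair th h0
  obtain ⟨Λ2, hLi⟩ := hList th h0
  obtain ⟨Λ3, hN⟩ := eventually_atTop.1 (numC ε (2 * C) hε)
  refine ⟨max Λ1 (max Λ2 Λ3), fun u t1 A B Λ L P2 W2 G code hΛ hB c hG hc hXi hM => ?_⟩
  obtain ⟨l1, l2⟩ := max_le_iff.1 hΛ
  obtain ⟨l2, l3⟩ := max_le_iff.1 l2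
  obtain ⟨n1, n2, n3, n4⟩ := hN Λ l3
  replace n4 := n4 B hB
  set H := Real.exp (Λ ^ (3 / 5 : ℝ) - 2) * (Λ ^ 9)⁻¹ with hH
  have Λ0 : 0 < Λ := by linarith
  have t0 : (0 : ℝ) < t1 := by linarith [c.t1a]
  have w1 : H ≤ (PR t1 t1).card := by
    refine le_trans ?_ (hn t1 (n2.trans c.t1a)).2
    rw [div_eq_mul_inv]
    refine mul_le_mul (Real.exp_le_exp.2 (by linarith [c.t1a])) (inv_anti₀ (by positivity) ?_)
      (by positivity) (Real.exp_pos _).le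
    have := pow_le_pow_right₀ (by linarith : 1 ≤ Λ) (by norm_num : 2 ≤ 9)
    nlinarith [c.t1b]
  have w2 : H ≤ W2.card := (mul_le_mul_of_nonneg_right c.P2a (by positivity)).trans c.W2b
  set N : ℤ := ⌈Real.exp (4 * Λ)⌉ with hN'
  set X := (Icc (-N) N ×ˢ Icc (-N) N).filter (Pop u th Λ L A) with hX
  have mX : ∀ x, x ∈ X ↔ Pop u th Λ L A x := fun x => by
    refine ⟨fun h => (mem_filter.1 h).2, fun h => mem_filter.2 ⟨?_, h⟩⟩
    have e := Int.le_ceil (Real.exp (4 * Λ))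
    have a1 : |x.1| ≤ N := by exact_mod_cast h.2.2.1.trans e
    have a2 : x.2 ≤ N := by exact_mod_cast h.2.2.2.1.trans e
    have a3 := h.2.1
    exact mem_product.2 ⟨mem_Icc.2 (abs_le.1 a1), mem_Icc.2 ⟨by omega, a2⟩⟩
  have cX := hLi u A B Λ L X l2 hB c.L0 c.L1 c.L2 fun x hx => (mX x).1 hx
  have pr1 : ∀ p ∈ PR t1 t1, p.Prime ∧ tau p = t1 := fun p hp =>
    ⟨(mem_PR.1 hp).1, le_antisymm (mem_PR.1 hp).2.2 (mem_PR.1 hp).2.1⟩
  have ne : ∀ p ∈ PR t1 t1, ∀ q ∈ W2, p ≠ q := fun p hp q hq e => by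
    have := (c.W2a q hq).2.2.2
    rw [← e, (pr1 p hp).2] at this
    exact lt_irrefl _ this
  have sz : ∀ a ∈ G, ((a.1 * a.2 : ℕ) : ℝ) ≤ Real.exp (2 * Λ) := fun a ha => by
    have m := mem_product.1 (hG ha)
    have e1 : (a.1 : ℝ) ≤ Real.exp Λ := (le_exp_tau _).trans (Real.exp_le_exp.2
      (by rw [(pr1 _ m.1).2]; exact c.t1b))
    have e2 : (a.2 : ℝ) ≤ Real.exp Λ := (le_exp_tau _).trans (Real.exp_le_exp.2
      (le_trans (Nat.cast_le.2 (c.W2a _ m.2).2.2.2.le) c.t1b))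
    rw [Nat.cast_mul, two_mul, Real.exp_add]
    exact mul_le_mul e1 e2 (Nat.cast_nonneg _) (Real.exp_pos _).le
  have lo := lonely hG code (fun a b => L ^ (-(6 * th)) / 4 ≤
    ag u th L (((A / (a.1 * a.2) : ℕ) : ℤ) - ((A / (b.1 * b.2) : ℕ) : ℤ))) ⌈8 * L ^ (6 * th)⌉₊
    fun S hS h1 h2 => hM S hS h1 (by rw [h2]; exact Nat.le_ceil _)
  have Lp : ∀ r : ℝ, r ≤ 1 → L ^ r ≤ Λ ^ B := fun r hr =>
    ((Real.rpow_le_rpow_of_exponent_le c.L0 hr).trans_eq (Real.rpow_one L)).trans c.L2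
  have B1 : 1 ≤ Λ ^ B := c.L0.trans c.L2
  have Xi1 : 1 ≤ Xi Λ := Real.one_le_exp (Real.rpow_nonneg Λ0.le _)
  have M1 : (⌈8 * L ^ (6 * th)⌉₊ : ℝ) ≤ 9 * Λ ^ B := by
    have := Nat.ceil_lt_add_one (a := 8 * L ^ (6 * th)) (by have := c.L0; positivity)
    linarith [Lp (6 * th) (by linarith [c.th1])]
  have X2 : (X.card : ℝ) ^ 2 ≤ Λ ^ B := by
    refine (pow_le_pow_left₀ (Nat.cast_nonneg _) cX 2).trans ?_
    rw [sq, ← Real.rpow_add (by linarith [c.L0])]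
    exact Lp _ (by linarith [c.th1])
  obtain ⟨x, hx, r1, G', s, r2, r3⟩ := count X (fun p x => (p : ℤ) ∣ x.2 * A - x.1) hG hε hε'
    (by linarith) (by linarith) hc (K := 18 * Λ) (Lo := G.filter fun a => ¬ ∃ b ∈ G, a.1 ≠ b.1 ∧
      a.2 ≠ b.2 ∧ L ^ (-(6 * th)) / 4 ≤
        ag u th L (((A / (a.1 * a.2) : ℕ) : ℤ) - ((A / (b.1 * b.2) : ℕ) : ℤ)))
    (fun a ha hl => by
      obtain ⟨b, hb, e1, e2, e3⟩ := not_not.1 fun h => hl (mem_filter.2 ⟨ha, h⟩)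
      have m := mem_product.1 (hG ha)
      have m' := mem_product.1 (hG hb)
      have p1 := (pr1 _ m.1).1
      have p2 := (c.W2a _ m.2).1
      have q1 := (pr1 _ m'.1).1
      have q2 := (c.W2a _ m'.2).1
      have co : Nat.Coprime (a.1 * a.2) (b.1 * b.2) := Nat.Coprime.mul_left
        (((Nat.coprime_primes p1 q1).2 e1).mul_right ((Nat.coprime_primes p1 q2).2 (ne _ m.1 _ m'.2)))
        (((Nat.coprime_primes p2 q1).2 (ne _ m'.1 _ m.2).symm).mul_right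
          ((Nat.coprime_primes p2 q2).2 e2))
      have dn : a.1 * a.2 ≠ b.1 * b.2 := fun e => by
        rw [← e, Nat.coprime_self] at co
        exact p1.one_lt.ne' (Nat.eq_one_of_mul_eq_one_right co)
      obtain ⟨x, x1, -, -, x2⟩ := hP u A _ _ Λ L l1 c.L0 c.L1 (Nat.mul_pos p1.pos p2.pos)
        (Nat.mul_pos q1.pos q2.pos) dn co (sz a ha) (sz b hb) e3
      push_cast at x2
      exact ⟨x, (mX x).2 x1, ((dvd_mul_right _ _).mul_right _).trans x2,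
        ((dvd_mul_left _ _).mul_right _).trans x2⟩)
    (fun x hx x' hx' hne P hP => common (by linarith) ((mX x).1 hx) ((mX x').1 hx') hne _
      fun p hp => ⟨(mem_union.1 (hP p hp).1).elim (fun h => (pr1 p h).1) fun h => (c.W2a p h).1,
        (hP p hp).2⟩) (by positivity)
    (by
      refine le_trans (add_le_add (lo.trans ?_) ?_) (small n3 w1 w2 (a := Xi Λ * (9 * Λ ^ B))
        (b := Λ ^ B * (18 * Λ)) (by positivity) (by positivity) (le_trans ?_ n4))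
      · rw [mul_assoc, mul_comm (9 * Λ ^ B)]
        exact mul_le_mul hXi (mul_le_mul_of_nonneg_left M1 (by positivity)) (by positivity)
          (by linarith)
      · exact mul_le_mul_of_nonneg_right (mul_le_mul_of_nonneg_right X2 (by positivity))
          (by positivity)
      · have e1 : Xi Λ * Λ ^ B * 1 ≤ Xi Λ * Λ ^ B * Λ :=
          mul_le_mul_of_nonneg_left (by linarith) (by positivity)
        have e2 : 1 * (Λ ^ B * Λ) ≤ Xi Λ * (Λ ^ B * Λ) :=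
          mul_le_mul_of_nonneg_right Xi1 (by positivity)
        linarith)
  refine ⟨x, (mX x).1 hx, r1 _ fun a ha => ?_, G', s, r2,
    fun a ha x' h d => r3 a ha x' ((mX x').2 h) d⟩
  obtain ⟨m, d⟩ := mem_filter.1 ha
  refine ⟨m, fun h => d ?_⟩
  have m' := mem_product.1 m
  rw [Nat.cast_mul]
  exact (Nat.isCoprime_iff_coprime.2 ((Nat.coprime_primes (pr1 _ m'.1).1 (c.W2a _ m'.2).1).2
    (ne _ m'.1 _ m'.2))).mul_dvd h.1 h.2

end Pool.Agent.P.MP_26a8c3_nt.ED
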