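import Pool.Agent.P.MP_26a8c3_nt.ED.Defs
import Pool.Agent.P.MP_26a8c3_nt.EC.HM

/-! A large family of biased intervals contains two partners. -/

namespace Pool.Agent.P.MP_26a8c3_nt.ED

open Finset EC EC.HM
open scoped Classical ComplexConjugate
open Hyb (ee)

/-- the off diagonal terms -/
lemma off2 {u : ℕ} {th L β m : ℝ} (hL : 1 < L) (h0 : 0 < th) {c : ℕ → ℤ → ℝ}
    (c0 : ∀ q h, 0 ≤ c q h) (hc : ∀ q, ∑ h ∈ HS th L, c q h ≤ L ^ th) {g : ℕ → ℤ → ℝ}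
    (g0 : ∀ q h, 0 ≤ g q h) (g1 : ∀ q h, g q h ≤ m) (D : ℤ)
    (hB : ∀ (Q : Finset ℕ) (hh : ℕ → ℤ), Q ⊆ QS u th L →
      (∀ q ∈ Q, ∃ p : ℕ, p.Prime ∧ p ∣ q ∧ L ^ (20 * th) ≤ (p : ℝ) ∧ ¬ (p : ℤ) ∣ hh q * D) →
        ∑ q ∈ Q, g q (hh q) ≤ β) :
    ∑ q ∈ QS u th L, ∑ h ∈ HS th L, c q h * g q h ≤
      L ^ th * (β + L ^ (1 + th) * ag u th L D * m) := by
  have hne : (HS th L).Nonempty := ⟨1, mem_erase.2 ⟨one_ne_zero, mem_Icc.2 ⟨by omega, by
    exact_mod_cast (Nat.one_le_floor_iff _).2 (Real.one_le_rpow hL.le (by linarith))⟩⟩⟩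
  choose hh h1 h2 using fun q => exists_max_image (HS th L) (g q) hne
  have hw : 0 ≤ L ^ th := by positivity
  refine (sum_le_sum (g := fun q => L ^ th * g q (hh q)) fun q _ =>
    (sum_le_sum fun h e => mul_le_mul_of_nonneg_left (h2 q h e) (c0 q h)).trans (by
      rw [← sum_mul]; exact mul_le_mul_of_nonneg_right (hc q) (g0 _ _))).trans ?_
  rw [← mul_sum, ← sum_filter_add_sum_filter_not _ fun q => ∃ p : ℕ, p.Prime ∧ p ∣ q ∧
    L ^ (20 * th) ≤ (p : ℝ) ∧ ¬ (p : ℤ) ∣ D]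
  refine mul_le_mul_of_nonneg_left (add_le_add (hB _ hh (filter_subset _ _) fun q hq => ?_)
    ((sum_le_card_nsmul _ _ m fun q _ => g1 _ _).trans ?_)) hw
  · obtain ⟨-, p, hp, a1, a2, a3⟩ := mem_filter.1 hq
    refine ⟨p, hp, a1, a2, fun e => ((Nat.prime_iff_prime_int.1 hp).dvd_or_dvd e).elim
      (fun e => ?_) a3⟩
    obtain ⟨a4, a5⟩ := mem_erase.1 (h1 q)
    have b1 := (Int.le_of_dvd (abs_pos.2 a4) ((dvd_abs _ _).2 e)).trans (abs_le.2 (mem_Icc.1 a5))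
    have b2 : (p : ℝ) ≤ ⌊L ^ (4 * th)⌋₊ := by exact_mod_cast b1
    have b3 := Real.rpow_lt_rpow_of_exponent_lt hL (by linarith : 4 * th < 20 * th)
    linarith [Nat.floor_le (Real.rpow_nonneg (by linarith : 0 ≤ L) (4 * th))]
  · rw [nsmul_eq_mul]
    exact mul_le_mul_of_nonneg_right (card_bad u th (by linarith) D) ((g0 0 0).trans (g1 0 0))

theorem qHM (hBias : T_Bias) : T_HM := by
  intro th h0 h1
  obtain ⟨Λ0, hB⟩ := hBias th h0 h1
  refine ⟨max Λ0 2, fun u M Λ L Y c E1 E2 S a hΛ hL hw hc hE c1 c2 hM ha hS hn => ?_⟩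
  by_contra hcon
  push Not at hcon
  have L0 : 0 < L := by linarith
  have w2 : 2 ≤ L ^ th := le_trans (le_trans ((le_max_right _ _).trans hΛ) (le_self_pow₀
    (by linarith [(le_max_right _ _).trans hΛ]) (by norm_num))) hw
  have L1 : 1 < L := lt_of_le_of_ne hL fun e => by rw [← e, Real.one_rpow] at w2; linarith
  have p6 : L ^ (6 * th) = (L ^ th) ^ 6 := by
    rw [mul_comm, Real.rpow_mul L0.le]; exact_mod_cast Real.rpow_natCast _ 6
  have m0 : (0 : ℝ) < E1.card * E2.card := mul_pos (by linarith) (by linarith)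
  have he : ∀ e1 ∈ E1, ∀ e2 ∈ E2, 0 < e1 * e2 := fun e1 a1 e2 a2 =>
    mul_pos (hE e1 (mem_union_left _ a1)).1 (hE e2 (mem_union_right _ a2)).1
  have hW : ∑ q ∈ QS u th L, ∑ h ∈ HS th L, ‖c q h‖ ≤ L * L ^ th * L ^ th := by
    refine (sum_le_card_nsmul _ _ _ fun q _ => hc.1 q).trans ?_
    rw [nsmul_eq_mul, ← Real.rpow_one_add' L0.le (by linarith)]
    exact mul_le_mul_of_nonneg_right (card_QS u th L0.le) (by positivity)
  have k1 := cau S ((QS u th L ×ˢ HS th L) ×ˢ E1 ×ˢ E2) (fun k => ‖c k.1.1 k.1.2‖)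
    (fun _ => norm_nonneg _) fun i k => ee ((k.1.2 : ℝ) * (a i / (k.2.1 * k.2.2) : ℕ) / k.1.1)
  have k2 : S.card * (L / L ^ th * (E1.card * E2.card)) ≤
      ∑ k ∈ (QS u th L ×ˢ HS th L) ×ˢ E1 ×ˢ E2, ‖c k.1.1 k.1.2‖ *
        ‖∑ i ∈ S, ee ((k.1.2 : ℝ) * (a i / (k.2.1 * k.2.2) : ℕ) / k.1.1)‖ := by
    refine le_trans ?_ (sum_le_sum fun k _ => (Complex.re_le_norm _).trans_eq (norm_mul _ _))
    simp only [mul_sum, Complex.re_sum]
    rw [sum_comm, ← nsmul_eq_mul]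
    refine card_nsmul_le_sum _ _ _ fun i hi => ?_
    have b := (hS i hi).trans (sum_le_sum fun e1 _ => sum_le_sum fun e2 _ => hc.2 _)
    simp only [sum_add_distrib, sum_const, nsmul_eq_mul, Complex.re_sum] at b
    rw [Real.rpow_sub L0, Real.rpow_one] at b
    rw [sum_product_right, sum_product]
    simp only [sum_product]
    linarith
  have k3 : ∀ i ∈ S, ∀ j ∈ S, (∑ k ∈ (QS u th L ×ˢ HS th L) ×ˢ E1 ×ˢ E2,
      (‖c k.1.1 k.1.2‖ : ℂ) * (ee ((k.1.2 : ℝ) * (a i / (k.2.1 * k.2.2) : ℕ) / k.1.1) *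
        conj (ee ((k.1.2 : ℝ) * (a j / (k.2.1 * k.2.2) : ℕ) / k.1.1)))).re ≤
      ∑ q ∈ QS u th L, ∑ h ∈ HS th L, ‖c q h‖ * ‖∑ e1 ∈ E1, ∑ e2 ∈ E2,
        ee (((h * (((a i : ℤ) - a j) / ((e1 * e2 : ℕ) : ℤ)) : ℤ) : ℝ) / q)‖ := fun i hi j hj => by
    simp only [sum_product, ← mul_sum]
    refine (Complex.re_le_norm _).trans (norm_sum_le_of_le _ fun q _ =>
      norm_sum_le_of_le _ fun h _ => le_of_eq ?_)
    rw [norm_mul, Complex.norm_real, norm_norm]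
    congr 2
    refine sum_congr rfl fun e1 a1 => sum_congr rfl fun e2 a2 => ?_
    rw [conj_ee, ← Hyb.ee_add, div_sub (he e1 a1 e2 a2) ((ha i hi j hj).of_dvd (hM e1 a1 e2 a2)),
      Int.cast_mul, Int.cast_sub, Int.cast_natCast, Int.cast_natCast]
    congr 1
    ring
  have hβ : 0 ≤ L ^ th * (L / (L ^ th) ^ 6 * (E1.card * E2.card) +
      L * L ^ th * (((L ^ th) ^ 6)⁻¹ / 4) * (E1.card * E2.card)) := by positivity
  refine num w2 L0 m0 (p6 ▸ hn) ((pow_le_pow_left₀ (by positivity) k2 2).trans (k1.trans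
    ((mul_le_mul_of_nonneg_left ?_ (by positivity)).trans (mul_le_mul_of_nonneg_right ?_
      (by positivity)))))
  · rw [← nsmul_eq_mul]
    refine sum_le_card_nsmul _ _ _ fun i hi => ?_
    rw [← add_sum_erase _ _ hi]
    refine add_le_add ((k3 i hi i hi).trans ((sum_le_sum fun q _ => sum_le_sum fun h _ =>
      mul_le_mul_of_nonneg_left (norm_le _ _ _) (norm_nonneg _)).trans ?_))
      ((sum_le_card_nsmul _ _ _ fun j hj => (k3 i hi j (mem_of_mem_erase hj)).trans ?_).trans (by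
        rw [nsmul_eq_mul]
        exact mul_le_mul_of_nonneg_right (Nat.cast_le.2 card_erase_le) hβ))
    · simp only [← sum_mul]
      exact mul_le_mul_of_nonneg_right hW m0.le
    · have b := (hcon i hi j (mem_of_mem_erase hj) (ne_of_mem_erase hj).symm).le
      rw [Real.rpow_neg L0.le, p6] at b
      refine (off2 (u := u) (c := fun q h => ‖c q h‖) (g := fun q h => ‖∑ e1 ∈ E1, ∑ e2 ∈ E2,
        ee (((h * (((a i : ℤ) - a j) / ((e1 * e2 : ℕ) : ℤ)) : ℤ) : ℝ) / q)‖) L1 h0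
        (fun _ _ => norm_nonneg _) hc.1 (fun _ _ => norm_nonneg _)
        (fun _ _ => norm_le _ _ _) ((a i : ℤ) - a j) fun Q hh a1 a2 =>
          hB Λ L E1 E2 Q ((a i : ℤ) - a j) hh ((le_max_left _ _).trans hΛ) hL hw
            (fun e a => ⟨(hE e a).1, (hE e a).2.1⟩) c1 c2 (fun e1 a3 e2 a4 =>
              ((ha i hi j (mem_of_mem_erase hj)).of_dvd (hM e1 a3 e2 a4)).symm.dvd)
            fun q hq => ⟨(squarefree_pv PPs_prime).squarefree_of_dvd (mem_QS L0.le (a1 hq)).2.2.1,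
              (mem_QS L0.le (a1 hq)).2.1, fun e a =>
              (hE e a).2.2.coprime_dvd_right (mem_QS L0.le (a1 hq)).2.2.1, a2 q hq⟩).trans ?_
      rw [Real.rpow_sub L0, Real.rpow_one, p6, Real.rpow_one_add' L0.le (by linarith), mul_assoc]
      gcongr
  · simp only [sum_product, sum_const, nsmul_eq_mul, ← mul_sum, card_product, Nat.cast_mul]
    rw [mul_comm]
    exact mul_le_mul_of_nonneg_right hW m0.le

end Pool.Agent.P.MP_26a8c3_nt.ED
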