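import Pool.Agent.P.MP_26a8c3_nt.ED.Defs
import Pool.Agent.P.MP_26a8c3_nt.EC.Ht

/-! The height of the popular point. -/

namespace Pool.Agent.P.MP_26a8c3_nt.ED

open Finset EC
open scoped Classical

lemma largeH (C Λ1 : ℝ) : ∃ Λ0 : ℝ, ∀ Λ : ℝ, Λ0 ≤ Λ → Λ1 ≤ Λ ∧ 1 ≤ Λ ∧ 2 * C ≤ Λ ^ (3 / 5 : ℝ) ∧
    (∀ B, Sm B Λ → 10000 * (Λ ^ B * Λ ^ 9) ≤ Xi Λ) ∧
    Xi Λ ^ 2 ≤ Real.exp (Λ ^ (3 / 5 : ℝ) - 2) := by
  obtain ⟨Λ0, h⟩ := Ht.large 0 C Λ1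
  refine Filter.eventually_atTop.1 ?_
  filter_upwards [Filter.eventually_ge_atTop Λ0, evp 3 (show (1 / 50 : ℝ) < 13 / 25 by norm_num),
    evl 27 1 (show (0 : ℝ) < 13 / 25 by norm_num),
    (tendsto_rpow_atTop (y := 13 / 25) (by norm_num)).eventually_ge_atTop 30000] with Λ a1 a2 a3 a4
  obtain ⟨b1, b2, b3, -, b5⟩ := h Λ a1
  refine ⟨b1, b2, b3, fun B hB => ?_, b5⟩
  have h0 : 0 < Λ := by linarith
  have e9 : Λ ^ 9 = Real.exp (9 * Real.log Λ) := by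
    rw [show (9 : ℝ) = (9 : ℕ) by norm_num, Real.exp_nat_mul, Real.exp_log h0]
  have e1 : (10000 : ℝ) ≤ Real.exp 10000 := by linarith [Real.add_one_le_exp (10000 : ℝ)]
  have a5 : B * Real.log Λ ≤ _ := hB
  rw [pow_one] at a3
  refine (mul_le_mul_of_nonneg_right e1 (by positivity)).trans ?_
  rw [e9, Real.rpow_def_of_pos h0, ← Real.exp_add, ← Real.exp_add, Xi]
  exact Real.exp_le_exp.2 (by linarith)

theorem qHt (hPi : S_Pi) (hPair : S_Pair) : T_Ht := by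
  intro th
  by_cases hth : 0 < th
  swap
  · exact ⟨0, fun _ _ _ _ _ _ _ _ _ _ _ _ _ h => absurd h.th0 hth⟩
  obtain ⟨Λ1, hpair⟩ := hPair th hth
  obtain ⟨C, -, -, -, -, hC⟩ := pi_facts hPi
  obtain ⟨Λ0, hl⟩ := largeH C Λ1
  refine ⟨Λ0, fun u t1 A B Λ L P2 W2 G code x hΛ hB cx hG hGc hX hM hx hone => ?_⟩
  obtain ⟨l0, l1, l2, l3, l4⟩ := hl Λ hΛ
  replace l3 := l3 B hB
  have h0 : 0 < Λ := by linarith
  have hv : 1 ≤ x.2 := hx.2.1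
  have hw : Λ ≤ Λ ^ 9 := le_self_pow₀ l1 (by norm_num)
  have hQ : 1 ≤ Λ ^ B := cx.L0.trans cx.L2
  have hw1 : 1 ≤ Λ ^ 9 := l1.trans hw
  have hXw : 10000 * Λ ^ 9 ≤ Xi Λ := by nlinarith
  have hX1 : 1 ≤ Xi Λ := by linarith
  have hY : 0 < Xi Λ ^ 2 := by positivity
  have hXX : Xi Λ ≤ Xi Λ ^ 2 := le_self_pow₀ hX1 (by norm_num)
  have hP : Xi Λ ^ 2 ≤ P2 := l4.trans cx.P2a
  have hP0 : 0 < P2 := by linarith
  have hE : Xi Λ ^ 2 ≤ Real.exp t1 := l4.trans (Real.exp_le_exp.2 (by linarith [cx.t1a]))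
  have hW : ∀ p ∈ W2, p.Prime ∧ P2 ≤ (p : ℝ) ∧ (p : ℝ) ≤ 2 * P2 ∧ tau p < t1 := fun p hp => by
    obtain ⟨a1, a2, a3, a4⟩ := cx.W2a p hp
    have : (Λ ^ 3)⁻¹ ≤ 1 := inv_le_one_of_one_le₀ (one_le_pow₀ l1)
    exact ⟨a1, a2, by nlinarith, a4⟩
  have h2 : P2 ≤ W2.card * Λ ^ 9 := by
    have := cx.W2b
    rwa [← div_eq_mul_inv, div_le_iff₀ (by positivity)] at this
  have ht0 : (0 : ℝ) < t1 := lt_of_lt_of_le (Real.rpow_pos_of_pos h0 _) cx.t1a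
  have h1 : Real.exp t1 ≤ 6 * ((PR t1 t1).card * Λ ^ 9) := by
    have a1 := (hC t1 (l2.trans cx.t1a)).2
    rw [div_le_iff₀ (by positivity), Real.exp_sub, div_le_iff₀ (Real.exp_pos 1)] at a1
    have a2 : Real.exp 1 ≤ 3 := by linarith [Real.exp_one_lt_d9]
    have a3 : ((PR t1 t1).card : ℝ) * t1 ≤ (PR t1 t1).card * Λ ^ 9 :=
      mul_le_mul_of_nonneg_left (cx.t1b.trans hw) (Nat.cast_nonneg _)
    have a4 : (0 : ℝ) ≤ (PR t1 t1).card * (2 * t1) := by positivity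
    nlinarith [mul_le_mul_of_nonneg_left a2 a4]
  have hn1 : (1 : ℝ) ≤ (PR t1 t1).card := le_of_mul_le_mul_right (by linarith) (by linarith : 0 < Λ ^ 9)
  have hn2 : (1 : ℝ) ≤ W2.card := le_of_mul_le_mul_right (by linarith) (by linarith : 0 < Λ ^ 9)
  have hL6 : L ^ (6 * th) ≤ Λ ^ B := by
    refine le_trans ?_ cx.L2
    conv_rhs => rw [← Real.rpow_one L]
    exact Real.rpow_le_rpow_of_exponent_le cx.L0 (by linarith [cx.th1])
  have hL0 : 0 ≤ 8 * L ^ (6 * th) := by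
    have := Real.rpow_nonneg (by linarith [cx.L0] : 0 ≤ L) (6 * th)
    linarith
  have hM9 : (⌈8 * L ^ (6 * th)⌉₊ : ℝ) ≤ 9 * Λ ^ B := by linarith [Nat.ceil_lt_add_one hL0]
  have hMw : 1000 * ((⌈8 * L ^ (6 * th)⌉₊ : ℝ) * Λ ^ 9) ≤ Xi Λ := by
    have := mul_le_mul_of_nonneg_right hM9 (by linarith : 0 ≤ Λ ^ 9)
    have : 0 ≤ Λ ^ B * Λ ^ 9 := by positivity
    nlinarith
  have fin := Ht.final_num hw1 (Nat.cast_nonneg _) hX1 hMw hP h2 hE h1 hn1 hn2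
  by_contra hcon
  refine absurd (hGc.trans (Ht.fiber_bound (Ht.rel x) (Ht.rel_symm x) (by positivity) _
    (fun b hb => (Ht.card_rel x hG b).trans ?_) (fun S hS hc hn => ?_) hX)) (not_le.2 fin)
  · have n1 : (0 : ℝ) ≤ (PR t1 t1).card * (P2 / Xi Λ ^ 2 + 1) := by positivity
    have n2 : (0 : ℝ) ≤ W2.card * (8 * Real.exp t1 / Xi Λ ^ 2 + 1) := by positivity
    rcases not_and_or.1 hcon with h | h
    · linarith [Ht.caseV hG hP0.le hY hv (not_le.1 h).le hW hb]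
    · linarith [Ht.caseA hG hP0 hY hv (not_le.1 h).le hW hb]
  · obtain ⟨a, ha, b, hb, hab, h⟩ := hM S hS hc (by rw [hn]; exact Nat.le_ceil _)
    refine ⟨a, ha, b, hb, hab, ?_⟩
    by_cases e1 : a.1 = b.1
    · exact Or.inl e1
    by_cases e2 : a.2 = b.2
    · exact Or.inr (Or.inl e2)
    obtain ⟨a1, a2⟩ := mem_product.1 (hG (hS ha))
    obtain ⟨b1, b2⟩ := mem_product.1 (hG (hS hb))
    have pa := mem_PR.1 a1
    have pb := mem_PR.1 b1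
    have qa := hW _ a2
    have qb := hW _ b2
    have sz : ∀ p q : ℕ, tau p ≤ t1 → tau q < t1 → ((p * q : ℕ) : ℝ) ≤ Real.exp (2 * Λ) :=
      fun p q hp hq => by
        have c1 := (le_exp_tau p).trans (Real.exp_le_exp.2 ((Nat.cast_le.2 hp).trans cx.t1b))
        have c2 := (le_exp_tau q).trans (Real.exp_le_exp.2 ((Nat.cast_le.2 hq.le).trans cx.t1b))
        rw [Nat.cast_mul, two_mul, Real.exp_add]
        exact mul_le_mul c1 c2 (Nat.cast_nonneg _) (Real.exp_pos _).le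
    have cop : Nat.Coprime (a.1 * a.2) (b.1 * b.2) := by
      refine Nat.Coprime.mul_left (Nat.Coprime.mul_right ?_ ?_) (Nat.Coprime.mul_right ?_ ?_)
      · exact (Nat.coprime_primes pa.1 pb.1).2 e1
      · exact (Nat.coprime_primes pa.1 qb.1).2 (lt_of_tau_lt (qb.2.2.2.trans_le pa.2.1)).ne'
      · exact (Nat.coprime_primes qa.1 pb.1).2 (lt_of_tau_lt (qa.2.2.2.trans_le pb.2.1)).ne
      · exact (Nat.coprime_primes qa.1 qb.1).2 e2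
    have ne : a.1 * a.2 ≠ b.1 * b.2 := fun e => by
      rw [← e, Nat.coprime_self] at cop
      exact pa.1.ne_one (Nat.eq_one_of_mul_eq_one_right cop)
    obtain ⟨x', y1, y2, y3, y4⟩ := hpair u A (a.1 * a.2) (b.1 * b.2) Λ L l0 cx.L0 cx.L1
      (Nat.mul_pos pa.1.pos qa.1.pos) (Nat.mul_pos pb.1.pos qb.1.pos) ne cop
      (sz _ _ pa.2.2 qa.2.2.2) (sz _ _ pb.2.2 qb.2.2.2) h
    have e := hone a (hS ha) x' y1 (dvd_trans (Int.natCast_dvd_natCast.2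
      ((dvd_mul_right _ _).trans (dvd_mul_right _ _))) y4)
    rw [e] at y2 y3
    exact Or.inr (Or.inr ⟨y2, y3⟩)

end Pool.Agent.P.MP_26a8c3_nt.ED
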