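import Pool.Agent.P.MP_26a8c3_nt.ED.Defs
import Pool.Agent.P.MP_26a8c3_nt.EC.KP

/-! The key proposition. -/

namespace Pool.Agent.P.MP_26a8c3_nt.ED

open Finset EC EC.KP
open scoped Classical

theorem qKP (hTriv : S_Triv) (hSv : S_Sv) (hRig : T_Rig) (hCaseA : T_CaseA) (hCaseB : T_CaseB) :
    T_KP := by
  obtain ⟨th, th0, th1, hsv⟩ := hSv
  obtain ⟨uB, hB⟩ := hCaseB
  refine ⟨max 1 uB, fun u hu => ⟨th ^ 2 / 10000, th, by positivity, by nlinarith, th0, th1,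
    ?_⟩⟩
  have u1 : 1 ≤ u := (le_max_left _ _).trans hu
  obtain ⟨ΛR, hR⟩ := hRig u th u1 (hsv u u1)
  obtain ⟨ΛA, hA⟩ := hCaseA u th u1 (hsv u u1)
  obtain ⟨ΛB, hB⟩ := hB u ((le_max_right _ _).trans hu) th
  obtain ⟨L0, hT⟩ := hTriv u 1 u1 one_pos
  obtain ⟨Λ1, Λ2, hN⟩ := num th0
  refine ⟨max (max (max ΛR ΛA) (max ΛB L0)) Λ1, ?_⟩
  intro t1 M A B Λ L P2 T R W2 E1 E2 hΛ hs C S
  simp only [max_le_iff] at hΛ
  obtain ⟨⟨⟨l1, l2⟩, l3, l4⟩, l5⟩ := hΛ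
  by_contra hcon
  obtain ⟨a, v, hav, v1, v2, ha, hbad⟩ := hR t1 M A B Λ L P2 T R W2 E1 E2 l1 hs C S
    (not_le.1 hcon).le
  refine hcon ?_
  obtain ⟨x1, x2, -⟩ := hN Λ l5
  have ΛL : Λ ≤ L := by
    have h1 : Λ ^ 1 ≤ Λ ^ 40 := pow_le_pow_right₀ (by linarith) (by norm_num)
    have h2 : L ^ th ≤ L ^ (1 : ℝ) := Real.rpow_le_rpow_of_exponent_le C.L0 (by linarith)
    rw [Real.rpow_one] at h2
    rw [pow_one] at h1
    exact h1.trans (C.L1.trans h2)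
  have L1 := C.L0
  have lg : 0 < Real.log L := Real.log_pos (by linarith)
  have c0 : 0 < cs u L := inv_pos.2 (mul_pos (V0_pos u) lg)
  have c1 : 1 ≤ th / 100 * (cs u L * L) := by
    have h1 := (hN L (l5.trans ΛL)).2.2
    have h2 : V0 u * Real.log L ≤ Real.log L := mul_le_of_le_one_left lg.le (V0_le_one u)
    rw [mul_left_comm, cs, ← div_eq_inv_mul, one_le_div (mul_pos (V0_pos u) lg)]
    linarith
  have MX : (M : ℝ) ≤ Xi Λ := S.M1.trans (Real.exp_le_exp.2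
    (Real.rpow_le_rpow_of_exponent_le (by linarith) (by norm_num)))
  have X3 : Xi Λ ^ 3 < P2 := x2.trans_le C.P2a
  have X13 : Xi Λ ≤ Xi Λ ^ 3 := le_self_pow₀ (by linarith) (by norm_num)
  have key : ∀ e1 ∈ E1, ∀ e2 ∈ E2, ∑ p1 ∈ PR t1 t1, ∑ p2 ∈ W2,
      cnt u L (A / (p1 * p2 * (e1 * e2))) (T / ((p1 * p2 * (e1 * e2) : ℕ) : ℝ)) ≤
      (2 - th ^ 2 / 10000) * cs u L * ∑ p1 ∈ PR t1 t1, ∑ p2 ∈ W2,
        T / ((p1 * p2 * (e1 * e2) : ℕ) : ℝ) := by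
    intro e1 he1 e2 he2
    rcases (PR t1 t1).eq_empty_or_nonempty with h | ⟨q1, hq1⟩
    · simp [h]
    rcases W2.eq_empty_or_nonempty with h | ⟨q2, hq2⟩
    · simp [h]
    have LM : L ≤ M := by
      refine S.c1.trans (Nat.cast_le.2 ?_)
      have : E1 ⊆ Ioc 0 M := fun e he => mem_Ioc.2 ⟨(S.Ea e (mem_union_left _ he)).1,
        Nat.le_of_dvd S.M0 ((dvd_mul_right _ _).trans (S.dv e he e2 he2).1)⟩
      simpa using card_le_card this
    have e0 : 0 < e1 * e2 :=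
      mul_pos (S.Ea _ (mem_union_left _ he1)).1 (S.Ea _ (mem_union_right _ he2)).1
    have eX : ((e1 * e2 : ℕ) : ℝ) ≤ Xi Λ :=
      (Nat.cast_le.2 (Nat.le_of_dvd S.M0 (S.dv e1 he1 e2 he2).1)).trans MX
    have len := fun p1 h1 p2 h2 => S.len p1 h1 p2 h2 e1 he1 e2 he2
    generalize e1 * e2 = e at *
    have e1' : (1 : ℝ) ≤ e := by exact_mod_cast e0
    have eqT : ∀ d : ℕ, T / ((d * e : ℕ) : ℝ) = T / e / d := fun d => by
      rw [Nat.cast_mul, div_div, mul_comm]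
    have eqA : ∀ d : ℕ, A / (d * e) = A / e / d := fun d => by
      rw [Nat.div_div_eq_div_mul, mul_comm]
    simp only [eqT, eqA] at len ⊢
    have hA' := Nat.div_add_mod A e
    have hr := Nat.mod_lt A e0
    generalize T / e = T' at *
    generalize A / e = A' at *
    generalize A % e = r at *
    have big : ∀ p1 ∈ PR t1 t1, ∀ p2 ∈ W2, p1.Prime ∧ p2.Prime ∧ P2 ≤ p1 ∧ P2 ≤ p2 := by
      intro p1 h1 p2 h2
      obtain ⟨k1, k2, -, k3⟩ := C.W2a p2 h2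
      rw [mem_PR] at h1
      exact ⟨h1.1, k1, k2.trans (Nat.cast_le.2 (lt_of_tau_lt (k3.trans_le h1.2.1)).le), k2⟩
    have hT' : Real.exp t1 * P2 ≤ 3 * T' ∧ 1 ≤ T' :=
      tb hq1 (big q1 hq1 q2 hq2).2.1 (big q1 hq1 q2 hq2).2.2.2 (by linarith only [X3, X13, x1]) L1
        (len q1 hq1 q2 hq2).1
    have e0' : (1 : ℤ) ≤ e := by exact_mod_cast e0
    obtain ⟨g, a', v', g0, g1, hc, w1, ea, ev⟩ :=
      red (a - v * r) (v * e) (one_le_mul_of_one_le_of_one_le v1 e0')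
    have v1' : (1 : ℝ) ≤ v := by exact_mod_cast v1
    have w1' : (1 : ℝ) ≤ v' := by exact_mod_cast w1
    have g0' : (1 : ℝ) ≤ g := by exact_mod_cast g0
    have ev' : (v : ℝ) * e = g * v' := by exact_mod_cast ev
    have ve : (v : ℝ) * e ≤ Xi Λ ^ 3 := by
      rw [pow_succ]
      exact mul_le_mul v2 eX (by linarith) (by positivity)
    have w2 : (v' : ℝ) ≤ Xi Λ ^ 3 :=
      le_trans (le_mul_of_one_le_left (by linarith) g0') (ev' ▸ ve)
    have g2 : (g : ℝ) < P2 :=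
      (le_trans (le_mul_of_one_le_right (by linarith) w1') (ev' ▸ ve)).trans_lt X3
    have w3 : |(a' : ℝ)| ≤ v' * T' * Xi Λ ^ 3 :=
      ht (by exact_mod_cast ea) ev' (Nat.cast_nonneg r) (Nat.cast_le.2 hr.le) v1' e1' g0' x1 ha
        hT'.1 hT'.2
    have hx : ∑ p1 ∈ PR t1 t1, ∑ p2 ∈ W2, cx u L A' T' a' v' (p1 * p2) ≤
        (2 - th / 4) * cs u L * ∑ p1 ∈ PR t1 t1, ∑ p2 ∈ W2, T' / ((p1 * p2 : ℕ) : ℝ) := by
      by_cases h : L ^ (20 * th) ≤ (v' : ℝ) ∨ v' * T' * L ^ (20 * th) ≤ |(a' : ℝ)|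
      · exact hA t1 _ B Λ L P2 T' W2 a' v' l2 hs C len hc w1 w2 w3 h
      · rw [not_or, not_le, not_le] at h
        refine (hB t1 _ B Λ L P2 T' W2 a' v' l3 hs C len hc w1 h.1.le h.2.le).trans ?_
        have := hT'.2
        gcongr
        linarith
    rw [← sum_product', ← sum_product'] at hx ⊢
    refine comb _ (fun b => ((b.1 * b.2 : ℕ) : ℤ) ∣ v * A - a) _ _ _ th0 (by linarith) c0.le
      (by linarith) (fun b hb h => ?_) (fun b hb => ?_) (fun b _ => Nat.cast_nonneg _)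
      (fun b hb => (len _ (mem_product.1 hb).1 _ (mem_product.1 hb).2).1)
      (by rw [card_product, Nat.cast_mul]; convert hbad) hx c1
    · obtain ⟨k1, k2, k3, k4⟩ := big _ (mem_product.1 hb).1 _ (mem_product.1 hb).2
      have k5 : ∀ p : ℕ, p.Prime → P2 ≤ p → Nat.Coprime p (PP u L) ∧ Nat.Coprime p g := by
        intro p hp h
        refine ⟨hp.coprime_iff_not_dvd.2 fun k => ?_, hp.coprime_iff_not_dvd.2 fun k => ?_⟩
        · have k6 := ((mem_PPs (by linarith)).1 ((prime_dvd_pv PPs_prime hp).1 k)).2.2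
          have k7 : L ^ (3 / 5 : ℝ) ≤ L ^ (1 : ℝ) :=
            Real.rpow_le_rpow_of_exponent_le L1 (by norm_num)
          rw [Real.rpow_one] at k7
          linarith
        · have k6 : (p : ℝ) ≤ g := Nat.cast_le.2 (Nat.le_of_dvd g0 k)
          linarith
      refine cnt_le (mul_pos k1.pos k2.pos) ((k5 _ k1 k3).1.mul_left (k5 _ k2 k4).1) ?_
      refine (Nat.isCoprime_iff_coprime.2
        ((k5 _ k1 k3).2.mul_left (k5 _ k2 k4).2)).dvd_of_dvd_mul_left ?_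
      have k6 : (A : ℤ) = e * A' + r := by exact_mod_cast hA'.symm
      rw [mul_sub, ← mul_assoc, ← ea, ← ev,
        show a - v * r - v * e * A' = -(v * A - a) by rw [k6]; ring]
      exact h.neg_right
    · obtain ⟨k1, k2⟩ := len _ (mem_product.1 hb).1 _ (mem_product.1 hb).2
      refine (hT L _ _ (l4.trans ΛL) k1 (by linarith)).trans ?_
      have := mul_le_mul_of_nonneg_left k2 c0.le
      linarith
  have sw : ∀ f : ℕ → ℕ → ℕ → ℕ → ℝ, ∑ p1 ∈ PR t1 t1, ∑ p2 ∈ W2, ∑ e1 ∈ E1, ∑ e2 ∈ E2,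
      f p1 p2 e1 e2 = ∑ e1 ∈ E1, ∑ e2 ∈ E2, ∑ p1 ∈ PR t1 t1, ∑ p2 ∈ W2, f p1 p2 e1 e2 := by
    intro f
    calc _ = ∑ p1 ∈ PR t1 t1, ∑ e1 ∈ E1, ∑ e2 ∈ E2, ∑ p2 ∈ W2, f p1 p2 e1 e2 :=
          sum_congr rfl fun _ _ => sum_comm.trans (sum_congr rfl fun _ _ => sum_comm)
      _ = _ := sum_comm.trans (sum_congr rfl fun _ _ => sum_comm)
  rw [sw, sw fun p1 p2 e1 e2 => T / ((p1 * p2 * (e1 * e2) : ℕ) : ℝ), mul_sum]
  refine sum_le_sum fun e1 he1 => ?_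
  rw [mul_sum]
  exact sum_le_sum fun e2 he2 => key e1 he1 e2 he2

end Pool.Agent.P.MP_26a8c3_nt.ED
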