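import Pool.Agent.P.MP_26a8c3_nt.ED.Defs
import Pool.Agent.P.MP_26a8c3_nt.EC.Main

/-! From the sifted interval to primes in progressions. -/

namespace Pool.Agent.P.MP_26a8c3_nt.ED

open Finset Filter EC EC.Main
open scoped Classical

theorem qMain (hMain0 : T_Main0) : T_Main := by
  obtain ⟨u, hu, c, hc, N0, h0⟩ := hMain0
  have hp : ∀ {a b : ℕ}, ∀ p ∈ PR a b, p.Prime := fun p hp => (mem_PR.1 hp).1
  have hW := pv_pos (hp (a := 0) (b := u - 1))
  have hφW := totient_pv (hp (a := 0) (b := u - 1))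
  change _ = _ * V0 u at hφW
  set W := pv (PR 0 (u - 1)) with hWd
  have hW1 : (1 : ℝ) ≤ W := by exact_mod_cast hW
  have hV : 0 < V0 u := pos_of_mul_pos_left (a := V0 u) (b := W)
    (by rw [mul_comm, ← hφW]; exact_mod_cast Nat.totient_pos.2 hW) (by linarith)
  have hlW := Real.log_nonneg hW1
  have hc' : 0 ≤ 4 * (1 + Real.log W) / c := by positivity
  have hex := Real.exp_pos ((u - 1 : ℕ) : ℝ)
  have hN0 : (0 : ℝ) ≤ W * N0 := by positivity
  obtain ⟨t₀, ht⟩ := eventually_atTop.1 ((ev 0 (W * N0 + 2 * Real.log W + W +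
    4 * (1 + Real.log W) / c + Real.exp ((u - 1 : ℕ) : ℝ) + 4) le_rfl).and
    (Real.tendsto_log_atTop.eventually (evl (c / 4) 2 one_pos)))
  refine ⟨c / 4, by positivity, t₀, fun k l x y hk hy => ?_⟩
  obtain ⟨⟨a1, a2, a3, -, a5, a6⟩, a4⟩ := ht _ hy
  rw [Real.rpow_one] at a4
  obtain ⟨l', S, hS, hcard⟩ := Inf.exists_fin (k := k) hk l x y
  have hk' : (0 : ℝ) < k := by exact_mod_cast hk
  have hφ : (0 : ℝ) < k.totient := by exact_mod_cast Nat.totient_pos.2 hk
  have hy' : y = k * (y / k) := by field_simp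
  generalize y / k = Y at *
  have hY : 0 < Y := by linarith
  obtain ⟨N, b1, b2⟩ : ∃ N : ℕ, Y + 1 < W * N ∧ (W : ℝ) * N ≤ Y + 1 + W := by
    refine ⟨⌊(Y + 1) / W⌋₊ + 1, ?_, ?_⟩
    · rw [← div_lt_iff₀' (by linarith)]
      push_cast
      exact Nat.lt_floor_add_one _
    · have := (le_div_iff₀' (by linarith : (0 : ℝ) < W)).1
        (Nat.floor_le (show 0 ≤ (Y + 1) / W by positivity))
      push_cast
      linarith
  have b3 : N0 ≤ N := Nat.cast_le.1 (le_of_mul_le_mul_left
    (show (W : ℝ) * N0 ≤ W * N by linarith) (by linarith))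
  have b4 : (0 : ℝ) < N := pos_of_mul_pos_left (a := (N : ℝ)) (b := W)
    (by rw [mul_comm]; linarith) (by linarith)
  have b5 : Real.log Y - Real.log W ≤ Real.log N := by
    have := Real.log_le_log hY (show Y ≤ W * N by linarith)
    rw [Real.log_mul (by linarith) b4.ne'] at this
    linarith
  have b6 : Real.log (Real.log Y) - 1 ≤ Real.log (Real.log N) := by
    have := Real.log_le_log (by linarith) (show Real.log Y / 2 ≤ Real.log N by linarith)
    rw [Real.log_div (by linarith) two_ne_zero] at this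
    linarith [Real.log_two_lt_d9]
  have b7 : Real.log Y + c / 4 * Real.log (Real.log Y) ^ 2 + 1 ≤
      Real.log N + c * Real.log (Real.log N) ^ 2 := by
    have d1 : 4 ≤ Real.log (Real.log Y) := by linarith
    have d2 := (div_le_iff₀' hc).1
      (show 4 * (1 + Real.log W) / c ≤ Real.log (Real.log Y) by linarith)
    have d3 := pow_le_pow_left₀ (by linarith) b6 2
    generalize Real.log (Real.log Y) = s at *
    have d4 : s ^ 2 / 4 + s / 4 ≤ (s - 1) ^ 2 := by nlinarith
    have d5 := mul_le_mul_of_nonneg_left (d4.trans d3) hc.le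
    linarith
  have b8 : 0 ≤ c / 4 * Real.log (Real.log Y) ^ 2 := by positivity
  have b9 : (N : ℝ) ≤ Y + 2 := by nlinarith
  have hd : Disjoint (PR 0 (u - 1)) (PR u (ZZ N)) := disjoint_left.2 fun p h1 h2 => by
    have := (mem_PR.1 h1).2.2
    have := (mem_PR.1 h2).2.1
    omega
  have hpu : ∀ p ∈ PR 0 (u - 1) ∪ PR u (ZZ N), p.Prime := fun p h1 =>
    (mem_union.1 h1).elim (hp p) (hp p)
  have c1 := gen_bound (y := y) hS hk (squarefree_pv hpu)
    (fun p h1 h2 => (prime_dvd_pv hpu h1).1 h2)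
    (Bd := 2 * (Y + 1 + W) / (Real.log Y + c / 4 * Real.log (Real.log Y) ^ 2 + 1))
    (fun a b hab h1 => by
      rw [pv_union hd]
      refine (cop_split hW (pv_pos hp) ((coprime_pv hp _).2 fun p h2 h3 =>
        disjoint_left.1 hd ((prime_dvd_pv hp (hp p h2)).1 h3) h2) (fun A => h0 N A b3) ?_).trans ?_
      · rw [hy', mul_div_cancel_left₀ _ hk'.ne'] at h1
        exact_mod_cast (show (b : ℝ) ≤ a + W * N by linarith)
      · rw [hφW]
        calc _ = 2 * (W * N) / (Real.log N + c * Real.log (Real.log N) ^ 2) := by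
              field_simp
          _ ≤ _ := div_le_div₀ (by linarith) (by linarith) (by linarith) b7)
    (div_nonneg (by linarith) (by linarith))
  have h4 := Real.rpow_inv_natCast_pow (x := Y) (n := 6) hY.le (by norm_num)
  generalize Y ^ ((6 : ℕ) : ℝ)⁻¹ = s at a5 a6 h4
  have hs : 3 ≤ s := by linarith
  have c2 : ((PR 0 (u - 1) ∪ PR u (ZZ N)).card : ℝ) ≤ s + 2 * s ^ 3 := by
    have d1 : Real.exp (ZZ N) ≤ 2 * s ^ 3 := by
      have d2 := Real.log_natCast_nonneg N
      have d3 : (ZZ N : ℝ) ≤ 2 / 5 * Real.log N := Nat.floor_le (by positivity)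
      refine le_of_pow_le_pow_left₀ two_ne_zero (by positivity) ?_
      rw [← Real.exp_nat_mul]
      refine (Real.exp_le_exp.2 (show _ ≤ Real.log N by push_cast; linarith)).trans ?_
      rw [Real.exp_log b4]
      nlinarith
    rw [card_union_of_disjoint hd, Nat.cast_add]
    linarith [card_PR 0 (u - 1), card_PR u (ZZ N)]
  have c3 := last_num (Λ := Real.log Y + c / 4 * Real.log (Real.log Y) ^ 2) (W := W) hs
    (by linarith)
    (by linarith) (by linarith) c2
  rw [h4] at c3
  rw [hcard, mul_comm (k.totient : ℝ), ← div_div, lt_div_iff₀ hφ]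
  refine c1.trans_lt ((mul_lt_mul_of_pos_left c3 hk').trans_le (le_of_eq ?_))
  rw [hy']
  ring

end Pool.Agent.P.MP_26a8c3_nt.ED
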