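import Pool.Agent.P.MP_26a8c3_nt.ED.Defs
import Pool.Agent.P.MP_26a8c3_nt.EC.Main0

/-! The sieve bound in an interval. -/

namespace Pool.Agent.P.MP_26a8c3_nt.ED

open Finset EC EC.Main0
open scoped Classical

theorem qMain0 (hCmp : S_Cmp) (hPlus : S_Plus) (hBd : S_Bd) (hMass : T_Mass) (hBox : T_Box) :
    T_Main0 := by
  obtain ⟨ua, hBd⟩ := hBd
  obtain ⟨ub, hBox⟩ := hBox
  obtain ⟨u, hu1, hua, hub⟩ : ∃ u, 1 ≤ u ∧ ua ≤ u ∧ ub ≤ u :=
    ⟨ua + ub + 1, by omega, by omega, by omega⟩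
  obtain ⟨C1, hC1, hCmp⟩ := hCmp u hu1
  obtain ⟨C2, hC2, hPlus⟩ := hPlus
  obtain ⟨C3, hC3, hBd⟩ := hBd u hua
  obtain ⟨c, hc, B1, hMass⟩ := hMass
  obtain ⟨δ, B0, hδ, hδ1, Nb, hBox⟩ := hBox u hub
  obtain ⟨Na, hMass⟩ := hMass u
  obtain ⟨b, hb0, hb1, hbc⟩ : ∃ b : ℝ, 0 < b ∧ b ≤ 1 ∧ b ≤ c / 44000 :=
    ⟨min 1 (c / 44000), by positivity, min_le_left _ _, min_le_right _ _⟩
  obtain ⟨γ, hγ⟩ : ∃ γ, γ = δ * c * (c * b) / 352 := ⟨_, rfl⟩
  have hγ0 : 0 < γ := by rw [hγ]; positivity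
  obtain ⟨M, hM⟩ : ∃ M : ℝ, M = 648 + γ + 3 * u + (8 + 4 * C2) / δ + |B1| / b + |B0| / (c * b) +
    17 / (c * b) + (2 * C2 + 144 * C3 + C1) / (2 * γ) := ⟨_, rfl⟩
  have hy0 : 0 < (8 + 4 * C2) / δ := by positivity
  have hy1 : 0 ≤ |B1| / b := by positivity
  have hy2 : 0 ≤ |B0| / (c * b) := by positivity
  have hy3 : 0 ≤ 17 / (c * b) := by positivity
  have hy4 : 0 ≤ (2 * C2 + 144 * C3 + C1) / (2 * γ) := by positivity
  have hu0 : (0 : ℝ) ≤ u := Nat.cast_nonneg u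
  refine ⟨u, hu1, γ, hγ0, Na + Nb + ⌈Real.exp (Real.exp (6 * M))⌉₊, fun N A hN => ?_⟩
  have n1 : Real.exp (Real.exp (6 * M)) ≤ N := Nat.ceil_le.1 (by omega)
  have hN0 : (0 : ℝ) < N := (Real.exp_pos _).trans_le n1
  have n2 : Real.exp (6 * M) ≤ Real.log N := (Real.le_log_iff_exp_le hN0).2 n1
  have hΛ0 : 0 < Real.log N := (Real.exp_pos _).trans_le n2
  have n3 : 6 * M ≤ Real.log (Real.log N) := (Real.le_log_iff_exp_le hΛ0).2 n2
  have n4 := num (by linarith) n3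
  rw [Real.exp_log hΛ0] at n4
  have x0 : 1 ≤ Real.log (Real.log N) := by linarith
  obtain ⟨B, hB⟩ : ∃ B, B = b * Real.log (Real.log N) := ⟨_, rfl⟩
  obtain ⟨C, hC'⟩ : ∃ C, C = γ * Real.log (Real.log N) := ⟨_, rfl⟩
  have hC := abs_nonneg C
  have hC0 : |C| = γ * Real.log (Real.log N) := by rw [hC']; exact abs_of_nonneg (by positivity)
  obtain ⟨G, hG⟩ : ∃ G, G = 2 * C2 + 144 * C3 + C1 + 2 * |C| := ⟨_, rfl⟩
  have hB1 : B1 ≤ B := by
    have := (div_le_iff₀' hb0).1 (show |B1| / b ≤ Real.log (Real.log N) by linarith)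
    linarith [le_abs_self B1]
  have hB0 : B0 ≤ c * B := by
    have := (div_le_iff₀' (mul_pos hc hb0)).1
      (show |B0| / (c * b) ≤ Real.log (Real.log N) by linarith)
    rw [hB, ← mul_assoc]
    linarith [le_abs_self B0]
  have hB17 : 17 ≤ c * B := by
    rw [hB, ← mul_assoc]
    exact (div_le_iff₀' (mul_pos hc hb0)).1 (by linarith)
  have hBG : G ≤ δ * c * (c * B) / 88 := by
    have := (div_le_iff₀' (show 0 < 2 * γ by linarith)).1
      (show (2 * C2 + 144 * C3 + C1) / (2 * γ) ≤ Real.log (Real.log N) by linarith)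
    have e : δ * c * (c * B) / 88 = 4 * (γ * Real.log (Real.log N)) := by rw [hB, hγ]; ring
    rw [e, hG, hC0]
    linarith
  obtain ⟨μ, m1, m2, m3⟩ := hMass N B (by omega) hB1
    (hB.le.trans (mul_le_of_le_one_left (by linarith) hb1))
  have m4 : (μ : ℝ) ≤ Real.log (Real.log N) ^ 2 / 44000 := by
    refine m2.trans ?_
    rw [hB, div_le_iff₀ hc]
    nlinarith [mul_le_mul_of_nonneg_right hbc (sq_nonneg (Real.log (Real.log N)))]
  have hCx : (|C| + 1) * Real.log (Real.log N) ≤ Real.log N := by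
    refine le_trans ?_ n4
    rw [hC0, sq, ← mul_assoc]
    refine mul_le_mul_of_nonneg_right ?_ (by linarith)
    nlinarith [mul_le_mul_of_nonneg_right (show γ + 1 ≤ M by linarith)
      (show 0 ≤ Real.log (Real.log N) by linarith)]
  rw [show γ * Real.log (Real.log N) ^ 2 = C * Real.log (Real.log N) by rw [hC']; ring]
  clear hB hC' hC0
  have hbox := hBox N μ A (by omega)
  have eN : Real.exp (Real.log N) = N := Real.exp_log hN0
  have eΛ : Real.exp (Real.log (Real.log N)) = Real.log N := Real.exp_log hΛ0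
  have z1 : (ZZ N : ℝ) ≤ 2 / 5 * Real.log N := Nat.floor_le (by linarith)
  have z2 : 2 / 5 * Real.log N < ZZ N + 1 := Nat.lt_floor_add_one _
  have d2 : Real.log N - 6 * Real.log (Real.log N) < DL N + 1 := Nat.lt_floor_add_one _
  have d1 : 0 ≤ Real.log N - 6 * Real.log (Real.log N) →
      (DL N : ℝ) ≤ Real.log N - 6 * Real.log (Real.log N) := fun h => Nat.floor_le h
  have eY : ∀ s : Finset ℕ, 0 < pv s → Real.log (N / pv s) = Real.log N - Real.log (pv s) :=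
    fun s hs => Real.log_div hN0.ne' (by exact_mod_cast hs.ne')
  have n5 : (2 : ℝ) ≤ N := by
    linarith [Real.add_one_le_exp (Real.log N), Real.add_one_le_exp (6 * M)]
  have hp1 := (hPlus N (rt (ZZ N)) n5).2
  generalize Real.log (Real.log N) = x at *
  generalize hΛ : Real.log N = Λ at *
  generalize ZZ N = Z at *
  generalize DL N = Δ at *
  have x1 : 1 ≤ x := by linarith
  have x2 : x ≤ x ^ 2 := le_self_pow₀ x1 two_ne_zero
  have x3 : 648 * x ^ 2 ≤ Λ := le_trans (mul_le_mul_of_nonneg_right (by linarith) (sq_nonneg x)) n4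
  have x4 : M * x ≤ Λ := le_trans (mul_le_mul_of_nonneg_left x2 (by linarith)) n4
  have x5 : M ≤ Λ := le_trans (le_mul_of_one_le_right (by linarith) x1) x4
  replace d1 := d1 (by linarith)
  have μ1 : 17 * x ≤ μ := le_trans (mul_le_mul_of_nonneg_right hB17 (by linarith)) m1
  have μ0 : (0 : ℝ) < μ := by linarith
  have hΔ : Λ / 2 ≤ Δ := by linarith
  have hΔ0 : (0 : ℝ) < Δ := by linarith
  have hE : Real.exp Δ ≤ N / Λ ^ 6 := by
    rw [le_div_iff₀ (by positivity), ← eN, ← eΛ, ← Real.exp_nat_mul, ← Real.exp_add, eΛ]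
    exact Real.exp_le_exp.2 (by push_cast; linarith)
  have hΛ1 : 1 ≤ Λ := by linarith
  have hcmp := hCmp Z Δ A N (SG Λ u Z Δ μ) (by exact_mod_cast (by linarith : (u : ℝ) ≤ Z))
    (hE.trans (div_le_self hN0.le (one_le_pow₀ hΛ1))) fun s hs =>
      ⟨(mem_SG hs).1, (mem_SG hs).2.2.2.2.2.2.1.imp fun p hp => hp.1, (mem_SG hs).2.1,
        (mem_SG hs).2.2.1, fun q _ => anti (by exact_mod_cast μ0) hs q⟩
  refine hcmp.trans (fin (G := G) hN0 (V0_pos u) (V0_le_one u) x1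
    hCx hC1 hC2 hC3 hG.ge
    (hp1 ?_) ?_ ?_ ?_)
  · have h1 : Real.exp Z < rt Z := by
      rw [rt, Nat.cast_add_one]
      exact Nat.lt_floor_add_one _
    refine lt_of_le_of_lt ?_ (pow_lt_pow_left₀ h1 (Real.exp_pos _).le three_ne_zero)
    rw [← eN, ← Real.exp_nat_mul]
    exact Real.exp_le_exp.2 (by push_cast; linarith)
  · have h1 : Real.log Δ ≤ x := by
      rw [Real.log_le_iff_le_exp hΔ0, eΛ]
      linarith
    have h2 : (⌈10 * x⌉₊ : ℝ) < 10 * x + 1 := Nat.ceil_lt_add_one (by linarith)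
    have h3 : Real.exp Δ * (Δ : ℝ) ^ 2 ≤ N := by
      refine (mul_le_mul hE (pow_le_pow_left₀ hΔ0.le (by linarith : (Δ : ℝ) ≤ Λ) 2) (by positivity)
        (by positivity)).trans ?_
      rw [div_mul_eq_mul_div, div_le_iff₀ (by positivity)]
      exact mul_le_mul_of_nonneg_left (pow_le_pow_right₀ hΛ1 (by norm_num)) hN0.le
    refine (hBd Z Δ ⌈10 * x⌉₊ N (18 * x) 1 (by exact_mod_cast (by linarith : (Z : ℝ) ≤ Δ))
      (by linarith) (by rw [mul_pow]; linarith) (le_trans (by linarith) (Nat.le_ceil _)) (by rw [hΛ]; linarith)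
      h3 one_pos le_rfl).1.trans ?_
    rw [div_le_div_iff₀ (by positivity) (by positivity)]
    have h4 : Λ ^ 2 ≤ (2 * Δ : ℝ) ^ 2 := pow_le_pow_left₀ hΛ0.le (by linarith) 2
    linarith [mul_le_mul_of_nonneg_left h4 (by positivity : 0 ≤ 18 * C3 * x * N)]
  · refine Real.sqrt_le_iff.2 ⟨by positivity, (mul_le_mul_of_nonneg_left hE hN0.le).trans
      (le_of_eq ?_)⟩
    field_simp
  · have hV := V0_pos u
    have key : ∀ s ∈ SG Λ u Z Δ μ, δ * N / (88 * V0 u * μ) * (pv s : ℝ)⁻¹ -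
        ((Sf u Z A N s : ℝ) - (2 - δ) * (N / pv s) / (V0 u * (Real.log (N / pv s) - 2))) ≤
        (V0 u * Real.log 2)⁻¹ * SM 1 (N / pv s) (mn s) - Sf u Z A N s := fun s hs => by
      obtain ⟨s1, -, -, s4, s5, -, ⟨p, hp, s7⟩, s8⟩ := mem_SG hs
      have hs' : ∀ p ∈ s, p.Prime := fun p hp => (mem_PR.1 (s1 hp)).1
      have hY : (0 : ℝ) < N / pv s := div_pos hN0 (by exact_mod_cast pv_pos hs')
      have s4' : (Δ : ℝ) ≤ ts s + 43 * μ := by exact_mod_cast s4
      have s5' : (ts s : ℝ) + 37 * μ ≤ Δ := by exact_mod_cast s5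
      have s7' : (tau p : ℝ) ≤ 30 * μ := by exact_mod_cast s7
      rw [← eΛ, Real.log_exp] at s8
      have y1 : 37 * μ ≤ Real.log (N / pv s) := by
        rw [eY s (pv_pos hs')]
        linarith [log_pv_le hs']
      have y2 : Real.log (N / pv s) ≤ 44 * μ := by
        rw [eY s (pv_pos hs')]
        linarith [le_log_pv hs']
      have y3 : (2 : ℝ) ≤ N / pv s := by
        rw [← Real.exp_log hY]
        linarith [Real.add_one_le_exp (Real.log (N / pv s))]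
      have y4 : (mn s : ℝ) ≤ (N / pv s) ^ (9 / 10 : ℝ) := by
        rw [Real.rpow_def_of_pos hY]
        exact (Nat.cast_le.2 (mn_le hp)).trans ((le_exp_tau p).trans
          (Real.exp_le_exp.2 (by linarith)))
      have h := term hδ hδ1 hC2 hV hY (by linarith) y2 ((hPlus _ (mn s) y3).1 y4)
      have e : δ * N / (88 * V0 u * μ) * (pv s : ℝ)⁻¹ = δ / (88 * V0 u * μ) * (N / pv s) := by ring
      linarith
    refine le_trans ?_ (sum_le_sum key)
    rw [sum_sub_distrib, ← mul_sum]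
    have h1 := hbox (le_trans (mul_le_mul_of_nonneg_right hB0 (by linarith)) m1) m4
    have h2 : δ * N / (88 * V0 u * μ) * (c * (μ : ℝ) ^ 2 / Λ ^ 2) ≤
        δ * N / (88 * V0 u * μ) * ∑ s ∈ SG Λ u Z Δ μ, (pv s : ℝ)⁻¹ :=
      mul_le_mul_of_nonneg_left m3 (by positivity)
    have h3 : δ * N / (88 * V0 u * μ) * (c * (μ : ℝ) ^ 2 / Λ ^ 2) =
        δ * c * μ / 88 * N / (V0 u * Λ ^ 2) := by field_simp
    have h4 : G * x ≤ δ * c * μ / 88 := by
      have a1 := mul_le_mul_of_nonneg_right hBG (by linarith : 0 ≤ x)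
      have a2 := mul_le_mul_of_nonneg_left m1 (mul_pos hδ hc).le
      linarith
    have h5 : G * x * N / (V0 u * Λ ^ 2) ≤ δ * c * μ / 88 * N / (V0 u * Λ ^ 2) := by gcongr
    linarith

end Pool.Agent.P.MP_26a8c3_nt.ED
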