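import Pool.Agent.P.MP_26a8c3_nt.ED.Defs
import Pool.Agent.P.MP_26a8c3_nt.EC.PAP
import Pool.Agent.P.MP_26a8c3_nt.QE.Psi

/-! Primes of one window in a residue class, from a zero free half plane. -/

namespace Pool.Agent.P.MP_26a8c3_nt.ED

open Finset EC EC.PAP
open scoped Classical
open scoped ArithmeticFunction.vonMangoldt

lemma ap {E : ℝ} {q : ℕ} [NeZero q] {c : ℤ} (hc : IsCoprime c q) (X : ℕ) (hE : 0 ≤ E)
    (h1 : ∀ χ : DirichletCharacter ℂ q, χ ≠ 1 → ‖∑ n ∈ Icc 1 X, (Λ n : ℂ) * χ n‖ ≤ E) :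
    |∑ n ∈ (Icc 1 X).filter (fun n : ℕ => (q : ℤ) ∣ n - c), Λ n -
      (∑ n ∈ (Icc 1 X).filter (fun n : ℕ => n.Coprime q), Λ n) / q.totient| ≤ E := by
  have hu : IsUnit (c : ZMod q) := (ZMod.coe_int_isUnit_iff_isCoprime c q).2 hc.symm
  have hφ : (0 : ℝ) < q.totient := by exact_mod_cast Nat.totient_pos.2 (NeZero.pos q)
  have e1 : ((q.totient * ∑ n ∈ (Icc 1 X).filter (fun n : ℕ => (q : ℤ) ∣ n - c), Λ n : ℝ) : ℂ) =
      ∑ χ : DirichletCharacter ℂ q, χ (c : ZMod q)⁻¹ * ∑ n ∈ Icc 1 X, (Λ n : ℂ) * χ n := by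
    simp only [mul_sum, sum_filter, Complex.ofReal_sum]
    rw [sum_comm]
    refine sum_congr rfl fun n _ => ?_
    simp only [mul_left_comm _ (Λ n : ℂ), ← mul_sum,
      DirichletCharacter.sum_char_inv_mul_char_eq ℂ hu,
      ← ZMod.intCast_eq_intCast_iff_dvd_sub, Int.cast_natCast]
    split_ifs <;> simp [mul_comm]
  have e2 : (1 : DirichletCharacter ℂ q) (c : ZMod q)⁻¹ *
      ∑ n ∈ Icc 1 X, (Λ n : ℂ) * (1 : DirichletCharacter ℂ q) n =
      ((∑ n ∈ (Icc 1 X).filter (fun n : ℕ => n.Coprime q), Λ n : ℝ) : ℂ) := by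
    rw [MulChar.one_apply (IsUnit.of_mul_eq_one _ (ZMod.inv_mul_of_unit _ hu)), one_mul, sum_filter,
      Complex.ofReal_sum]
    refine sum_congr rfl fun n _ => ?_
    split_ifs with h
    · rw [MulChar.one_apply ((ZMod.isUnit_iff_coprime n q).2 h), mul_one]
    · rw [MulChar.map_nonunit _ fun e => h ((ZMod.isUnit_iff_coprime n q).1 e), mul_zero,
        Complex.ofReal_zero]
  rw [← add_sum_erase _ _ (mem_univ 1), e2, ← sub_eq_iff_eq_add', ← Complex.ofReal_sub] at e1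
  have e3 := congrArg norm e1
  rw [Complex.norm_real, Real.norm_eq_abs] at e3
  rw [← mul_div_cancel_left₀ (∑ n ∈ (Icc 1 X).filter (fun n : ℕ => (q : ℤ) ∣ n - c), Λ n) hφ.ne',
    ← sub_div, abs_div, abs_of_pos hφ, div_le_iff₀' hφ, e3]
  refine (norm_sum_le _ _).trans ((sum_le_card_nsmul _ _ E fun χ hχ => ?_).trans ?_)
  · exact (norm_mul_le _ _).trans ((mul_le_of_le_one_left (norm_nonneg _) (χ.norm_le_one _)).trans
      (h1 χ (ne_of_mem_erase hχ)))
  · rw [nsmul_eq_mul]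
    refine mul_le_mul_of_nonneg_right (Nat.cast_le.2 (card_erase_le.trans_eq ?_)) hE
    rw [card_univ, ← Nat.card_eq_fintype_card,
      DirichletCharacter.card_eq_totient_of_hasEnoughRootsOfUnity ℂ q]

lemma lg_le {q : ℕ} (hq : 1 ≤ q) (X : ℕ) :
    ∑ n ∈ Ioc 0 X, lg (fun n => ¬ n.Coprime q) n ≤ Real.log q := by
  have hp : ∀ p ∈ (Ioc 0 X).filter fun n => n.Prime ∧ ¬ n.Coprime q, p.Prime :=
    fun p h => (mem_filter.1 h).2.1
  have h1 := log_nat_mono (Nat.le_of_dvd hq ((pv_dvd_iff hp q).2 fun p h =>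
    not_not.1 fun e => (mem_filter.1 h).2.2 ((hp p h).coprime_iff_not_dvd.2 e)))
  rw [log_pv hp, sum_filter] at h1
  refine le_trans (le_of_eq (sum_congr rfl fun n _ => ?_)) h1
  unfold lg
  congr

lemma estZ {θ : ℝ} (hθ : θ < 1) (hZ : QE.ZF θ) : ∃ κ C : ℝ, 0 < κ ∧ κ ≤ 1 ∧ 1 ≤ C ∧
    ∀ (t q : ℕ) (c : ℤ), 2 ≤ t → 1 ≤ q → (q : ℝ) ≤ Real.exp t → IsCoprime c (q : ℤ) →
    ∀ X : ℕ, Real.exp (t - 1) < X + 1 → (X : ℝ) ≤ Real.exp t →
      |∑ n ∈ Ioc 0 X, lg (fun n => (q : ℤ) ∣ n - c) n - (X : ℝ) / q.totient| ≤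
        C * Real.exp ((1 - κ) * t) ∧
      |∑ n ∈ Ioc 0 X, lg (fun _ => True) n - (X : ℝ)| ≤ C * Real.exp ((1 - κ) * t) := by
  obtain ⟨κ, C, k0, k1, hC, h1, h2⟩ := QE.psi hθ hZ
  refine ⟨min κ (1 / 4), 2 * C + 24, lt_min k0 (by norm_num), (min_le_left _ _).trans k1,
    by linarith, fun t q c ht hq hqt hc X hX1 hX2 => ?_⟩
  have : NeZero q := ⟨by omega⟩
  have t2 : (2 : ℝ) ≤ t := by exact_mod_cast ht
  have hφ : (1 : ℝ) ≤ q.totient := by exact_mod_cast Nat.totient_pos.2 hq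
  have X1 : 1 ≤ X := by
    have : (0 : ℝ) < X := by linarith [Real.add_one_le_exp ((t : ℝ) - 1)]
    exact_mod_cast this
  have X0 : (0 : ℝ) < X := by exact_mod_cast X1
  set R := Real.exp ((1 - min κ (1 / 4)) * t) with hR
  have r1 : C * Real.exp t ^ (1 - κ) ≤ C * R := by
    rw [← Real.exp_mul]
    exact mul_le_mul_of_nonneg_left (Real.exp_le_exp.2 (by nlinarith [min_le_left κ (1 / 4)])) hC.le
  have r2 : Real.exp (t / 2) * t ≤ 4 * R := by
    have a1 : (t : ℝ) ≤ 4 * Real.exp (t / 4) := by linarith [Real.add_one_le_exp ((t : ℝ) / 4)]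
    refine (mul_le_mul_of_nonneg_left a1 (Real.exp_pos _).le).trans ?_
    rw [mul_left_comm, ← Real.exp_add]
    exact mul_le_mul_of_nonneg_left
      (Real.exp_le_exp.2 (by nlinarith [min_le_right κ (1 / 4)])) (by norm_num)
  have r3 : (t : ℝ) ≤ 4 * R :=
    (le_mul_of_one_le_left (by linarith) (Real.one_le_exp (by linarith))).trans r2
  have r4 : 2 * Real.sqrt X * Real.log X ≤ 8 * R := by
    have a1 : Real.sqrt X ≤ Real.exp (t / 2) := Real.sqrt_le_iff.2 ⟨by positivity, by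
      rwa [sq, ← Real.exp_add, add_halves]⟩
    have a2 := mul_le_mul a1 ((Real.log_le_iff_le_exp X0).2 hX2) (Real.log_natCast_nonneg X)
      (Real.exp_pos _).le
    linarith
  have b1 := ap hc X (by positivity) fun χ hχ => (h1 q χ X _ hχ hqt hX2).trans r1
  have b2 := (h2 X _ (Real.one_le_exp (by linarith)) hX2).trans r1
  have c1 := th_close (fun n => (q : ℤ) ∣ n - c) X1
  have c2 := th_close (fun _ => True) X1
  have c3 := th_close (fun n => ¬ n.Coprime q) X1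
  rw [filter_true] at c2
  have c1' : |∑ n ∈ (Icc 1 X).filter (fun n : ℕ => (q : ℤ) ∣ n - c), Λ n -
      ∑ n ∈ Ioc 0 X, lg (fun n => (q : ℤ) ∣ n - c) n| ≤ 2 * Real.sqrt X * Real.log X := by
    convert c1
  have c3' : |∑ n ∈ (Icc 1 X).filter (fun n : ℕ => ¬ n.Coprime q), Λ n -
      ∑ n ∈ Ioc 0 X, lg (fun n => ¬ n.Coprime q) n| ≤ 2 * Real.sqrt X * Real.log X := by
    convert c3
  have c4 := (lg_le hq X).trans ((Real.log_le_iff_le_exp (by exact_mod_cast hq)).2 hqt)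
  have c5 := sum_filter_add_sum_filter_not (Icc 1 X) (fun n : ℕ => n.Coprime q) fun n => Λ n
  have c6 : 0 ≤ ∑ n ∈ (Icc 1 X).filter (fun n : ℕ => ¬ n.Coprime q), Λ n :=
    sum_nonneg fun _ _ => ArithmeticFunction.vonMangoldt_nonneg
  have c7 : |(∑ n ∈ (Icc 1 X).filter (fun n : ℕ => n.Coprime q), Λ n) / q.totient -
      (X : ℝ) / q.totient| ≤ C * R + 12 * R := by
    rw [← sub_div, abs_div, abs_of_pos (show (0 : ℝ) < q.totient by linarith)]
    refine (div_le_self (abs_nonneg _) hφ).trans ?_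
    rw [abs_le] at b2 c3' ⊢
    constructor <;> linarith [b2.1, b2.2, c3'.2]
  have CR : 0 ≤ C * R := by positivity
  rw [abs_le] at b1 b2 c1' c2 c7
  constructor <;> rw [abs_le] <;> constructor <;>
    linarith [b1.1, b1.2, b2.1, b2.2, c1'.1, c1'.2, c2.1, c2.2, c7.1, c7.2]

theorem qPAP {θ : ℝ} (hθ : θ < 1) (hZ : QE.ZF θ) : T_PAP := by
  obtain ⟨κ, C, k0, k1, hC, h⟩ := estZ hθ hZ
  refine ⟨κ, 4 * C, k0, by linarith, fun t q c α β ht hq hqB hc hab => ?_⟩
  have t2 : (2 : ℝ) ≤ t := by exact_mod_cast ht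
  have e1 := set_eq (t := t) (by omega) α β (fun p => (q : ℤ) ∣ p - c)
  have e2 : ((PR t t).filter fun p : ℕ => α < p ∧ (p : ℝ) ≤ β) =
      (Ioc ⌊cl (Real.exp (t - 1)) α⌋₊ ⌊cl (Real.exp (t - 1)) β⌋₊).filter
        fun p => p.Prime ∧ True := by
    rw [← set_eq (t := t) (by omega) α β (fun _ => True)]
    simp only [and_true]
  rw [e1, e2, om, div_one, div_one]
  have hP := Real.exp_pos ((t : ℝ) - 1)
  have heP : Real.exp 1 * Real.exp ((t : ℝ) - 1) = Real.exp t := by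
    rw [← Real.exp_add, add_sub_cancel]
  set a := cl (Real.exp (t - 1)) α with ha
  set b := cl (Real.exp (t - 1)) β with hb
  have hab' : a ≤ b := min_le_min le_rfl (max_le_max le_rfl hab)
  have hPa : Real.exp ((t : ℝ) - 1) ≤ a :=
    le_min (le_mul_of_one_le_left hP.le (Real.one_le_exp zero_le_one)) (le_max_left _ _)
  have hbe : b ≤ Real.exp t := heP ▸ min_le_left _ _
  set M := ⌊a⌋₊ with hM
  set N := ⌊b⌋₊ with hN
  have hMN : M ≤ N := Nat.floor_mono hab'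
  have hNb : (N : ℝ) ≤ b := Nat.floor_le (by linarith)
  have hMa : a < M + 1 := Nat.lt_floor_add_one a
  have hφ : (1 : ℝ) ≤ q.totient := by exact_mod_cast Nat.totient_pos.2 hq
  have R1 : 1 ≤ Real.exp ((1 - κ) * t) := Real.one_le_exp (mul_nonneg (by linarith) (by linarith))
  set R := Real.exp ((1 - κ) * t) with hR
  have R0 : 0 ≤ R := by positivity
  have hom : 0 ≤ (b - a) / ((t : ℝ) - 1) := div_nonneg (by linarith) (by linarith)
  have CR : 0 ≤ C * R := by positivity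
  have hE := h t q c ht hq hqB hc
  have hE' : ∀ k, M ≤ k → k ≤ N →
      |∑ n ∈ Ioc 0 k, lg (fun n => (q : ℤ) ∣ n - c) n - (k : ℝ) / q.totient| ≤ C * R ∧
      |∑ n ∈ Ioc 0 k, lg (fun _ => True) n - (k : ℝ)| ≤ C * R := fun k h1 h2 => by
    have h1' : (M : ℝ) ≤ k := by exact_mod_cast h1
    have h2' : (k : ℝ) ≤ N := by exact_mod_cast h2
    exact hE k (by linarith) (by linarith)
  have hlog : ∀ n : ℕ, M < n → (t : ℝ) - 1 ≤ Real.log n := fun n hn => by
    have h1 : (M : ℝ) + 1 ≤ n := by exact_mod_cast hn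
    exact (Real.le_log_iff_exp_le (by linarith)).2 (by linarith)
  have hsub : ∀ (s : ℕ → Prop) k, M ≤ k → ∑ n ∈ Ioc M k, lg s n =
      ∑ n ∈ Ioc 0 k, lg s n - ∑ n ∈ Ioc 0 M, lg s n := fun s k hk => by
    rw [← sum_Ioc_consecutive _ (Nat.zero_le M) hk]
    ring
  constructor
  · rw [card_eq, card_eq, sum_div, ← sum_sub_distrib]
    have hW : ∀ k, M ≤ k → k ≤ N →
        |∑ n ∈ Ioc 0 k, lg (fun n => (q : ℤ) ∣ n - c) n -
          (∑ n ∈ Ioc 0 k, lg (fun _ => True) n) / q.totient| ≤ 2 * (C * R) := fun k h1 h2 => by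
      obtain ⟨u1, u2⟩ := hE' k h1 h2
      have u3 : |(∑ n ∈ Ioc 0 k, lg (fun _ => True) n) / q.totient - (k : ℝ) / q.totient| ≤
          C * R := by
        rw [← sub_div, abs_div, abs_of_pos (show (0 : ℝ) < q.totient by linarith)]
        exact (div_le_self (abs_nonneg _) hφ).trans u2
      rw [abs_le] at u1 u3 ⊢
      constructor <;> linarith [u1.1, u1.2, u3.1, u3.2]
    have key := abel' (fun n => lg (fun n => (q : ℤ) ∣ n - c) n - lg (fun _ => True) n / q.totient)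
      (fun n => (Real.log n)⁻¹) (4 * (C * R)) (M := M) (N := N)
      (fun n hn => inv_anti₀ (by linarith [hlog n hn]) (log_nat_mono (Nat.le_succ n)))
      (inv_nonneg.2 (Real.log_natCast_nonneg _)) hMN fun k h1 h2 => by
        rw [sum_sub_distrib, ← sum_div, hsub _ k h1, hsub _ k h1, sub_div]
        have u1 := hW k h1 h2
        have u2 := hW M le_rfl hMN
        rw [abs_le] at u1 u2 ⊢
        constructor <;> linarith [u1.1, u1.2, u2.1, u2.2]
    have hf1 : (Real.log ((M + 1 : ℕ) : ℝ))⁻¹ ≤ 1 :=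
      inv_le_one_of_one_le₀ (by linarith [hlog (M + 1) (Nat.lt_succ_self M)])
    have hk2 := mul_le_mul_of_nonneg_left hf1 (show 0 ≤ 4 * (C * R) by linarith)
    rw [sum_congr rfl fun n _ => show lg (fun n => (q : ℤ) ∣ n - c) n * (Real.log n)⁻¹ -
      lg (fun _ => True) n * (Real.log n)⁻¹ / q.totient =
      (lg (fun n => (q : ℤ) ∣ n - c) n - lg (fun _ => True) n / q.totient) * (Real.log n)⁻¹ by
        ring]
    nlinarith
  · rw [card_eq]
    have h1 : ∑ n ∈ Ioc M N, lg (fun _ => True) n * (Real.log n)⁻¹ ≤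
        (∑ n ∈ Ioc M N, lg (fun _ => True) n) / ((t : ℝ) - 1) := by
      rw [sum_div]
      refine sum_le_sum fun n hn => ?_
      rw [div_eq_mul_inv]
      refine mul_le_mul_of_nonneg_left
        (inv_anti₀ (by linarith) (hlog n (mem_Ioc.1 hn).1)) ?_
      unfold lg
      split_ifs
      · exact Real.log_natCast_nonneg n
      · exact le_rfl
    have h2 : ∑ n ∈ Ioc M N, lg (fun _ => True) n ≤ (b - a) + 3 * (C * R) := by
      rw [hsub _ N hMN]
      have u1 := (abs_le.1 (hE' N hMN le_rfl).2).2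
      have u2 := (abs_le.1 (hE' M le_rfl hMN).2).1
      nlinarith
    have h3 : (∑ n ∈ Ioc M N, lg (fun _ => True) n) / ((t : ℝ) - 1) ≤
        (b - a) / ((t : ℝ) - 1) + 3 * (C * R) := by
      refine (div_le_div_of_nonneg_right h2 (by linarith)).trans ?_
      rw [add_div]
      have := div_le_self (show 0 ≤ 3 * (C * R) by linarith) (show (1 : ℝ) ≤ t - 1 by linarith)
      linarith
    nlinarith

end Pool.Agent.P.MP_26a8c3_nt.ED
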