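import Pool.Agent.P.MP_26a8c3_nt.ED.Defs
import Pool.Agent.P.MP_26a8c3_nt.EC.Par

/-! A scale that carries a positive share of the even nodes. -/

namespace Pool.Agent.P.MP_26a8c3_nt.ED

open Finset EC EC.Par
open scoped Classical

lemma largeP (E : ℝ) : ∃ Λ0 : ℝ, ∀ Λ : ℝ, Λ0 ≤ Λ → E ≤ Real.log Λ ∧ E * Real.log Λ ^ 4 ≤ Λ := by
  refine Filter.eventually_atTop.1 ?_
  filter_upwards [Real.tendsto_log_atTop.eventually_ge_atTop E, evl E 4 one_pos] with Λ a1 a2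
  exact ⟨a1, by rwa [Real.rpow_one] at a2⟩

lemma numP {B u C q ll Λ : ℝ} (hB : 18 ≤ B) (hB' : B ≤ ll) (u0 : 0 ≤ u) (C0 : 0 ≤ C) (q0 : 0 ≤ q)
    (g1 : 8 + 3 * u + 4 * C + q ≤ ll) (g2 : (8 + 3 * u + 4 * C + q) * ll ^ 4 ≤ Λ) :
    1 ≤ ll ∧ 3 * u ≤ Λ ∧ 18 * ll ≤ B * ll ∧ 144 * (B * ll) ≤ Λ ∧
      (B * ll + 18 * ll) ^ 2 ≤ Λ / 2 ∧ 4 * C ≤ ll ∧ q ≤ ll := by
  have l1 : 1 ≤ ll := by linarith
  have l2 : 1 ≤ ll ^ 4 := one_le_pow₀ l1
  have l3 : 8 * ll ^ 4 ≤ Λ := le_trans (mul_le_mul_of_nonneg_right (by linarith) (by linarith)) g2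
  have l4 : 3 * u * 1 ≤ (8 + 3 * u + 4 * C + q) * ll ^ 4 :=
    mul_le_mul (by linarith) l2 (by norm_num) (by linarith)
  have k0 : 18 * ll ≤ B * ll := mul_le_mul_of_nonneg_right hB (by linarith)
  have k1 : (B * ll) ^ 2 ≤ ll ^ 4 := (pow_le_pow_left₀ (by linarith)
    (mul_le_mul_of_nonneg_right hB' (by linarith)) 2).trans_eq (by ring)
  have k2 : 18 * (B * ll) ≤ B * ll * (B * ll) :=
    mul_le_mul_of_nonneg_right (by linarith) (by linarith)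
  have k3 : (B * ll + 18 * ll) ^ 2 ≤ (2 * (B * ll)) ^ 2 :=
    pow_le_pow_left₀ (by linarith) (by linarith) 2
  refine ⟨l1, by linarith, k0, by nlinarith, by nlinarith, by linarith, by linarith⟩

theorem qPar (hModId : S_ModId) (hPlus : S_Plus) (hMinus : S_Minus) (hBd : S_Bd) : T_Par := by
  obtain ⟨u1, hBd⟩ := hBd
  set u := max u1 1 with hu
  obtain ⟨C, hC, hBd⟩ := hBd u (le_max_left _ _)
  obtain ⟨C1, hC1, hM⟩ := hModId u (le_max_right _ _)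
  obtain ⟨C2, hC2, hP⟩ := hPlus
  obtain ⟨ε, hε⟩ : ∃ ε : ℝ, ε = 1 / (32 * (C + 1)) := ⟨_, rfl⟩
  have he : 0 < ε := by rw [hε]; positivity
  have he1 : ε ≤ 1 := by
    rw [hε, div_le_one (by positivity)]
    linarith
  obtain ⟨Λ0, hL⟩ := largeP (8 + 3 * u + 4 * (3 * C2 + 2 * C1 + 4 * C) + 10200 / ε)
  refine ⟨ε ^ 6 / 10200, by positivity, 18, ⌈Real.exp Λ0⌉₊, fun N B hN hB hB' => ?_⟩
  have hN1 : Real.exp Λ0 ≤ N := Nat.ceil_le.1 hN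
  have hN0 : (0 : ℝ) < N := (Real.exp_pos _).trans_le hN1
  obtain ⟨g1, g2⟩ := hL _ ((Real.le_log_iff_exp_le hN0).2 hN1)
  obtain ⟨Λ, hΛ⟩ : ∃ Λ, Λ = Real.log N := ⟨_, rfl⟩
  obtain ⟨ll, hll⟩ : ∃ ll, ll = Real.log Λ := ⟨_, rfl⟩
  have eZ : ZZ N = ⌊2 / 5 * Λ⌋₊ := by rw [hΛ, ZZ]
  have eD : DL N = ⌊Λ - 6 * ll⌋₊ := by rw [hll, hΛ, DL]
  rw [← hΛ, ← hll] at g1 g2 hB' ⊢
  have eN : (N : ℝ) = Real.exp Λ := by rw [hΛ, Real.exp_log hN0]
  obtain ⟨l1, l4, k0, k2, k3, k4, k5⟩ := numP hB hB' (Nat.cast_nonneg u) (by positivity)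
    (by positivity) g1 g2
  obtain ⟨κ, hκ⟩ : ∃ κ, κ = B * ll := ⟨_, rfl⟩
  rw [← hκ] at k0 k2 k3
  clear g1 g2 hL hN1
  have hΛ0 : 0 < Λ := by linarith
  have z1 : (ZZ N : ℝ) ≤ 2 / 5 * Λ := by rw [eZ]; exact Nat.floor_le (by positivity)
  have z2 : 2 / 5 * Λ < ZZ N + 1 := by rw [eZ]; exact Nat.lt_floor_add_one _
  have d1 : (DL N : ℝ) ≤ Λ - 6 * ll := by rw [eD]; exact Nat.floor_le (by linarith)
  have d2 : Λ - 6 * ll < DL N + 1 := by rw [eD]; exact Nat.lt_floor_add_one _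
  have uZ : u ≤ ZZ N := by rw [eZ]; exact Nat.le_floor (by linarith)
  have ZD : ZZ N ≤ DL N := by exact_mod_cast (by linarith : (ZZ N : ℝ) ≤ DL N)
  have e6 : Real.exp (DL N) ≤ N / Λ ^ 6 := by
    refine (Real.exp_le_exp.2 d1).trans (le_of_eq ?_)
    rw [Real.exp_sub, ← eN, hll, show (6 : ℝ) = (6 : ℕ) by norm_num, Real.exp_nat_mul,
      Real.exp_log hΛ0]
  obtain ⟨X, hX⟩ : ∃ X, X = Real.exp (Λ + κ) := ⟨_, rfl⟩
  have hX0 : 0 < X := by rw [hX]; exact Real.exp_pos _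
  have lX : Real.log X = Λ + κ := by rw [hX, Real.log_exp]
  have NX : (N : ℝ) ≤ X := by rw [hX, eN]; exact Real.exp_le_exp.2 (by linarith)
  have N2 : (2 : ℝ) ≤ N := by
    rw [eN]
    linarith [Real.add_one_le_exp Λ]
  have eDN : Real.exp (DL N) ≤ N := by rw [eN]; exact Real.exp_le_exp.2 (by linarith)
  have r1 : (rt (ZZ N) : ℝ) ≤ (N : ℝ) ^ (9 / 10 : ℝ) := by
    have a1 : (rt (ZZ N) : ℝ) ≤ Real.exp (ZZ N) + 1 := by
      rw [rt]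
      push_cast
      linarith [Nat.floor_le (Real.exp_pos (ZZ N)).le]
    have a2 : Real.exp (ZZ N) ≤ Real.exp (2 / 5 * Λ) := Real.exp_le_exp.2 z1
    have a3 : 1 ≤ Real.exp (2 / 5 * Λ) := Real.one_le_exp (by positivity)
    have a4 : 2 ≤ Real.exp (1 / 2 * Λ) := by linarith [Real.add_one_le_exp (1 / 2 * Λ)]
    rw [eN, ← Real.exp_mul, show Λ * (9 / 10) = 2 / 5 * Λ + 1 / 2 * Λ by ring, Real.exp_add]
    have a5 := mul_le_mul_of_nonneg_left a4 (Real.exp_pos (2 / 5 * Λ)).le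
    linarith
  have r2 : X < (rt (ZZ N) : ℝ) ^ 3 := by
    have a1 : Real.exp (ZZ N) < rt (ZZ N) := by
      rw [rt]
      push_cast
      exact Nat.lt_floor_add_one _
    refine lt_of_le_of_lt ?_ (pow_lt_pow_left₀ a1 (Real.exp_pos _).le (by norm_num))
    rw [← Real.exp_nat_mul, hX]
    refine Real.exp_le_exp.2 ?_
    push_cast
    linarith
  have m1 := abs_le.1 (hM (ZZ N) (DL N) N uZ eDN)
  have m2 := abs_le.1 (hM (ZZ N) (DL N) X uZ (eDN.trans NX))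
  have s1 := mul_le_mul_of_nonneg_left (sqrt_le hN0.le hΛ0 e6) hC1.le
  have s2 := mul_le_mul_of_nonneg_left (sqrt_le hX0.le hΛ0
    (e6.trans (div_le_div_of_nonneg_right NX (by positivity)))) hC1.le
  have p1 := (hP N (rt (ZZ N)) N2).1 r1
  have p2 := (hP X (rt (ZZ N)) (N2.trans NX)).2 r2
  rw [← hΛ] at p1
  rw [lX] at p2
  have b0 := Bd_nonneg hMinus u (ZZ N) (DL N) hN0.le
  have lo := low (g := V0 u * Real.log 2 * GT u (ZZ N) (DL N)) (D := Bd u (ZZ N) (DL N) X)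
    (by linarith : 1 ≤ Λ) (by linarith : 0 ≤ κ) (by linarith) hC1.le hC2.le hN0 hX0
    (by linarith [m1.1]) (by linarith [m2.2])
  have D0 : (1 : ℝ) ≤ DL N := by linarith
  have lD : Real.log (DL N) ≤ ll := by
    rw [hll]
    exact Real.log_le_log (by linarith) (by linarith)
  have lD0 : 0 ≤ Real.log (DL N) := Real.log_nonneg D0
  have hi := (hBd (ZZ N) (DL N) ⌈10 * Real.log (DL N)⌉₊ X (κ + 18 * ll) ε ZD (by linarith)
    (by linarith) (Nat.le_ceil _) (by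
      have := Nat.ceil_lt_add_one (show 0 ≤ 10 * Real.log (DL N) by positivity)
      linarith) (by
      have a1 : (DL N : ℝ) ^ 2 ≤ Λ ^ 6 := (pow_le_pow_left₀ (by linarith) (by linarith) 2).trans
        (pow_le_pow_right₀ (by linarith : 1 ≤ Λ) (by norm_num))
      have a2 := (le_div_iff₀ (by positivity)).1 e6
      exact ((mul_le_mul_of_nonneg_left a1 (Real.exp_pos _).le).trans a2).trans NX) he he1).2
  obtain ⟨K, hK⟩ : ∃ K, K = κ + 18 * ll := ⟨_, rfl⟩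
  rw [← hK] at hi
  have S0 : 0 ≤ ∑ l ∈ Icc ⌈ε * K⌉₊ ⌊3 * K / ε⌋₊, RR (DL N) 0 l ((l + 2) / 3) :=
    sum_nonneg fun l _ => RR_nonneg _ _ _ _
  have hS := Par.up hΛ0 (by linarith) (by linarith : κ ≤ K) (by linarith) hC hε hX0
    (by linarith) S0 (by linarith) lo hi
  have a1 : ε * κ ≤ ⌈ε * K⌉₊ :=
    (mul_le_mul_of_nonneg_left (by linarith) he.le).trans (Nat.le_ceil _)
  have a2 : (⌊3 * K / ε⌋₊ : ℝ) ≤ 6 * κ / ε :=
    (Nat.floor_le (div_nonneg (by linarith) he.le)).trans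
      (div_le_div_of_nonneg_right (by linarith) he.le)
  have a3 : 10200 ≤ ⌈ε * K⌉₊ := by
    have : 10200 / ε ≤ κ := by linarith
    rw [div_le_iff₀ he] at this
    exact_mod_cast (by linarith : (10200 : ℝ) ≤ ⌈ε * K⌉₊)
  have hκ0 : 0 < κ := by linarith
  have a4 : ⌈ε * K⌉₊ ≤ ⌊3 * K / ε⌋₊ := by
    by_contra hc
    rw [Icc_eq_empty hc, sum_empty] at hS
    exact absurd hS (not_le.2 (by positivity))
  obtain ⟨μ, c1, c2, c3⟩ := cover (fun l => RR (DL N) 0 l ((l + 2) / 3))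
    (fun l => RR_nonneg _ _ _ _) a3 a4
  refine ⟨μ, ?_⟩
  rw [mul_assoc _ B, ← hκ]
  exact Par.fin he he1 hκ0 hΛ0 (Nat.cast_nonneg μ) (by exact_mod_cast (by omega)) a1 a2
    (by exact_mod_cast c1.le) (by exact_mod_cast c2) hS c3

end Pool.Agent.P.MP_26a8c3_nt.ED
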