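import Pool.Agent.P.MP_26a8c3_nt.ED.Defs
import Pool.Agent.P.MP_26a8c3_nt.EC.Rig

/-! Rigidity. -/

namespace Pool.Agent.P.MP_26a8c3_nt.ED

open Finset EC EC.Rig
open scoped Classical

theorem qRig (hTriv : S_Triv) (hHM : T_HM) (hCol : T_Col) (hHt : T_Ht) : T_Rig := by
  intro u th hu hSv
  by_cases hth : 0 < th ∧ th ≤ 1 / 1000
  swap
  · exact ⟨0, fun t1 M A B Λ L P2 T R W2 E1 E2 _ _ hC => absurd ⟨hC.th0, hC.th1⟩ hth⟩
  obtain ⟨h0, h1⟩ := hth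
  obtain ⟨La, hLa⟩ := hTriv u (th ^ 2 / 10000) hu (by positivity)
  obtain ⟨Lb, hLb⟩ := hSv
  obtain ⟨Λ1, hΛ1⟩ := hHM th h0 h1
  obtain ⟨Λ2, hΛ2⟩ := hCol th (24 * th / 10000) (by positivity) (by linarith)
  obtain ⟨Λ3, hΛ3⟩ := hHt th
  refine ⟨max (max (max La Lb) (max Λ1 Λ2)) (max Λ3 (max (2 ^ 100) (64 / th))), ?_⟩
  intro t1 M A B Λ L P2 T R W2 E1 E2 hΛ hB hC hS hsum
  simp only [max_le_iff] at hΛ
  obtain ⟨⟨⟨ka, kb⟩, k1, k2⟩, k3, k4, k5⟩ := hΛ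
  have Λ2' : (2 : ℝ) ≤ Λ := le_trans (by norm_num) k4
  have Λ1' : (1 : ℝ) ≤ Λ := by linarith
  have hΛL : Λ ≤ L := by
    have a1 : Λ ≤ Λ ^ 40 := le_self_pow₀ Λ1' (by norm_num)
    have a2 : L ^ th ≤ L := by
      conv_rhs => rw [← Real.rpow_one L]
      exact Real.rpow_le_rpow_of_exponent_le hC.L0 (by linarith)
    linarith [hC.L1]
  have hL1 : 1 < L := by linarith
  have hEa : ∀ e ∈ E1 ∪ E2, 0 < e ∧ (e : ℝ) ≤ Real.exp Λ ∧ Nat.Coprime e (PP u L) := fun e he =>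
    ⟨(hS.Ea e he).1, (hS.Ea e he).2.1.trans ((hB.pow_le (r := 1) Λ1' (by norm_num)).trans_eq
      (by rw [Real.rpow_one])), (hS.Ea e he).2.2⟩
  have cs0 : 0 < cs u L := inv_pos.2 (mul_pos (V0_pos u) (Real.log_pos hL1))
  have e10 : (0 : ℝ) < E1.card := by linarith [hS.c1]
  have e20 : (0 : ℝ) < E2.card := by linarith [hS.c2]
  set W := PR t1 t1 ×ˢ W2 with hW
  set Yv : ℕ × ℕ → ℕ → ℕ → ℝ := fun d e1 e2 => T / ((d.1 * d.2 * (e1 * e2) : ℕ) : ℝ) with hYv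
  set Ys : ℕ × ℕ → ℝ := fun d => ∑ e1 ∈ E1, ∑ e2 ∈ E2, Yv d e1 e2 with hYs
  set Cn : ℕ × ℕ → ℝ := fun d => ∑ e1 ∈ E1, ∑ e2 ∈ E2,
    cnt u L (A / (d.1 * d.2 * (e1 * e2))) (Yv d e1 e2) with hCn
  have hlen : ∀ d ∈ W, ∀ e1 ∈ E1, ∀ e2 ∈ E2, L ≤ Yv d e1 e2 ∧ Yv d e1 e2 ≤ 3 * L :=
    fun d hd e1 h1 e2 h2 => hS.len d.1 (mem_product.1 hd).1 d.2 (mem_product.1 hd).2 e1 h1 e2 h2
  have csum : ∀ y : ℝ, ∑ _e1 ∈ E1, ∑ _e2 ∈ E2, y = y * E1.card * E2.card := fun y => by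
    simp only [sum_const, nsmul_eq_mul]
    ring
  set G := W.filter fun d => (2 - th / 4) * cs u L * Ys d ≤ Cn d with hG
  have hGW : G ⊆ W := filter_subset _ _
  have hWc : (W.card : ℝ) = (PR t1 t1).card * W2.card := by
    rw [hW, card_product]
    push_cast
    ring
  have hGc : (1 - 24 * th / 10000) * ((PR t1 t1).card * W2.card) ≤ (G.card : ℝ) := by
    rw [← hWc]
    refine few_bad W Cn Ys (K := L * E1.card * E2.card) cs0 (by positivity) rfl h0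
      (fun d hd => ⟨?_, ?_⟩) (fun d hd => ?_) ?_
    · rw [← csum]
      exact sum_le_sum fun e1 h1 => sum_le_sum fun e2 h2 => (hlen d hd e1 h1 e2 h2).1
    · have : 3 * (L * E1.card * E2.card) = 3 * L * E1.card * E2.card := by ring
      rw [this, ← csum]
      exact sum_le_sum fun e1 h1 => sum_le_sum fun e2 h2 => (hlen d hd e1 h1 e2 h2).2
    · simp only [hYs, hCn, mul_sum]
      refine sum_le_sum fun e1 h1 => sum_le_sum fun e2 h2 => ?_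
      have := hlen d hd e1 h1 e2 h2
      exact hLa L _ _ (by linarith) this.1 (by linarith [this.2])
    · rw [hW, sum_product, sum_product]
      exact hsum
  set code : ℕ × ℕ → ℕ × ℕ := fun d => ((A / (d.1 * d.2)) % M, fi (FF Λ) d.1) with hcode
  have hcc : ∀ G' ⊆ G, ((G'.image code).card : ℝ) ≤ Xi Λ := fun G' hG' =>
    (code_card Λ1' t1 M A hS.M0 W2 G' (hG'.trans hGW)).trans
      (le_trans (mul_le_mul_of_nonneg_right hS.M1 (by positivity)) (num1 k4))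
  have hHMo : HMo u th L A G code := by
    intro S hSG hcd hSc
    have Sne : S.Nonempty := by
      have : (0 : ℝ) < S.card := lt_of_lt_of_le (by positivity) hSc
      exact card_pos.1 (Nat.cast_pos.1 this)
    have ne : (S ×ˢ E1 ×ˢ E2).Nonempty :=
      Sne.product ((card_pos.1 (Nat.cast_pos.1 e10)).product (card_pos.1 (Nat.cast_pos.1 e20)))
    obtain ⟨z, hz, hmax⟩ := exists_max_image (S ×ˢ E1 ×ˢ E2) (fun z => Yv z.1 z.2.1 z.2.2) ne
    obtain ⟨j, f1, f2⟩ := z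
    simp only [mem_product] at hz
    obtain ⟨hj, hf1, hf2⟩ := hz
    set Y := Yv j f1 f2 with hY
    have hjW := hGW (hSG hj)
    have hYl := hlen j hjW f1 hf1 f2 hf2
    obtain ⟨c, hc⟩ := hLb L Y (by linarith) hYl.1 (by linarith [hYl.2])
    refine hΛ1 u M Λ L Y c E1 E2 S (fun d => A / (d.1 * d.2)) k1 hC.L0 hC.L1 hc hEa hS.c1 hS.c2
      (fun e1 h1 e2 h2 => (hS.dv e1 h1 e2 h2).1)
      (fun a ha b hb => congrArg Prod.fst (hcd a ha b hb)) (fun i hi => ?_) hSc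
    have hiW := hGW (hSG hi)
    set κ := (Λ ^ 3)⁻¹ with hκ
    have κ0 : 0 < κ := by positivity
    have pos : ∀ d ∈ W, ∀ e1 ∈ E1, ∀ e2 ∈ E2,
        (0 : ℝ) < d.1 ∧ (0 : ℝ) < d.2 ∧ (0 : ℝ) < ((e1 * e2 : ℕ) : ℝ) := fun d hd e1 h1 e2 h2 =>
      ⟨by exact_mod_cast (mem_PR.1 (mem_product.1 hd).1).1.pos,
        by exact_mod_cast (hC.W2a _ (mem_product.1 hd).2).1.pos,
        by exact_mod_cast Nat.mul_pos (hS.Ea e1 (mem_union_left _ h1)).1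
            (hS.Ea e2 (mem_union_right _ h2)).1⟩
    have cast : ∀ (d : ℕ × ℕ) (e : ℕ), ((d.1 * d.2 * e : ℕ) : ℝ) = (d.1 : ℝ) * d.2 * e :=
      fun d e => by push_cast; ring
    obtain ⟨j1, j2, j3⟩ := pos j hjW f1 hf1 f2 hf2
    have T0 : 0 ≤ T := by
      by_contra hn
      have : Y ≤ 0 := div_nonpos_of_nonpos_of_nonneg (not_le.1 hn).le (Nat.cast_nonneg _)
      linarith [hYl.1]
    have low : ∀ e1 ∈ E1, ∀ e2 ∈ E2, Y * (1 - 3 * κ) ≤ Yv i e1 e2 := by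
      intro e1 h1 e2 h2
      obtain ⟨i1, i2, i3⟩ := pos i hiW e1 h1 e2 h2
      refine ratio T0 (by rw [cast]; positivity) (by rw [cast]; positivity) κ0.le ?_
      have r1 : (i.1 : ℝ) ≤ j.1 * (1 + κ) :=
        fi_close Λ2' (by exact_mod_cast i1) (by exact_mod_cast j1)
          (congrArg Prod.snd (hcd i hi j hj))
      have r2 : (i.2 : ℝ) ≤ j.2 * (1 + κ) :=
        (hC.W2a _ (mem_product.1 hiW).2).2.2.1.trans
          (mul_le_mul_of_nonneg_right (hC.W2a _ (mem_product.1 hjW).2).2.1 (by linarith))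
      have r3 : ((e1 * e2 : ℕ) : ℝ) ≤ ((f1 * f2 : ℕ) : ℝ) * (1 + κ) :=
        (hS.dv e1 h1 e2 h2).2.2.trans
          (mul_le_mul_of_nonneg_right (hS.dv f1 hf1 f2 hf2).2.1 (by linarith))
      rw [cast, cast]
      calc (i.1 : ℝ) * i.2 * ((e1 * e2 : ℕ) : ℝ)
          ≤ (j.1 * (1 + κ)) * (j.2 * (1 + κ)) * (((f1 * f2 : ℕ) : ℝ) * (1 + κ)) := by gcongr
        _ = _ := by ring
    have s1 : Y * (1 - 3 * κ) * E1.card * E2.card ≤ Ys i := by
      rw [← csum]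
      exact sum_le_sum fun e1 h1 => sum_le_sum fun e2 h2 => low e1 h1 e2 h2
    have s2 : (2 - th / 4) * cs u L * Ys i ≤ Cn i := (mem_filter.1 (hSG hi)).2
    have s3 : Cn i ≤ ∑ e1 ∈ E1, ∑ e2 ∈ E2, cnt u L (A / (i.1 * i.2) / (e1 * e2)) Y := by
      refine sum_le_sum fun e1 h1 => sum_le_sum fun e2 h2 => ?_
      rw [Nat.div_div_eq_div_mul]
      exact cnt_mono u L _ (hmax (i, e1, e2) (by simp only [mem_product]; exact ⟨hi, h1, h2⟩))
    have s4 := num2 u h0 k5 Λ1' hL1 hC.L1 hYl.1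
    have s5 : 64 * κ ≤ th := by
      have a1 : Λ ≤ Λ ^ 3 := le_self_pow₀ Λ1' (by norm_num)
      have a2 : κ ≤ Λ⁻¹ := inv_anti₀ (by linarith) a1
      have a3 : 64 * Λ⁻¹ ≤ th := by
        rw [← div_eq_mul_inv, div_le_iff₀ (by linarith)]
        rw [div_le_iff₀ h0] at k5
        linarith
      linarith
    have cY : 0 ≤ cs u L * Y := mul_nonneg cs0.le (by linarith [hYl.1])
    have s6 : (2 - th / 2) * cs u L * Y + L ^ (1 - th) ≤
        (2 - th / 4) * cs u L * (Y * (1 - 3 * κ)) := by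
      have a1 : 2 - th / 2 + th / 8 ≤ (2 - th / 4) * (1 - 3 * κ) := by nlinarith [mul_pos h0 κ0]
      have a2 := mul_le_mul_of_nonneg_right a1 cY
      nlinarith
    have s7 : (2 - th / 4) * cs u L * (Y * (1 - 3 * κ) * E1.card * E2.card) ≤
        (2 - th / 4) * cs u L * Ys i :=
      mul_le_mul_of_nonneg_left s1 (mul_nonneg (by linarith) cs0.le)
    calc _ ≤ (2 - th / 4) * cs u L * (Y * (1 - 3 * κ)) * E1.card * E2.card := by gcongr
      _ = (2 - th / 4) * cs u L * (Y * (1 - 3 * κ) * E1.card * E2.card) := by ring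
      _ ≤ _ := s7.trans (s2.trans s3)
  obtain ⟨x, hx, hb, G', hG', hG'c, hsing⟩ :=
    hΛ2 u t1 A B Λ L P2 W2 G code k2 hB hC hGW hGc (hcc G Subset.rfl) hHMo
  obtain ⟨v1, v2⟩ := hΛ3 u t1 A B Λ L P2 W2 G' code x k3 hB hC (hG'.trans hGW) hG'c (hcc G' hG')
    (hHMo.mono hG') hx hsing
  refine ⟨x.1, x.2, hx.1, hx.2.1, v1, v2, hb.trans ?_⟩
  exact mul_le_mul_of_nonneg_right (by linarith) (by positivity)

end Pool.Agent.P.MP_26a8c3_nt.ED
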