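import Pool.Agent.P.MP_26a8c3_nt.EC.All
import Pool.Agent.P.MP_26a8c3_nt.ED.Bias
import Pool.Agent.P.MP_26a8c3_nt.ED.HM
import Pool.Agent.P.MP_26a8c3_nt.ED.List
import Pool.Agent.P.MP_26a8c3_nt.ED.Col
import Pool.Agent.P.MP_26a8c3_nt.ED.Ht
import Pool.Agent.P.MP_26a8c3_nt.ED.Rig
import Pool.Agent.P.MP_26a8c3_nt.ED.Bil
import Pool.Agent.P.MP_26a8c3_nt.ED.CaseA
import Pool.Agent.P.MP_26a8c3_nt.ED.PAP
import Pool.Agent.P.MP_26a8c3_nt.ED.Fix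
import Pool.Agent.P.MP_26a8c3_nt.ED.CaseB
import Pool.Agent.P.MP_26a8c3_nt.ED.KP
import Pool.Agent.P.MP_26a8c3_nt.ED.Box1
import Pool.Agent.P.MP_26a8c3_nt.ED.Box
import Pool.Agent.P.MP_26a8c3_nt.ED.Par
import Pool.Agent.P.MP_26a8c3_nt.ED.Mass
import Pool.Agent.P.MP_26a8c3_nt.ED.Main0
import Pool.Agent.P.MP_26a8c3_nt.ED.Main

/-! Assembly: the gain `c (log log) ^ 2` from primes in progressions. -/

namespace Pool.Agent.P.MP_26a8c3_nt.ED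

open EC

theorem kp_of (h : T_PAP) : T_KP :=
  qKP aTriv aSv (qRig aTriv (qHM qBias) (qCol aPi aPair qList) (qHt aPi aPair))
    (qCaseA aPi (qBil aKS)) (qCaseB aPi (qFix h) aHall aEul)

theorem main_of_kp (h : T_KP) : T_Main :=
  qMain (qMain0 aCmp aPlus aBd (qMass (qPar aModId aPlus aMinus aBd) aGc aBad1 aBad3)
    (qBox aSel aInv aFib aDec (qBox1 aSel h)))

/-- A zero free half plane gives the gain `c (log log) ^ 2`. -/
theorem main_of_zf {θ : ℝ} (hθ : θ < 1) (hZ : QE.ZF θ) : T_Main :=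
  main_of_kp (kp_of (qPAP hθ hZ))

end Pool.Agent.P.MP_26a8c3_nt.ED
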