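import Pool.Agent.P.MP_26a8c3_nt.EC.Base

/-! Interface statements for the gain `c (log log) ^ 2`. The objects are those of the earlier
development; the exponent `B` may now grow with `Λ`. -/

namespace Pool.Agent.P.MP_26a8c3_nt.ED

open Finset EC
open scoped Classical
open Hyb (ee)

/-- The exponent is small compared with the scale. -/
def Sm (B Λ : ℝ) : Prop := B * Real.log Λ ≤ Λ ^ (1 / 50 : ℝ)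

def T_Par : Prop := ∃ c : ℝ, 0 < c ∧ ∃ (B1 : ℝ) (N0 : ℕ), ∀ (N : ℕ) (B : ℝ), N0 ≤ N → B1 ≤ B →
  B ≤ Real.log (Real.log N) →
  ∃ μ : ℕ, c * B * Real.log (Real.log N) ≤ μ ∧ (μ : ℝ) ≤ B * Real.log (Real.log N) / c ∧
    c * (μ : ℝ) ^ 2 / Real.log N ^ 2 ≤ ∑ l ∈ Ico (100 * μ) (102 * μ), RR (DL N) 0 l ((l + 2) / 3)

def T_Mass : Prop := ∃ c : ℝ, 0 < c ∧ ∃ B1 : ℝ, ∀ u : ℕ, ∃ N0 : ℕ, ∀ (N : ℕ) (B : ℝ), N0 ≤ N →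
  B1 ≤ B → B ≤ Real.log (Real.log N) →
  ∃ μ : ℕ, c * B * Real.log (Real.log N) ≤ μ ∧ (μ : ℝ) ≤ B * Real.log (Real.log N) / c ∧
    c * (μ : ℝ) ^ 2 / Real.log N ^ 2 ≤ ms (SG (Real.log N) u (ZZ N) (DL N) μ)

def T_Box1 : Prop := ∃ u1 : ℕ, ∀ u : ℕ, u1 ≤ u → ∃ δ B0 : ℝ, 0 < δ ∧ δ ≤ 1 ∧
  ∃ Λ0 : ℝ, ∀ (Λ T : ℝ) (k μ t1 j2 A : ℕ) (ω1 ω2 : Finset ℕ),
    Λ0 ≤ Λ → B0 * Real.log Λ ≤ μ → 88 * (μ : ℝ) ≤ k * Real.log Λ →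
    (3 : ℝ) ^ k ≤ Λ ^ (1 / 200 : ℝ) → Disjoint ω1 ω2 → ω1.card = k →
    ω2.card = k → (t1 : ℝ) ≤ Λ →
    (∀ j ∈ ω1 ∪ ω2, (Λ ^ 9)⁻¹ ≤ rc (fw (FF Λ) j) ∧
      ∀ p ∈ fw (FF Λ) j, 28 * μ ≤ tau p ∧ tau p ≤ 3 ^ k * (43 * μ)) →
    (Λ ^ 9)⁻¹ ≤ rc (fw (FF Λ) j2) →
    (∀ p ∈ fw (FF Λ) j2, Λ ^ (3 / 5 : ℝ) ≤ (tau p : ℝ) ∧ tau p < t1) →
    (∀ p1 ∈ PR t1 t1, ∀ p2 ∈ fw (FF Λ) j2, ∀ ρ1 ∈ Sel (fw (FF Λ)) ω1, ∀ ρ2 ∈ Sel (fw (FF Λ)) ω2,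
      Real.exp (37 * μ) ≤ T / ((p1 * p2 * (pv ρ1 * pv ρ2) : ℕ) : ℝ) ∧
        T / ((p1 * p2 * (pv ρ1 * pv ρ2) : ℕ) : ℝ) ≤ Real.exp (44 * μ)) →
    ∑ p1 ∈ PR t1 t1, ∑ p2 ∈ fw (FF Λ) j2, ∑ ρ1 ∈ Sel (fw (FF Λ)) ω1, ∑ ρ2 ∈ Sel (fw (FF Λ)) ω2,
      ((cop (pv (PR u (28 * μ - 1))) (A / (p1 * p2 * (pv ρ1 * pv ρ2)))
          (A / (p1 * p2 * (pv ρ1 * pv ρ2)) + ⌊T / ((p1 * p2 * (pv ρ1 * pv ρ2) : ℕ) : ℝ)⌋₊ + 1) : ℝ) -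
        (2 - δ) * (T / ((p1 * p2 * (pv ρ1 * pv ρ2) : ℕ) : ℝ)) /
          (V0 u * (Real.log (T / ((p1 * p2 * (pv ρ1 * pv ρ2) : ℕ) : ℝ)) - 2))) ≤ 0

def T_Box : Prop := ∃ u1 : ℕ, ∀ u : ℕ, u1 ≤ u → ∃ δ B0 : ℝ, 0 < δ ∧ δ ≤ 1 ∧
  ∃ N0 : ℕ, ∀ N μ A : ℕ, N0 ≤ N → B0 * Real.log (Real.log N) ≤ μ →
    (μ : ℝ) ≤ Real.log (Real.log N) ^ 2 / 44000 →
    ∑ s ∈ SG (Real.log N) u (ZZ N) (DL N) μ, ((Sf u (ZZ N) A N s : ℝ) -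
      (2 - δ) * (N / pv s) / (V0 u * (Real.log (N / pv s) - 2))) ≤ 0

def T_Main0 : Prop := ∃ u : ℕ, 1 ≤ u ∧ ∃ c : ℝ, 0 < c ∧ ∃ N0 : ℕ, ∀ N A : ℕ, N0 ≤ N →
  (cop (pv (PR u (ZZ N))) A (A + N) : ℝ) ≤
    2 * N / (V0 u * (Real.log N + c * Real.log (Real.log N) ^ 2))

def T_Main : Prop := ∃ c : ℝ, 0 < c ∧ ∃ t₀ : ℝ, ∀ (k : ℕ) (l : ℤ) (x y : ℝ), 1 ≤ k →
  t₀ ≤ y / (k : ℝ) →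
  (({p : ℕ | p.Prime ∧ x - y < (p : ℝ) ∧ (p : ℝ) ≤ x ∧
      (p : ℤ) ≡ l [ZMOD (k : ℤ)]}.ncard : ℕ) : ℝ) <
    2 * y / ((Nat.totient k : ℝ) *
      (Real.log (y / (k : ℝ)) + c * Real.log (Real.log (y / (k : ℝ))) ^ 2))

def T_Bias : Prop := ∀ th : ℝ, 0 < th → th ≤ 1 / 1000 → ∃ Λ0 : ℝ,
  ∀ (Λ L : ℝ) (E1 E2 Q : Finset ℕ) (D : ℤ) (hh : ℕ → ℤ), Λ0 ≤ Λ → 1 ≤ L → Λ ^ 40 ≤ L ^ th →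
    (∀ e ∈ E1 ∪ E2, 0 < e ∧ (e : ℝ) ≤ Real.exp Λ) → L ≤ (E1.card : ℝ) → L ≤ (E2.card : ℝ) →
    (∀ e1 ∈ E1, ∀ e2 ∈ E2, ((e1 * e2 : ℕ) : ℤ) ∣ D) →
    (∀ q ∈ Q, Squarefree q ∧ (q : ℝ) ≤ L ^ (1 + th) ∧ (∀ e ∈ E1 ∪ E2, Nat.Coprime e q) ∧
      ∃ p : ℕ, p.Prime ∧ p ∣ q ∧ L ^ (20 * th) ≤ (p : ℝ) ∧ ¬ (p : ℤ) ∣ hh q * D) →
    ∑ q ∈ Q, ‖∑ e1 ∈ E1, ∑ e2 ∈ E2, ee (((hh q * (D / ((e1 * e2 : ℕ) : ℤ)) : ℤ) : ℝ) / q)‖ ≤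
      L ^ (1 - 6 * th) * E1.card * E2.card

def T_HM : Prop := ∀ th : ℝ, 0 < th → th ≤ 1 / 1000 → ∃ Λ0 : ℝ,
  ∀ (u M : ℕ) (Λ L Y : ℝ) (c : ℕ → ℤ → ℂ) (E1 E2 : Finset ℕ) (S : Finset (ℕ × ℕ)) (a : ℕ × ℕ → ℕ),
    Λ0 ≤ Λ → 1 ≤ L → Λ ^ 40 ≤ L ^ th → SvOK u th L Y c →
    (∀ e ∈ E1 ∪ E2, 0 < e ∧ (e : ℝ) ≤ Real.exp Λ ∧ Nat.Coprime e (PP u L)) →
    L ≤ (E1.card : ℝ) → L ≤ (E2.card : ℝ) → (∀ e1 ∈ E1, ∀ e2 ∈ E2, e1 * e2 ∣ M) →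
    (∀ i ∈ S, ∀ j ∈ S, a i ≡ a j [MOD M]) →
    (∀ i ∈ S, ((2 - th / 2) * cs u L * Y + L ^ (1 - th)) * E1.card * E2.card ≤
      ∑ e1 ∈ E1, ∑ e2 ∈ E2, cnt u L (a i / (e1 * e2)) Y) →
    8 * L ^ (6 * th) ≤ (S.card : ℝ) →
    ∃ i ∈ S, ∃ j ∈ S, i ≠ j ∧ L ^ (-(6 * th)) / 4 ≤ ag u th L ((a i : ℤ) - (a j : ℤ))

def T_List : Prop := ∀ th : ℝ, 0 < th → ∃ Λ0 : ℝ,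
  ∀ (u A : ℕ) (B Λ L : ℝ) (X : Finset (ℤ × ℤ)), Λ0 ≤ Λ → Sm B Λ → 1 ≤ L → Λ ^ 40 ≤ L ^ th →
    L ≤ Λ ^ B → (∀ x ∈ X, Pop u th Λ L A x) → (X.card : ℝ) ≤ L ^ (8 * th)

def T_Col : Prop := ∀ th ε : ℝ, 0 < ε → ε ≤ 1 / 40 → ∃ Λ0 : ℝ,
  ∀ (u t1 A : ℕ) (B Λ L P2 : ℝ) (W2 : Finset ℕ) (G : Finset (ℕ × ℕ)) (code : ℕ × ℕ → ℕ × ℕ),
    Λ0 ≤ Λ → Sm B Λ → Cx th B Λ L P2 t1 W2 → G ⊆ PR t1 t1 ×ˢ W2 →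
    (1 - ε) * ((PR t1 t1).card * W2.card) ≤ (G.card : ℝ) → ((G.image code).card : ℝ) ≤ Xi Λ →
    HMo u th L A G code → ∃ x : ℤ × ℤ, Pop u th Λ L A x ∧
      ((((PR t1 t1 ×ˢ W2).filter fun a => ¬ ((a.1 * a.2 : ℕ) : ℤ) ∣ x.2 * A - x.1).card : ℝ) ≤
        8 * ε * ((PR t1 t1).card * W2.card)) ∧
      ∃ G' ⊆ G, ((PR t1 t1).card * W2.card : ℝ) / 4 ≤ G'.card ∧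
        ∀ a ∈ G', ∀ x' : ℤ × ℤ, Pop u th Λ L A x' → (a.1 : ℤ) ∣ x'.2 * A - x'.1 → x' = x

def T_Ht : Prop := ∀ th : ℝ, ∃ Λ0 : ℝ,
  ∀ (u t1 A : ℕ) (B Λ L P2 : ℝ) (W2 : Finset ℕ) (G : Finset (ℕ × ℕ)) (code : ℕ × ℕ → ℕ × ℕ)
    (x : ℤ × ℤ), Λ0 ≤ Λ → Sm B Λ → Cx th B Λ L P2 t1 W2 → G ⊆ PR t1 t1 ×ˢ W2 →
    ((PR t1 t1).card * W2.card : ℝ) / 4 ≤ G.card → ((G.image code).card : ℝ) ≤ Xi Λ →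
    HMo u th L A G code → Pop u th Λ L A x →
    (∀ a ∈ G, ∀ x' : ℤ × ℤ, Pop u th Λ L A x' → (a.1 : ℤ) ∣ x'.2 * A - x'.1 → x' = x) →
    (x.2 : ℝ) ≤ Xi Λ ^ 2 ∧ |(x.1 : ℝ)| ≤ x.2 * (Real.exp t1 * P2) * Xi Λ ^ 2

def T_Rig : Prop := ∀ (u : ℕ) (th : ℝ), 1 ≤ u → SvAll u th → ∃ Λ0 : ℝ,
  ∀ (t1 M A : ℕ) (B Λ L P2 T R : ℝ) (W2 E1 E2 : Finset ℕ), Λ0 ≤ Λ → Sm B Λ →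
    Cx th B Λ L P2 t1 W2 → Sx u B Λ L T R t1 M W2 E1 E2 →
    (2 - th ^ 2 / 10000) * cs u L * ∑ p1 ∈ PR t1 t1, ∑ p2 ∈ W2, ∑ e1 ∈ E1, ∑ e2 ∈ E2,
        T / ((p1 * p2 * (e1 * e2) : ℕ) : ℝ) ≤
      ∑ p1 ∈ PR t1 t1, ∑ p2 ∈ W2, ∑ e1 ∈ E1, ∑ e2 ∈ E2,
        cnt u L (A / (p1 * p2 * (e1 * e2))) (T / ((p1 * p2 * (e1 * e2) : ℕ) : ℝ)) →
    ∃ a v : ℤ, IsCoprime a v ∧ 1 ≤ v ∧ (v : ℝ) ≤ Xi Λ ^ 2 ∧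
      |(a : ℝ)| ≤ v * (Real.exp t1 * P2) * Xi Λ ^ 2 ∧
      (((PR t1 t1 ×ˢ W2).filter fun b => ¬ ((b.1 * b.2 : ℕ) : ℤ) ∣ v * A - a).card : ℝ) ≤
        th / 50 * ((PR t1 t1).card * W2.card)

def T_Bil : Prop := ∀ th : ℝ, ∃ Λ0 : ℝ,
  ∀ (t1 q : ℕ) (B Λ L P2 T : ℝ) (W2 W1 : Finset ℕ) (a v E h : ℤ) (z : ℕ → ℕ → ℤ), Λ0 ≤ Λ →
    Sm B Λ → Cx th B Λ L P2 t1 W2 → Len L T t1 W2 → IsCoprime E v → 1 ≤ v → (v : ℝ) ≤ Xi Λ ^ 3 →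
    |(a : ℝ)| ≤ v * T * Xi Λ ^ 3 → (L ^ (20 * th) ≤ (v : ℝ) ∨ v * T * L ^ (20 * th) ≤ |(a : ℝ)|) →
    h ≠ 0 → |(h : ℝ)| ≤ L ^ (4 * th) → L ^ (1 - th) ≤ (q : ℝ) → (q : ℝ) ≤ L ^ (1 + th) →
    W1 ⊆ PR t1 t1 → (∀ p1 ∈ W1, ∀ p2 ∈ W2, v * q ∣ (p1 * p2 : ℤ) * z p1 p2 - E) →
    ‖∑ p1 ∈ W1, ∑ p2 ∈ W2,
      ee ((h : ℝ) * z p1 p2 / (v * q) + (h : ℝ) * a / (v * q * (p1 * p2)))‖ ≤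
      L ^ (-(3 * th)) * (Real.exp t1 * P2)

def T_CaseA : Prop := ∀ (u : ℕ) (th : ℝ), 1 ≤ u → SvAll u th → ∃ Λ0 : ℝ,
  ∀ (t1 A : ℕ) (B Λ L P2 T : ℝ) (W2 : Finset ℕ) (a v : ℤ), Λ0 ≤ Λ → Sm B Λ →
    Cx th B Λ L P2 t1 W2 →
    Len L T t1 W2 → IsCoprime a v → 1 ≤ v → (v : ℝ) ≤ Xi Λ ^ 3 → |(a : ℝ)| ≤ v * T * Xi Λ ^ 3 →
    (L ^ (20 * th) ≤ (v : ℝ) ∨ v * T * L ^ (20 * th) ≤ |(a : ℝ)|) →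
    ∑ p1 ∈ PR t1 t1, ∑ p2 ∈ W2, cx u L A T a v (p1 * p2) ≤
      (2 - th / 4) * cs u L * ∑ p1 ∈ PR t1 t1, ∑ p2 ∈ W2, T / ((p1 * p2 : ℕ) : ℝ)

def T_PAP : Prop := ∃ κ C : ℝ, 0 < κ ∧ 0 < C ∧ ∀ (t q : ℕ) (c : ℤ) (α β : ℝ), 2 ≤ t → 1 ≤ q →
  (q : ℝ) ≤ Real.exp t → IsCoprime c (q : ℤ) → α ≤ β →
    |(((PR t t).filter fun p : ℕ => α < p ∧ (p : ℝ) ≤ β ∧ (q : ℤ) ∣ p - c).card : ℝ) -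
        (((PR t t).filter fun p : ℕ => α < p ∧ (p : ℝ) ≤ β).card : ℝ) / Nat.totient q| ≤
      C * Real.exp ((1 - κ) * t) ∧
    (((PR t t).filter fun p : ℕ => α < p ∧ (p : ℝ) ≤ β).card : ℝ) ≤
      om (Real.exp (t - 1)) α β 1 / (t - 1) + C * Real.exp ((1 - κ) * t)

def T_Fix : Prop := ∀ ε : ℝ, 0 < ε → ∃ Λ0 : ℝ,
  ∀ (u t1 v p2 : ℕ) (B Λ L α β : ℝ) (E m : ℤ), 2 ≤ u → Λ0 ≤ Λ → Sm B Λ → 1 ≤ L → L ≤ Λ ^ B →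
    Λ ^ (3 / 5 : ℝ) ≤ (t1 : ℝ) → 1 ≤ v → (v : ℝ) ≤ L → IsCoprime E (v : ℤ) → m ≠ 0 → p2.Prime →
    L < p2 → α ≤ β →
    (((PR t1 t1).filter fun p1 : ℕ => α < (p1 : ℝ) * m.natAbs ∧ (p1 : ℝ) * m.natAbs ≤ β ∧
        (v : ℤ) ∣ p1 * p2 * m + E ∧ ∀ p ∈ PPs u L, ¬ ((v * p : ℕ) : ℤ) ∣ p1 * p2 * m + E).card : ℝ) ≤
      (1 + ε) * om (Real.exp (t1 - 1)) α β m.natAbs / (t1 * Nat.totient v) * VE u L E *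
        GM u L v E m.natAbs + Real.exp t1 / ((t1 : ℝ) ^ 2 * L ^ 2)

def T_CaseB : Prop := ∃ u1 : ℕ, ∀ u : ℕ, u1 ≤ u → ∀ th : ℝ, ∃ Λ0 : ℝ,
  ∀ (t1 A : ℕ) (B Λ L P2 T : ℝ) (W2 : Finset ℕ) (a v : ℤ), Λ0 ≤ Λ → Sm B Λ →
    Cx th B Λ L P2 t1 W2 →
    Len L T t1 W2 → IsCoprime a v → 1 ≤ v → (v : ℝ) ≤ L ^ (20 * th) →
    |(a : ℝ)| ≤ v * T * L ^ (20 * th) →
    ∑ p1 ∈ PR t1 t1, ∑ p2 ∈ W2, cx u L A T a v (p1 * p2) ≤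
      19 / 10 * cs u L * ∑ p1 ∈ PR t1 t1, ∑ p2 ∈ W2, T / ((p1 * p2 : ℕ) : ℝ)

def T_KP : Prop := ∃ u1 : ℕ, ∀ u : ℕ, u1 ≤ u → ∃ δ th : ℝ, 0 < δ ∧ δ ≤ 1 ∧ 0 < th ∧ th ≤ 1 / 1000 ∧
  ∃ Λ0 : ℝ, ∀ (t1 M A : ℕ) (B Λ L P2 T R : ℝ) (W2 E1 E2 : Finset ℕ), Λ0 ≤ Λ → Sm B Λ →
    Cx th B Λ L P2 t1 W2 → Sx u B Λ L T R t1 M W2 E1 E2 →
    ∑ p1 ∈ PR t1 t1, ∑ p2 ∈ W2, ∑ e1 ∈ E1, ∑ e2 ∈ E2,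
        cnt u L (A / (p1 * p2 * (e1 * e2))) (T / ((p1 * p2 * (e1 * e2) : ℕ) : ℝ)) ≤
      (2 - δ) * cs u L * ∑ p1 ∈ PR t1 t1, ∑ p2 ∈ W2, ∑ e1 ∈ E1, ∑ e2 ∈ E2,
        T / ((p1 * p2 * (e1 * e2) : ℕ) : ℝ)

lemma Sm.le {B Λ r : ℝ} (h : Sm B Λ) (h1 : 1 ≤ Λ) (hr : 1 / 50 ≤ r) :
    B * Real.log Λ ≤ Λ ^ r :=
  le_trans h (Real.rpow_le_rpow_of_exponent_le h1 hr)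

lemma Sm.pow_le {B Λ r : ℝ} (h : Sm B Λ) (h1 : 1 ≤ Λ) (hr : 1 / 50 ≤ r) :
    Λ ^ B ≤ Real.exp (Λ ^ r) := by
  rw [Real.rpow_def_of_pos (by linarith), mul_comm]
  exact Real.exp_le_exp.2 (h.le h1 hr)

/-- A multiple of a power is eventually below a higher power. -/
lemma evp (K : ℝ) {r s : ℝ} (h : r < s) : ∀ᶠ Λ : ℝ in Filter.atTop, K * Λ ^ r ≤ Λ ^ s := by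
  filter_upwards [(tendsto_rpow_atTop (sub_pos.2 h)).eventually_ge_atTop K,
    Filter.eventually_gt_atTop 0] with Λ a1 a2
  rw [show s = s - r + r by ring, Real.rpow_add a2]
  exact mul_le_mul_of_nonneg_right a1 (Real.rpow_nonneg a2.le _)

/-- A multiple of a power of the logarithm is eventually below a power. -/
lemma evl (K : ℝ) (n : ℕ) {s : ℝ} (h : 0 < s) :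
    ∀ᶠ Λ : ℝ in Filter.atTop, K * Real.log Λ ^ n ≤ Λ ^ s := by
  have h1 := ((isLittleO_log_rpow_rpow_atTop (n : ℝ) h).const_mul_left K).bound one_pos
  filter_upwards [h1, Filter.eventually_gt_atTop 0] with Λ a1 a2
  rw [one_mul, Real.norm_of_nonneg (Real.rpow_nonneg a2.le _), Real.rpow_natCast] at a1
  exact (le_abs_self _).trans a1

end Pool.Agent.P.MP_26a8c3_nt.ED
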