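import Pool.Agent.P.MP_26a8c3_nt.ED.Defs
import Pool.Agent.P.MP_26a8c3_nt.EC.Fix

/-! The sieve for a fixed cofactor. -/

namespace Pool.Agent.P.MP_26a8c3_nt.ED

open Finset EC EC.Fix
open scoped Classical

lemma big2 (n : ℕ) (M C : ℝ) {κ : ℝ} (hκ : 0 < κ) : ∃ Λ0 : ℝ, ∀ B Λ L t : ℝ, Λ0 ≤ Λ →
    Sm B Λ → 1 ≤ L → L ≤ Λ ^ B → Λ ^ (3 / 5 : ℝ) ≤ t → M ≤ t ∧ ∃ z : ℕ, 2 ≤ z ∧ L ≤ z ∧
      (z : ℝ) ^ n ≤ Real.exp t ∧ 4 * C * t ^ 2 * (z : ℝ) ^ n ≤ Real.exp (κ * t) := by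
  have h1 : ∀ᶠ t : ℝ in Filter.atTop, M ≤ t ∧ 1 ≤ t ∧ 3 * n * t ^ (1 / 2 : ℝ) ≤ t ∧
      6 * n / κ * t ^ (1 / 2 : ℝ) ≤ t ∧ 4 * C * t ^ 2 ≤ Real.exp (κ * t / 2) := by
    filter_upwards [Filter.eventually_ge_atTop M, Filter.eventually_ge_atTop 1,
      evp (3 * n) (show (1 / 2 : ℝ) < 1 by norm_num),
      evp (6 * n / κ) (show (1 / 2 : ℝ) < 1 by norm_num),
      Filter.eventually_ge_atTop (192 * C / κ ^ 3)] with t a1 a2 a3 a4 a5
    rw [Real.rpow_one] at a3 a4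
    refine ⟨a1, a2, a3, a4, le_trans ?_ (Real.pow_div_factorial_le_exp _ (by positivity) 3)⟩
    rw [div_le_iff₀ (by positivity)] at a5
    have a6 := mul_le_mul_of_nonneg_right a5 (sq_nonneg t)
    norm_num [Nat.factorial]
    nlinarith
  obtain ⟨Λ0, h⟩ := Filter.eventually_atTop.1
    (((tendsto_rpow_atTop (show (0 : ℝ) < 3 / 5 by norm_num)).eventually
      (Filter.eventually_forall_ge_atTop.2 h1)).and (Filter.eventually_ge_atTop 1))
  refine ⟨Λ0, fun B Λ L t hΛ hB hL1 hL ht => ?_⟩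
  obtain ⟨a0, l1⟩ := h Λ hΛ
  obtain ⟨a1, a2, a3, a4, a5⟩ := a0 t ht
  have s1 : 1 ≤ t ^ (1 / 2 : ℝ) := Real.one_le_rpow a2 (by norm_num)
  have s2 : L ≤ Real.exp (t ^ (1 / 2 : ℝ)) := by
    refine hL.trans ((hB.pow_le (r := 3 / 5 * (1 / 2)) l1 (by norm_num)).trans
      (Real.exp_le_exp.2 ?_))
    rw [Real.rpow_mul (by linarith)]
    exact Real.rpow_le_rpow (by positivity) ht (by norm_num)
  have s3 : ((⌈L⌉₊ + 1 : ℕ) : ℝ) ≤ Real.exp (3 * t ^ (1 / 2 : ℝ)) := by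
    have b1 := Nat.ceil_lt_add_one (show 0 ≤ L by linarith)
    have b2 := Real.add_one_le_exp (2 * t ^ (1 / 2 : ℝ))
    rw [show 3 * t ^ (1 / 2 : ℝ) = 2 * t ^ (1 / 2 : ℝ) + t ^ (1 / 2 : ℝ) by ring, Real.exp_add]
    push_cast
    nlinarith
  have s4 : ((⌈L⌉₊ + 1 : ℕ) : ℝ) ^ n ≤ Real.exp (3 * n * t ^ (1 / 2 : ℝ)) :=
    (pow_le_pow_left₀ (Nat.cast_nonneg _) s3 n).trans_eq (by
      rw [← Real.exp_nat_mul]; congr 1; ring)
  refine ⟨a1, ⌈L⌉₊ + 1, ?_, ?_, s4.trans (Real.exp_le_exp.2 a3), ?_⟩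
  · have := Nat.ceil_pos.2 (show 0 < L by linarith)
    omega
  · push_cast
    linarith [Nat.le_ceil L]
  · rw [← add_halves (κ * t), Real.exp_add]
    refine mul_le_mul a5 (s4.trans (Real.exp_le_exp.2 ?_)) (by positivity) (by positivity)
    rw [div_mul_eq_mul_div, div_le_iff₀ hκ] at a4
    linarith

theorem qFix (hPAP : T_PAP) : T_Fix := by
  intro ε hε
  obtain ⟨C₁, hC₁, hsv⟩ := sieveR
  set e : ℝ := min ε 1 / 3 with he
  have he0 : 0 < e := by positivity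
  have he1 : e ≤ 1 := by linarith [min_le_right ε 1]
  have he2 : 3 * e ≤ ε := by linarith [min_le_left ε 1]
  obtain ⟨k, hk⟩ := pow_unbounded_of_one_lt (C₁ / e) (one_lt_two (α := ℝ))
  have hk' : C₁ / 2 ^ k ≤ e := by
    rw [div_lt_iff₀ he0] at hk
    rw [div_le_iff₀ (by positivity)]
    linarith
  obtain ⟨κ, C, hκ, hC, hp⟩ := hPAP
  obtain ⟨Λ0, hbig⟩ := big2 (4 * k + 10) (2 + 2 / e) C hκ
  refine ⟨Λ0, ?_⟩
  intro u t v p2 B Λ L α β E m hu hΛ hB hL1 hL ht hv hvL hE hm hp2 hLp hαβ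
  have h2e : 0 < 2 / e := by positivity
  obtain ⟨ht1, z, hz2, hz, z1, z2⟩ := hbig B Λ L t hΛ hB hL1 hL ht
  have ht3 : (2 : ℝ) ≤ t := by linarith
  have ht4 : 2 ≤ t := by exact_mod_cast ht3
  have hG : 0 ≤ Real.exp t / ((t : ℝ) ^ 2 * L ^ 2) := by positivity
  by_cases hgood : Nat.Coprime m.natAbs v ∧ ∀ p ∈ PPs u L, (p : ℤ) ∣ E → ¬ p ∣ m.natAbs
  swap
  · rw [GM, if_neg hgood, mul_zero, zero_add, filter_false_of_mem, card_empty, Nat.cast_zero]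
    · exact hG
    · exact fun x _ hx => hgood (good hE hx.2.2.1 hx.2.2.2)
  have hμ : (0 : ℝ) < m.natAbs := by exact_mod_cast Int.natAbs_pos.2 hm
  have hab : α / m.natAbs ≤ β / m.natAbs := div_le_div_of_nonneg_right hαβ hμ.le
  have hz1 : (1 : ℝ) ≤ z := hL1.trans hz
  have hpL : ∀ p ∈ PPs u L, (p : ℝ) ≤ L := fun p hp =>
    ((mem_PPs (by linarith)).1 hp).2.2.trans (by
      simpa using Real.rpow_le_rpow_of_exponent_le hL1 (show (3 / 5 : ℝ) ≤ 1 by norm_num))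
  have hφ : (1 : ℝ) ≤ Nat.totient v := by exact_mod_cast Nat.totient_pos.2 hv
  set P := (PPs u L).filter (fun p : ℕ => ¬ (p : ℤ) ∣ E ∧ ¬ p ∣ m.natAbs) with hP
  have hP3 : ∀ p ∈ P, 3 ≤ p := fun p hp => three_le hu (by linarith) (mem_filter.1 hp).1
  have hPp : ∀ p ∈ P, p.Prime := fun p hp => PPs_prime p (mem_filter.1 hp).1
  set N : ℝ := (((PR t t).filter fun p : ℕ => α / m.natAbs < p ∧ (p : ℝ) ≤ β / m.natAbs).card : ℝ)
    with hN
  have hN0 : 0 ≤ N := Nat.cast_nonneg _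
  set R : ℝ := C * Real.exp ((1 - κ) * t) with hR
  have hR0 : 0 ≤ R := by positivity
  refine (hsv ((PR t t).filter fun p : ℕ => α / m.natAbs < p ∧ (p : ℝ) ≤ β / m.natAbs ∧
    (v : ℤ) ∣ p * p2 * m + E) _ P z k (fun x p => ((v * p : ℕ) : ℤ) ∣ x * p2 * m + E) (g v)
    (N / Nat.totient v) R hz2 (by positivity) hR0
    (fun p hp => ⟨hPp p hp, by exact_mod_cast (hpL p (mem_filter.1 hp).1).trans hz⟩)
    (fun p hp => (g_bd v (hP3 p hp)).1) (fun T hT hle S' hS' => ?_) fun x hx => ?_).trans ?_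
  · have hTp : ∀ p ∈ T, p.Prime := fun p hp => hPp p (hT hp)
    have c1 : Nat.Coprime (p2 * m.natAbs) (v * pv T) := by
      refine Nat.Coprime.mul_left (Nat.Coprime.mul_right ?_ ?_) (hgood.1.mul_right ?_)
      · exact (Nat.coprime_of_lt_prime (by omega) (by exact_mod_cast hvL.trans_lt hLp) hp2)
      · refine (coprime_pv hTp _).2 fun p hp hd => ?_
        have := (hpL p (mem_filter.1 (hT hp)).1).trans_lt hLp
        rw [(Nat.prime_dvd_prime_iff_eq (hTp p hp) hp2).1 hd] at this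
        exact lt_irrefl _ this
      · exact (coprime_pv hTp _).2 fun p hp => (mem_filter.1 (hT hp)).2.2
    have c2 : IsCoprime ((p2 : ℤ) * m) ((v * pv T : ℕ) : ℤ) := by
      rw [Int.isCoprime_iff_gcd_eq_one, Int.gcd, Int.natAbs_mul, Int.natAbs_natCast,
        Int.natAbs_natCast]
      exact c1
    have c3 : IsCoprime E ((v * pv T : ℕ) : ℤ) := by
      rw [Nat.cast_mul]
      refine hE.mul_right ?_
      rw [Int.isCoprime_iff_gcd_eq_one, Int.gcd, Int.natAbs_natCast]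
      exact (coprime_pv hTp _).2 fun p hp hd =>
        (mem_filter.1 (hT hp)).2.1 (Int.natCast_dvd.2 hd)
    obtain ⟨c, hc, hcl⟩ := cls c2 c3
    have hq : ((v * pv T : ℕ) : ℝ) ≤ Real.exp t := by
      have hvz : v ≤ z := by exact_mod_cast hvL.trans hz
      have h1 : v * pv T ≤ z ^ (4 * k + 10) := (Nat.mul_le_mul hvz hle).trans (by
        rw [← pow_succ']
        exact Nat.pow_le_pow_right (by omega) (by omega))
      exact le_trans (by exact_mod_cast h1) z1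
    have h1 := (hp t (v * pv T) c _ _ ht4 (Nat.mul_pos hv (pv_pos hTp)) hq hc hab).1
    have e1 : S' = (PR t t).filter fun p : ℕ => α / m.natAbs < p ∧ (p : ℝ) ≤ β / m.natAbs ∧
        ((v * pv T : ℕ) : ℤ) ∣ p - c := by
      ext x
      rw [hS', mem_filter, mem_filter, ← hcl, ← mul_assoc, ← dvd_all hv hTp]
      simp only [and_assoc]
    rw [e1, div_eq_mul_inv N, mul_assoc, ← totient_inv v hTp]
    exact h1
  · obtain ⟨h1, h2, h3, h4, h5⟩ := mem_filter.1 hx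
    exact ⟨mem_filter.2 ⟨h1, (div_lt_iff₀ hμ).2 h2, (le_div_iff₀ hμ).2 h3, h4⟩,
      fun p hp => h5 p (mem_filter.1 hp).1⟩
  have h2 := (hp t 1 0 _ _ ht4 le_rfl (by simp)
    (by simpa using isCoprime_one_right) hab).2
  have ho : om (Real.exp (t - 1)) (α / m.natAbs) (β / m.natAbs) 1 =
      om (Real.exp (t - 1)) α β m.natAbs := by
    rw [om, om, div_one, div_one]
  rw [ho] at h2
  have hle : ∀ p ∈ P, 0 ≤ 1 - g v p := fun p hp => by linarith [(g_bd v (hP3 p hp)).1.2.2]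
  have hlt : ∀ p ∈ P, 1 - g v p ≤ 1 - (p : ℝ)⁻¹ := fun p hp => by linarith [(g_bd v (hP3 p hp)).2]
  rw [mul_assoc _ (VE u L E), ve_gm hgood]
  refine fin hk' (by positivity) he1 he2 (prod_nonneg hle) (prod_le_prod hle hlt)
    (prod_le_one (fun p hp => (hle p hp).trans (hlt p hp)) fun p _ => sub_le_self _ (by positivity))
    (om_nonneg _ hαβ hμ.le) ht3 ?_ hφ hR0 (one_le_pow₀ hz1)
    hN0 h2 ?_
  · rw [mul_comm, ← div_le_iff₀ he0]
    linarith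
  · rw [le_div_iff₀ (by positivity)]
    calc 4 * (z : ℝ) ^ (4 * k + 8) * R * ((t : ℝ) ^ 2 * L ^ 2)
        ≤ 4 * (z : ℝ) ^ (4 * k + 8) * R * ((t : ℝ) ^ 2 * (z : ℝ) ^ 2) := by gcongr
      _ = 4 * C * (t : ℝ) ^ 2 * (z : ℝ) ^ (4 * k + 10) * Real.exp ((1 - κ) * t) := by rw [hR]; ring
      _ ≤ Real.exp (κ * t) * Real.exp ((1 - κ) * t) := by gcongr
      _ = _ := by rw [← Real.exp_add]; congr 1; ring

end Pool.Agent.P.MP_26a8c3_nt.ED
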